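import Pool.Agent.MP_67f0e4_gt.H.Defs
import Pool.Agent.MP_67f0e4_gt.K.Base

/-! What the statement layer needs from the analysis and from the Gibbons-Hawking block. -/

open scoped ContDiff Topology
open Filter Set Metric

namespace Pool.Agent.MP_67f0e4_gt.H

open K

noncomputable section

abbrev E4 := EuclideanSpace ℝ (Fin 4)

/-- The rescaled metrics tend to the metric with potential `ψ`. -/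
structure LimData (X : Set C3) (T : ℝ) (φ : ℝ → C3 → ℝ) (c : ℝ → ℝ) (ψ : C3 → ℝ) : Prop where
  pos : ∀ t ∈ Ioo 0 T, 0 < c t
  small : Tendsto (fun t => c t / (T - t)) (𝓝[<] T) (𝓝 0)
  slow : ∀ S ε : ℝ, 0 < ε → ∀ᶠ t in 𝓝[<] T, ∀ s ∈ Icc (-S) S, |c (t + s * c t) - c t| ≤ ε * c t
  lim : ∀ K : Set C3, IsCompact K → K ⊆ X → ∀ d : ℝ, 0 < d → ∀ᶠ t in 𝓝[<] T, ∀ p ∈ K,
    XCl X d (φ t) (fun q => c t * ψ q) p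
  der : ∀ N U, Par X N U → ∀ x ∈ U, ∃ r : ℝ, 0 < r ∧ ∀ k : ℕ, ∃ M : ℝ, ∀ᶠ t in 𝓝[<] T,
    LB k (M * c t) (φ t ∘ N) (ball x r)

/-- The chart at infinity `Θ`; `G` is the metric with potential `ψ` read in it. -/
structure InfData (X : Set C3) (ψ : C3 → ℝ) (Γ : Subgroup (E4 ≃ₗᵢ[ℝ] E4)) (R τ : ℝ) (Θ : E4 → X)
    (G : E4 → E4 → E4 → ℝ) : Prop where
  smooth : ContDiffOn ℝ ∞ (fun v => (Θ v : C3)) {v | R < ‖v‖}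
  fibres : ∀ v w, R < ‖v‖ → R < ‖w‖ → (Θ v = Θ w ↔ ∃ γ ∈ Γ, w = γ v)
  cocompact : ∀ r, R ≤ r → IsCompact (Θ '' {v | r < ‖v‖})ᶜ
  proper : ∀ K : Set X, IsCompact K → ∃ r, ∀ v, r < ‖v‖ → Θ v ∉ K
  rep : ∀ v, R < ‖v‖ → ∃ (N : V → C3) (U : Set V) (T : E4 → V), Par X N U ∧ T v ∈ U ∧
    DifferentiableAt ℝ T v ∧ (∀ᶠ w in 𝓝 v, N (T w) = Θ w) ∧
    ∀ a b, G v a b = lev (ψ ∘ N) (T v) (fderiv ℝ T v a) (fderiv ℝ T v b)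
  nondeg : ∀ v, R < ‖v‖ → ∀ a, a ≠ 0 → G v a a ≠ 0
  decay : ∀ (a b : E4) (k : ℕ), ∃ C : ℝ, ∀ v, R < ‖v‖ →
    ‖iteratedFDeriv ℝ k (fun w => G w a b - inner ℝ a b) v‖ ≤ C * ‖v‖ ^ (-τ - k)

/-- A totally geodesic complex curve with non-zero Gauss curvature at one point. -/
def CurvData (f : V → ℝ) (x : V) : Prop :=
  ∃ g : ℂ → ℝ, (∀ᶠ w in 𝓝 (0 : ℂ), lv f (x + (w, 0)) 0 = g w ∧ lv f (x + (w, 0)) 2 = 0 ∧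
      lv f (x + (w, 0)) 3 = 0) ∧
    g 0 * lev g 0 1 1 ≠ D 1 g 0 ^ 2 + D Complex.I g 0 ^ 2

/-- The Ricci-flat ALE potential. -/
structure AleData (X : Set C3) (ψ : C3 → ℝ) (n : ℕ) : Prop where
  flat : RFlat X ψ
  nonneg : ∀ p ∈ X, 0 ≤ ψ p
  proper : ∀ c, IsCompact {p ∈ X | ψ p ≤ c}
  grad : ∃ C : ℝ, ∀ N U, Par X N U → ∀ x ∈ U, ∀ v,
    D v (ψ ∘ N) x ^ 2 ≤ C * ψ (N x) * qf (lv (ψ ∘ N) x) v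
  curv : ∃ N U, Par X N U ∧ ∃ x ∈ U, CurvData (ψ ∘ N) x
  oneEnd : OneEnd X
  inf : ∃ (Γ : Subgroup (E4 ≃ₗᵢ[ℝ] E4)) (R τ : ℝ) (Θ : E4 → X) (G : E4 → E4 → E4 → ℝ),
    0 < R ∧ 0 < τ ∧ Finite Γ ∧ (∀ γ ∈ Γ, ∀ v : E4, ‖v‖ = 1 → γ v = v → γ = 1) ∧ IsCyclic Γ ∧
    Nat.card Γ = n ∧ InfData X ψ Γ R τ Θ G

/-- What block H proves. -/
def StmtH : Prop :=
  ∀ (X : Set C3) (n : ℕ) (F : Fam X) (T : ℝ) (φ : ℝ → C3 → ℝ) (c : ℝ → ℝ) (ψ : C3 → ℝ),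
    Surf X → ConnectedSpace X → F.EXH → 0 < T → XFlow X ψ (Ico 0 T) φ →
    (∀ τ ∈ Ioo 0 T, F.GFlow ψ τ φ) → LimData X T φ c ψ → AleData X ψ n →
    ∃ _ : ChartedSpace E4 X, IsSubmfd E4 X ∧ HasALEBlowup E4 X n

/-- `slow` from a logarithmic Lipschitz bound. -/
def StmtSLOW : Prop :=
  ∀ (T C : ℝ) (c : ℝ → ℝ), 0 < T → (∀ t ∈ Ioo 0 T, 0 < c t) →
    Tendsto (fun t => c t / (T - t) ^ 2) (𝓝[<] T) (𝓝 0) →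
    (∀ t ∈ Ioo 0 T, ∀ t' ∈ Ioo 0 T, t ≤ t' →
      |Real.log (c t') - Real.log (c t)| ≤ C * (t' - t) / (T - t') ^ 2) →
    Tendsto (fun t => c t / (T - t)) (𝓝[<] T) (𝓝 0) ∧
    ∀ S ε : ℝ, 0 < ε → ∀ᶠ t in 𝓝[<] T, ∀ s ∈ Icc (-S) S, |c (t + s * c t) - c t| ≤ ε * c t

end

end Pool.Agent.MP_67f0e4_gt.H
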