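import Pool.Agent.MP_67f0e4_gt.H.Spec

/-! Row ATL: the holomorphic atlas. -/

open scoped ContDiff Topology Manifold NNReal
open Filter Set Metric

namespace Pool.Agent.MP_67f0e4_gt.H

open K

namespace RATL

theorem chart {X : Set C3} (ι : E4 ≃L[ℝ] V) (hS : Surf X) (F : Fam X) (p : X) :
    ∃ c : OpenPartialHomeomorph X E4, p ∈ c.source ∧
      Par X (fun y => (c.symm (ι.symm y) : C3)) (ι.symm ⁻¹' c.target) := by
  classical
  obtain ⟨i, hi⟩ := F.sur p p.2
  have hN := F.par i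
  have h0 : (0 : V) ∈ ball (0 : V) 2 := mem_ball_self two_pos
  obtain ⟨R, r1, r2, r3⟩ := hS.2 _ _ hN 0 h0
  generalize F.Φ i = N at hi hN r1 r2 r3
  rw [hi] at r1 r3
  have r4 := (r1.of_le (m := 1) (by simp)).eventually (by simp)
  obtain ⟨W, w1, w2, w3⟩ :=
    _root_.eventually_nhds_iff.1 (r4.and (eventually_nhdsWithin_iff.1 r3))
  obtain ⟨B, b1, b2, b3⟩ := _root_.eventually_nhds_iff.1 (r2.and (isOpen_ball.mem_nhds h0))
  have cR : ContinuousOn R W := fun q hq => (w1 q hq).1.continuousAt.continuousWithinAt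
  have cN : ContinuousOn N B := hN.hol.continuousOn.mono fun x hx => (b1 x hx).2
  let g : E4 → X := fun u => if h : N (ι u) ∈ X then ⟨_, h⟩ else p
  have hg : ∀ u, ι u ∈ B → (g u : C3) = N (ι u) := fun u hu => by
    simp only [g, dif_pos (hN.mem (b1 _ hu).2)]
  have oT : IsOpen (B ∩ N ⁻¹' W) := cN.isOpen_inter_preimage b2 w2
  let c : OpenPartialHomeomorph X E4 :=
    { toFun := fun q => ι.symm (R q)
      invFun := g
      source := Subtype.val ⁻¹' (W ∩ R ⁻¹' B)
      target := ι ⁻¹' (B ∩ N ⁻¹' W)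
      map_source' := fun q hq => by
        rw [mem_preimage, ι.apply_symm_apply]
        exact ⟨hq.2, by rw [mem_preimage, (w1 q hq.1).2 q.2]; exact hq.1⟩
      map_target' := fun u hu => by
        rw [mem_preimage, hg u hu.1]
        exact ⟨hu.2, by rw [mem_preimage, (b1 _ hu.1).1]; exact hu.1⟩
      left_inv' := fun q hq => Subtype.ext (by
        rw [hg _ (by rw [ι.apply_symm_apply]; exact hq.2), ι.apply_symm_apply, (w1 q hq.1).2 q.2])
      right_inv' := fun u hu => by rw [hg u hu.1, (b1 _ hu.1).1, ι.symm_apply_apply]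
      open_source := (cR.isOpen_inter_preimage w2 b2).preimage continuous_subtype_val
      open_target := oT.preimage ι.continuous
      continuousOn_toFun := ι.symm.continuous.comp_continuousOn
        (cR.comp continuous_subtype_val.continuousOn fun _ hq => hq.1)
      continuousOn_invFun := Topology.IsInducing.subtypeVal.continuousOn_iff.2
        ((cN.comp ι.continuous.continuousOn fun _ hu => hu.1).congr fun u hu => hg u hu.1) }
  have e1 : ι.symm ⁻¹' c.target = B ∩ N ⁻¹' W := by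
    ext y
    change ι (ι.symm y) ∈ B ∩ N ⁻¹' W ↔ _
    rw [ι.apply_symm_apply]
  have e2 : ∀ y ∈ B ∩ N ⁻¹' W, (c.symm (ι.symm y) : C3) = N y := fun y hy => by
    have := hg (ι.symm y) (by rw [ι.apply_symm_apply]; exact hy.1)
    rwa [ι.apply_symm_apply] at this
  refine ⟨c, ⟨w3, ?_⟩, ?_⟩
  · rw [mem_preimage, ← hi, (b1 0 b3).1]
    exact b3
  · rw [e1]
    refine ⟨oT, (hN.hol.mono fun x hx => (b1 x hx.1).2).congr e2, fun y _ => Subtype.prop _,
      fun x hx => ?_⟩
    rw [Filter.EventuallyEq.fderiv_eq (eventually_of_mem (oT.mem_nhds hx) e2)]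
    exact hN.inj x (b1 x hx.1).2

theorem trans {X : Set C3} (ι : E4 ≃L[ℝ] V) (hS : Surf X) {c c' : OpenPartialHomeomorph X E4}
    (h : Par X (fun y => (c.symm (ι.symm y) : C3)) (ι.symm ⁻¹' c.target))
    (h' : Par X (fun y => (c'.symm (ι.symm y) : C3)) (ι.symm ⁻¹' c'.target)) :
    ContDiffOn ℝ ∞ (c.symm ≫ₕ c') (c.symm ≫ₕ c').source := by
  intro u hu
  have hn := (c.symm ≫ₕ c').open_source.mem_nhds hu
  have m' : ι (c' (c.symm u)) ∈ ι.symm ⁻¹' c'.target := by
    rw [mem_preimage, ι.symm_apply_apply]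
    exact c'.map_source hu.2
  have m : ι u ∈ ι.symm ⁻¹' c.target := by
    rw [mem_preimage, ι.symm_apply_apply]
    exact hu.1
  obtain ⟨R, r1, r2, -⟩ := hS.2 _ _ h' _ m'
  have e : ∀ v ∈ (c.symm ≫ₕ c').source,
      (c'.symm (ι.symm (ι (c' (c.symm v)))) : C3) = c.symm (ι.symm (ι v)) := fun v hv => by
    rw [ι.symm_apply_apply, ι.symm_apply_apply, c'.left_inv (x := c.symm v) hv.2]
  rw [e u hu] at r1
  have s1 := (h.hol.contDiffAt (h.op.mem_nhds m)).restrict_scalars ℝ
  have s2 := ι.symm.contDiff.contDiffAt.comp u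
    (((r1.restrict_scalars ℝ).comp (ι u) s1).comp u ι.contDiff.contDiffAt)
  have t : ContinuousAt (fun v => ι ((c.symm ≫ₕ c') v)) u :=
    ι.continuous.continuousAt.comp ((c.symm ≫ₕ c').continuousAt hu)
  refine (s2.congr_of_eventuallyEq ?_).contDiffWithinAt
  filter_upwards [hn, t.eventually r2] with v h1 h2
  change R (c'.symm (ι.symm (ι (c' (c.symm v))))) = ι (c' (c.symm v)) at h2
  change c' (c.symm v) = ι.symm (R (c.symm (ι.symm (ι v))))
  rw [← e v h1, h2, ι.symm_apply_apply]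

end RATL

theorem rATL : StmtATL := by
  intro X ι hS F
  choose c h1 h2 using RATL.chart ι hS F
  let cs : ChartedSpace E4 X := ⟨range c, c, h1, mem_range_self⟩
  refine ⟨cs, hS, isManifold_of_contDiffOn _ _ _ ?_, h2⟩
  rintro _ _ ⟨p, rfl⟩ ⟨q, rfl⟩
  simpa only [mfld_simps] using RATL.trans ι hS (h2 p) (h2 q)

end Pool.Agent.MP_67f0e4_gt.H
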