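import Pool.Agent.MP_67f0e4_gt.H.Spec

/-! The curvature blows up. -/

open scoped ContDiff Topology
open Filter Set Metric

namespace Pool.Agent.MP_67f0e4_gt.H

open K

namespace RBLOW

theorem smul2 {h : V → V → V → ℝ} {U : Set V} (H : MetOn h U) {y : V} (hy : y ∈ U) (s r : ℝ)
    (a b : V) : h y (s • a) (r • b) = s * r * h y a b := by
  rw [(H.lin y hy _).map_smul, H.symm y hy, (H.lin y hy _).map_smul, H.symm y hy, smul_eq_mul,
    smul_eq_mul]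
  ring

theorem lv_mul (hL : LevF) (r : ℝ) (f : V → ℝ) (y : V) (α : Fin 4) :
    lv (fun z => r * f z) y α = r * lv f y α := by
  fin_cases α <;> simp [lv, hL.mul]

theorem kp_mul (hL : LevF) {r : ℝ} (hr : 0 < r) {f : V → ℝ} {U : Set V} (h : KP f U) :
    KP (fun z => r * f z) U := by
  refine ⟨h.opn, contDiffOn_const.mul h.sm, fun y hy v hv => ?_⟩
  have e : qf (lv (fun z => r * f z) y) v = r * qf (lv f y) v := by
    simp only [qf, bf, lv_mul hL]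
    ring
  rw [e]
  exact mul_pos hr (h.pos y hy v hv)

/-- Convergence of all jets of the rescaled Levi forms at the centre. -/
theorem jets (hL : LevF) (hINT : StmtINT) (hWD : StmtWD) {T : ℝ} {Φ : ℝ → V → ℝ} {c : ℝ → ℝ}
    {g : V → ℝ} {B : Set V} {x : V} (hB : IsOpen B) (hx : x ∈ B) (h0 : Loc0 T Φ c g B)
    (hg : ContDiffOn ℝ ∞ g B) (hΦ : ∀ᶠ t in 𝓝[<] T, 0 < c t ∧ ContDiffOn ℝ ∞ (Φ t) B)
    (w : List (Fin 4)) (α : Fin 4) :
    Tendsto (fun t => DL w (fun y => lv (fun z => (c t)⁻¹ * Φ t z) y α) x) (𝓝[<] T)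
      (𝓝 (DL w (fun y => lv g y α) x)) := by
  have s0 := hL.smo g B hB hg α
  have s1 : ∀ᶠ t in 𝓝[<] T, ContDiffOn ℝ ∞ (fun y => (c t)⁻¹ * lv (Φ t) y α - lv g y α) B :=
    hΦ.mono fun t ht => (contDiffOn_const.mul (hL.smo _ B hB ht.2 α)).sub s0
  have key := hINT V ℝ (𝓝[<] T) (fun t y => (c t)⁻¹ * lv (Φ t) y α - lv g y α) B hB s1
    (fun ε hε => (h0.lim ε hε).mono fun t ht y hy => ht y hy α) (fun k => by
      obtain ⟨M, hM⟩ := h0.der k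
      obtain ⟨M', hM'⟩ := h0.bnd k
      refine ⟨4 ^ k * (M + M'), ?_⟩
      filter_upwards [hΦ, s1, hM] with t t1 t2 t3 z hz
      refine (hWD _ B hB t2 z hz).1 k _ fun l hl => ?_
      rw [(hWD _ B hB (hL.smo _ B hB t1.2 α) z hz).2.2 _ _ s0]
      refine (abs_sub _ _).trans (add_le_add ?_ (hM' l hl.le α z hz))
      rw [abs_mul, abs_of_pos (inv_pos.2 t1.1), inv_mul_le_iff₀ t1.1, mul_comm]
      exact t3 l hl.le α z hz) {x} isCompact_singleton (singleton_subset_iff.2 hx) w.length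
  refine Metric.tendsto_nhds.2 fun ε hε => ?_
  filter_upwards [hΦ, s1, key (ε / 2) (half_pos hε)] with t t1 t2 t3
  have e := (hWD _ B hB (hL.smo (fun z => (c t)⁻¹ * Φ t z) B hB
    (contDiffOn_const.mul t1.2) α) x hx).2.2 _ 1 s0 w
  simp only [one_mul] at e
  rw [Real.dist_eq, ← e]
  simp only [lv_mul hL]
  exact (((hWD _ B hB t2 x hx).2.1 w).trans (t3 x rfl)).trans_lt (half_lt_self hε)

end RBLOW

open RBLOW

theorem rBLOW (hLEV : StmtLEV) (hGERM : StmtGERM) (hTR : StmtTR) (hNF : StmtNF) (hRCT : StmtRCT)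
    (hINT : StmtINT) (hWD : StmtWD) (hC0 : StmtC0) (hCHR : StmtCHR) (hRM : StmtRM) :
    StmtBLOW := by
  intro X _ ι hA T φ c ψ hT hφ hψ hl ⟨N, U, hN, x, hx, hC⟩
  have kg := hψ N U hN
  obtain ⟨a₁, a₂, a₃, a₄, hκ⟩ := hNF _ U kg x hx hC
  obtain ⟨r, r0, rU, h0⟩ := hC0 X T φ c ψ hT hψ hl N U hN x hx
  obtain ⟨A, hA'⟩ := (hTR X ι hA).2 N U hN x hx ⟨N x, hN.mem hx⟩ rfl
  have ev : ∀ᶠ t in 𝓝[<] T, t ∈ Ioo 0 T := Ioo_mem_nhdsLT hT
  have kt : ∀ t ∈ Ioo 0 T, KP (φ t ∘ N) U := fun t ht => hφ t (Ioo_subset_Ico_self ht) N U hN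
  have kf : ∀ᶠ t in 𝓝[<] T, KP (fun z => (c t)⁻¹ * (φ t ∘ N) z) U :=
    ev.mono fun t ht => kp_mul hLEV (inv_pos.2 (hl.pos t ht)) (kt t ht)
  have j := jets hLEV hINT hWD isOpen_ball (mem_ball_self r0) h0 (kg.sm.mono rU)
    (ev.mono fun t ht => ⟨hl.pos t ht, (kt t ht).sm.mono rU⟩)
  have hk := hRCT ℝ (𝓝[<] T) _ _ U kf kg x hx (fun w _ α => j w α) a₁ a₂ a₃ a₄
  have c2 : ∀ {f : V → ℝ}, KP f U → ContDiffAt ℝ 2 f x := fun h =>
    (h.sm.contDiffAt (h.opn.mem_nhds hx)).of_le (WithTop.coe_le_coe.2 le_top)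
  have len : ∀ v : V, Tendsto (fun t => lev (fun z => (c t)⁻¹ * (φ t ∘ N) z) x v v) (𝓝[<] T)
      (𝓝 (lev (ψ ∘ N) x v v)) := fun v => by
    rw [hLEV.eq _ x (c2 kg)]
    refine Tendsto.congr' (kf.mono fun t ht => (hLEV.eq _ x (c2 ht) v v).symm) ?_
    exact ((((j [] 0).mul_const _).add ((j [] 1).mul_const _)).add ((j [] 2).mul_const _)).add
      ((j [] 3).mul_const _)
  obtain ⟨L, L0, hL⟩ : ∃ L : ℝ, 0 < L ∧ ∀ v ∈ [a₁, a₂, a₃, a₄], lev (ψ ∘ N) x v v < L := by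
    refine ⟨1 + |lev (ψ ∘ N) x a₁ a₁| + |lev (ψ ∘ N) x a₂ a₂| + |lev (ψ ∘ N) x a₃ a₃| +
      |lev (ψ ∘ N) x a₄ a₄|, by positivity, fun v hv => (le_abs_self _).trans_lt ?_⟩
    have b1 := abs_nonneg (lev (ψ ∘ N) x a₁ a₁)
    have b2 := abs_nonneg (lev (ψ ∘ N) x a₂ a₂)
    have b3 := abs_nonneg (lev (ψ ∘ N) x a₃ a₃)
    have b4 := abs_nonneg (lev (ψ ∘ N) x a₄ a₄)
    simp only [List.mem_cons, List.not_mem_nil, or_false] at hv
    rcases hv with rfl | rfl | rfl | rfl <;> linarith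
  have c0 : Tendsto (fun t => c t * L ^ 2) (𝓝[<] T) (𝓝[>] 0) := by
    refine tendsto_nhdsWithin_iff.2 ⟨?_, ev.mono fun t ht => mul_pos (hl.pos t ht) (by positivity)⟩
    have h1 : Tendsto (fun t => T - t) (𝓝[<] T) (𝓝 0) :=
      (Continuous.tendsto' (by fun_prop) T 0 (sub_self T)).mono_left nhdsWithin_le_nhds
    have h2 := (hl.small.mul h1).mul_const (L ^ 2)
    rw [zero_mul, zero_mul] at h2
    exact h2.congr' (ev.mono fun t ht => by rw [div_mul_cancel₀ _ (sub_pos.2 ht.2).ne'])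
  have big := ENNReal.tendsto_ofReal_atTop.comp
    (hk.abs.pos_mul_atTop (abs_pos.2 hκ) (tendsto_inv_nhdsGT_zero.comp c0))
  refine tendsto_nhds_top_mono big ?_
  filter_upwards [ev, (len a₁).eventually_lt_const (hL a₁ (by simp)),
    (len a₂).eventually_lt_const (hL a₂ (by simp)), (len a₃).eventually_lt_const (hL a₃ (by simp)),
    (len a₄).eventually_lt_const (hL a₄ (by simp))] with t ht l1 l2 l3 l4
  have ct := hl.pos t ht
  have m := hLEV.met _ U (kt t ht)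
  obtain ⟨e1, e2, -⟩ := hA' (φ t) (hφ t (Ioo_subset_Ico_self ht))
  obtain ⟨R, hR⟩ := (hRM V _ U m (hCHR V _ U m)).bund x hx
  obtain ⟨s, hs⟩ : ∃ s : ℝ, s * s = (c t * L)⁻¹ := ⟨_, Real.mul_self_sqrt (by positivity)⟩
  have un : ∀ v : V, lev (fun z => (c t)⁻¹ * (φ t ∘ N) z) x v v < L →
      kah ι (φ t) (⟨N x, hN.mem hx⟩ : X) (A.symm (s • v)) (A.symm (s • v)) ≤ 1 := fun v hv => by
    rw [hLEV.mul, inv_mul_lt_iff₀ ct] at hv
    rw [e1, A.apply_symm_apply, smul2 m hx, hs, inv_mul_le_iff₀ (by positivity), mul_one]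
    exact hv.le
  refine le_iSup_of_le (⟨N x, hN.mem hx⟩ : X) (le_iSup_of_le (A.symm (s • a₁)) (le_iSup_of_le
    (A.symm (s • a₂)) (le_iSup_of_le (A.symm (s • a₃)) (le_iSup_of_le (A.symm (s • a₄))
    (le_iSup_of_le ⟨un _ l1, un _ l2, un _ l3, un _ l4⟩ (le_of_eq ?_))))))
  have e3 : lev (fun z => (c t)⁻¹ * (φ t ∘ N) z) =
      fun y a b => (c t)⁻¹ * lev (φ t ∘ N) y a b := by
    funext y a b
    exact hLEV.mul _ _ _ _ _
  have e4 : R (s • a₁) (s • a₂) (s • a₃) = (s * s * s) • R a₁ a₂ a₃ := by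
    simp only [map_smul, smul_apply, smul_smul, mul_assoc]
  simp only [Function.comp_apply, e1, e2, A.apply_symm_apply]
  congr 1
  change |lev (fun z => (c t)⁻¹ * (φ t ∘ N) z) x
    (rm (lev fun z => (c t)⁻¹ * (φ t ∘ N) z) x a₁ a₂ a₃) a₄| * _ = _
  rw [e3, ((hGERM V _).2 U _ m (inv_pos.2 ct)).2 x hx, hR, hR, e4, smul2 m hx, mul_assoc (s * s),
    hs, abs_mul, abs_mul, abs_of_pos (inv_pos.2 ct), abs_mul_self]
  field_simp

end Pool.Agent.MP_67f0e4_gt.H
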