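import Pool.Agent.MP_67f0e4_gt.H.Spec

/-! The limit data in one chart. -/

open scoped ContDiff Topology
open Filter Set Metric

namespace Pool.Agent.MP_67f0e4_gt.H

open K

namespace RC0

theorem ent {d M : ℝ} {g g0 : Hm} (hd : 0 ≤ d) (h : Cl d g g0) (hM : ∀ α, |g0 α| ≤ M)
    (α : Fin 4) : |g α - g0 α| ≤ 3 * d * M := by
  have h0 := h (1, 0)
  have h1 := h (0, 1)
  have h2 := h (1, 1)
  have h3 := h (1, Complex.I)
  simp only [qf, bf, Complex.one_re, Complex.one_im, Complex.zero_re, Complex.zero_im,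
    Complex.I_re, Complex.I_im] at h0 h1 h2 h3
  have m0 := mul_le_mul_of_nonneg_left (abs_le.1 (hM 0)).2 hd
  have m1 := mul_le_mul_of_nonneg_left (abs_le.1 (hM 1)).2 hd
  have m2 := mul_le_mul_of_nonneg_left (abs_le.1 (hM 2)).2 hd
  have m3 := mul_le_mul_of_nonneg_left (abs_le.1 (hM 3)).2 hd
  have m4 := mul_nonneg hd ((abs_nonneg _).trans (hM 0))
  rw [abs_le] at h0 h1 h2 h3 ⊢
  obtain ⟨a0, b0⟩ := h0
  obtain ⟨a1, b1⟩ := h1
  obtain ⟨a2, b2⟩ := h2
  obtain ⟨a3, b3⟩ := h3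
  have hα : α = 0 ∨ α = 1 ∨ α = 2 ∨ α = 3 := by
    revert α
    decide
  rcases hα with rfl | rfl | rfl | rfl <;> constructor <;> linarith

theorem word {g : V → ℝ} {U : Set V} (hU : IsOpen U) (hg : ContDiffOn ℝ ∞ g U)
    (l : List (Fin 4)) : ContDiffOn ℝ ∞ (DL l g) U := by
  induction l with
  | nil => exact hg
  | cons i l ih =>
    exact (ih.fderiv_of_isOpen hU (by simp)).clm_apply contDiffOn_const

theorem bnd (hL : LevF) {f : V → ℝ} {U C : Set V} (hU : IsOpen U) (hf : ContDiffOn ℝ ∞ f U)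
    (hC : IsCompact C) (hCU : C ⊆ U) (k : ℕ) : ∃ M, LB k M f C := by
  have h1 : ∀ p : List (Fin 4) × Fin 4, ∃ M : ℝ, ∀ y ∈ C,
      ‖DL p.1 (fun y => lv f y p.2) y‖ ≤ M := fun p =>
    hC.exists_bound_of_continuousOn
      ((word hU (hL.smo f U hU hf p.2) p.1).continuousOn.mono hCU)
  choose M hM using h1
  have h2 : ({l : List (Fin 4) | l.length ≤ k} ×ˢ (univ : Set (Fin 4))).Finite :=
    (List.finite_length_le (Fin 4) k).prod finite_univ
  obtain ⟨B, hB⟩ := (h2.image M).bddAbove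
  exact ⟨B, fun l hl α y hy => (hM (l, α) y hy).trans (hB ⟨(l, α), ⟨hl, trivial⟩, rfl⟩)⟩

theorem scal (hL : LevF) (r : ℝ) (f : V → ℝ) (x : V) (α : Fin 4) :
    lv (fun y => r * f y) x α = r * lv f x α := by
  have hα : α = 0 ∨ α = 1 ∨ α = 2 ∨ α = 3 := by
    revert α
    decide
  rcases hα with rfl | rfl | rfl | rfl <;> exact hL.mul r f x _ _

end RC0

theorem rC0 (hLEV : StmtLEV) : StmtC0 := by
  intro X T φ c ψ hT hK hL N U hN x hx
  have hP := hK N U hN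
  obtain ⟨r0, hr0, hder⟩ := hL.der N U hN x hx
  obtain ⟨r1, hr1, hU⟩ := nhds_basis_closedBall.mem_iff.1 (hN.op.mem_nhds hx)
  have hr : 0 < min r0 r1 := lt_min hr0 hr1
  have hs0 : ball x (min r0 r1) ⊆ ball x r0 := ball_subset_ball (min_le_left _ _)
  have hs1 : ball x (min r0 r1) ⊆ closedBall x r1 :=
    (ball_subset_ball (min_le_right _ _)).trans ball_subset_closedBall
  have hC : IsCompact (closedBall x r1) := isCompact_closedBall x r1
  have hb := RC0.bnd hLEV hN.op hP.sm hC hU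
  refine ⟨min r0 r1, hr, hs1.trans hU, fun ε hε => ?_, fun k => ?_, fun k => ?_, ?_⟩
  · obtain ⟨M, hM⟩ := hb 0
    have hM' : ∀ y ∈ closedBall x r1, ∀ α, |lv (ψ ∘ N) y α| ≤ M :=
      fun y hy α => hM [] le_rfl α y hy
    have hM0 : 0 ≤ M := (abs_nonneg _).trans (hM' x (mem_closedBall_self hr1.le) 0)
    have hd : 0 < ε / (3 * (M + 1)) := by positivity
    have h1 := hL.lim (N '' closedBall x r1)
      (hC.image_of_continuousOn (hN.hol.continuousOn.mono hU))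
      (image_subset_iff.2 fun y hy => hN.mem (hU hy)) _ hd
    filter_upwards [h1, Ioo_mem_nhdsLT hT] with t ht ht' y hy α
    have hc := hL.pos t ht'
    have h2 := ht (N y) ⟨y, hs1 hy, rfl⟩ N U hN y (hU (hs1 hy)) rfl
    have h3 : ∀ β, lv ((fun q => c t * ψ q) ∘ N) y β = c t * lv (ψ ∘ N) y β :=
      RC0.scal hLEV (c t) (ψ ∘ N) y
    have h4 := RC0.ent (M := c t * M) hd.le h2 (fun β => by
      rw [h3, abs_mul, abs_of_pos hc]
      exact mul_le_mul_of_nonneg_left (hM' y (hs1 hy) β) hc.le) α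
    rw [h3] at h4
    have h5 : (c t)⁻¹ * lv (φ t ∘ N) y α - lv (ψ ∘ N) y α =
        (c t)⁻¹ * (lv (φ t ∘ N) y α - c t * lv (ψ ∘ N) y α) := by
      field_simp
    rw [h5, abs_mul, abs_of_pos (inv_pos.2 hc), inv_mul_le_iff₀ hc]
    refine h4.trans ?_
    have h6 : 3 * (ε / (3 * (M + 1))) * (c t * M) = c t * ε * (M / (M + 1)) := by
      field_simp
    rw [h6]
    exact mul_le_of_le_one_right (mul_pos hc hε).le ((div_le_one (by linarith)).2 (by linarith))
  · obtain ⟨M, hM⟩ := hder k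
    exact ⟨M, hM.mono fun t ht l hl α y hy => ht l hl α y (hs0 hy)⟩
  · obtain ⟨M, hM⟩ := hb k
    exact ⟨M, fun l hl α y hy => hM l hl α y (hs1 hy)⟩
  · have h1 : ∀ α, ContinuousOn (fun y => lv (ψ ∘ N) y α) (closedBall x r1) := fun α =>
      (hLEV.smo _ U hN.op hP.sm α).continuousOn.mono hU
    have h2 : ContinuousOn (fun y => hdet (lv (ψ ∘ N) y)) (closedBall x r1) :=
      (((h1 0).mul (h1 1)).sub ((h1 2).pow 2)).sub ((h1 3).pow 2)
    obtain ⟨y0, hy0, hmin⟩ := hC.exists_isMinOn ⟨x, mem_closedBall_self hr1.le⟩ h2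
    exact ⟨_, hLEV.det _ (hP.pos y0 (hU hy0)), fun y hy => hmin (hs1 hy)⟩

end Pool.Agent.MP_67f0e4_gt.H
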