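import Pool.Agent.MP_67f0e4_gt.H.Spec

/-! Row CHR: Christoffel symbols of a metric in coordinates. -/

open scoped ContDiff Topology
open Filter Set

namespace Pool.Agent.MP_67f0e4_gt.H

open K

noncomputable section

namespace RCHR

variable {E : Type} [NormedAddCommGroup E] [NormedSpace ℝ E] [FiniteDimensional ℝ E]

theorem mkB {F : Type} [NormedAddCommGroup F] [NormedSpace ℝ F] (f : E → E → F)
    (h1 : ∀ a, IsLinearMap ℝ (f a)) (h2 : ∀ b, IsLinearMap ℝ fun a => f a b) :
    ∃ B : E →L[ℝ] E →L[ℝ] F, ∀ a b, f a b = B a b := by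
  let B : E →ₗ[ℝ] E →ₗ[ℝ] F := LinearMap.mk₂ ℝ f (fun a a' b => (h2 b).map_add a a')
    (fun r a b => (h2 b).map_smul r a) (fun a b b' => (h1 a).map_add b b')
    (fun r a b => (h1 a).map_smul r b)
  exact ⟨LinearMap.toContinuousLinearMap
    ((LinearMap.toContinuousLinearMap : (E →ₗ[ℝ] F) ≃ₗ[ℝ] E →L[ℝ] F).toLinearMap ∘ₗ B),
    fun _ _ => rfl⟩

theorem invertible (G : E →L[ℝ] E →L[ℝ] ℝ) (hG : ∀ a, a ≠ 0 → 0 < G a a) : G.IsInvertible := by
  have hi : Function.Injective (G : E →ₗ[ℝ] E →L[ℝ] ℝ) := by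
    rw [injective_iff_map_eq_zero]
    intro a ha
    by_contra hn
    have h1 := hG a hn
    have h2 : G a = 0 := ha
    rw [h2] at h1
    exact lt_irrefl _ h1
  have hr : Module.finrank ℝ E = Module.finrank ℝ (E →L[ℝ] ℝ) := by
    rw [← (LinearMap.toContinuousLinearMap : (E →ₗ[ℝ] ℝ) ≃ₗ[ℝ] E →L[ℝ] ℝ).finrank_eq]
    exact Subspace.dual_finrank_eq.symm
  refine ⟨(LinearMap.linearEquivOfInjective _ hi hr).toContinuousLinearEquiv, ?_⟩
  ext a b
  rfl

omit [FiniteDimensional ℝ E] in
theorem D_symm {h : E → E → E → ℝ} {U : Set E} (hm : MetOn h U) {y : E} (hy : y ∈ U)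
    (a b c : E) : D a (fun w => h w b c) y = D a (fun w => h w c b) y := by
  have h1 : (fun w => h w b c) =ᶠ[𝓝 y] fun w => h w c b := by
    filter_upwards [hm.opn.mem_nhds hy] with w hw using hm.symm w hw b c
  rw [D, D, h1.fderiv_eq]

omit [FiniteDimensional ℝ E] in
theorem D_lin1 (f : E → ℝ) (y : E) : IsLinearMap ℝ fun a => D a f y :=
  ⟨fun a a' => (fderiv ℝ f y).map_add a a', fun r a => (fderiv ℝ f y).map_smul r a⟩

omit [FiniteDimensional ℝ E] in
theorem D_lin3 {h : E → E → E → ℝ} {U : Set E} (hm : MetOn h U) {y : E} (hy : y ∈ U)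
    (a b : E) : IsLinearMap ℝ fun c => D a (fun w => h w b c) y := by
  have hd : ∀ c, DifferentiableAt ℝ (fun w => h w b c) y := fun c =>
    ((hm.sm b c).contDiffAt (hm.opn.mem_nhds hy)).differentiableAt (by simp)
  refine ⟨fun c c' => ?_, fun r c => ?_⟩
  · have h1 : (fun w => h w b (c + c')) =ᶠ[𝓝 y] fun w => h w b c + h w b c' := by
      filter_upwards [hm.opn.mem_nhds hy] with w hw using (hm.lin w hw b).map_add c c'
    simp only [D]
    rw [h1.fderiv_eq, fderiv_fun_add (hd c) (hd c')]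
    rfl
  · have h1 : (fun w => h w b (r • c)) =ᶠ[𝓝 y] fun w => r • h w b c := by
      filter_upwards [hm.opn.mem_nhds hy] with w hw using (hm.lin w hw b).map_smul r c
    simp only [D]
    rw [h1.fderiv_eq, fderiv_fun_const_smul (hd c)]
    rfl

omit [FiniteDimensional ℝ E] in
theorem D_lin2 {h : E → E → E → ℝ} {U : Set E} (hm : MetOn h U) {y : E} (hy : y ∈ U)
    (a c : E) : IsLinearMap ℝ fun b => D a (fun w => h w b c) y := by
  have e : (fun b => D a (fun w => h w b c) y) = fun b => D a (fun w => h w c b) y :=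
    funext fun b => D_symm hm hy a b c
  rw [e]
  exact D_lin3 hm hy a c

omit [FiniteDimensional ℝ E] in
theorem lin3 {f g k : E → ℝ} (hf : IsLinearMap ℝ f) (hg : IsLinearMap ℝ g)
    (hk : IsLinearMap ℝ k) : IsLinearMap ℝ fun a => (f a + g a - k a) / 2 := by
  refine ⟨fun a a' => ?_, fun r a => ?_⟩
  · rw [hf.map_add, hg.map_add, hk.map_add]
    ring
  · rw [hf.map_smul, hg.map_smul, hk.map_smul]
    simp only [smul_eq_mul]
    ring

end RCHR

open RCHR in
theorem rCHR : StmtCHR := by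
  intro E _ _ _ h U hm
  have hG0 : ∀ y, ∃ B : E →L[ℝ] E →L[ℝ] ℝ, y ∈ U → ∀ a b, h y a b = B a b := by
    intro y
    by_cases hy : y ∈ U
    · obtain ⟨B, hB⟩ := mkB (h y) (hm.lin y hy) fun b => by
        have e : (fun a => h y a b) = h y b := funext fun a => hm.symm y hy a b
        rw [e]
        exact hm.lin y hy b
      exact ⟨B, fun _ => hB⟩
    · exact ⟨0, fun hy' => absurd hy' hy⟩
  choose G hG using hG0
  have hs : ContDiffOn ℝ ∞ G U :=
    contDiffOn_clm_apply.2 fun a => contDiffOn_clm_apply.2 fun b =>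
      (hm.sm a b).congr fun y hy => (hG y hy a b).symm
  have hinv : ∀ y ∈ U, (G y).IsInvertible := fun y hy =>
    invertible _ fun a ha => hG y hy a a ▸ hm.pos y hy a ha
  have hk0 : ∀ y a b, ∃ k : E →L[ℝ] ℝ, y ∈ U → ∀ c, kos h y a b c = k c := by
    intro y a b
    by_cases hy : y ∈ U
    · have hl : IsLinearMap ℝ fun c => kos h y a b c :=
        lin3 (D_lin3 hm hy a b) (D_lin3 hm hy b a) (D_lin1 _ y)
      exact ⟨LinearMap.toContinuousLinearMap (hl.mk' _), fun _ _ => rfl⟩
    · exact ⟨0, fun hy' => absurd hy' hy⟩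
  choose κ hk using hk0
  have hkos : ∀ y ∈ U, ∀ a b c, h y (chr h y a b) c = kos h y a b c := by
    intro y hy a b c
    have hex : ∃ Γ : E, ∀ c : E, 2 * h y Γ c =
        fderiv ℝ (fun y => h y b c) y a + fderiv ℝ (fun y => h y a c) y b
          - fderiv ℝ (fun y => h y a b) y c := by
      refine ⟨(G y).inverse (κ y a b), fun c => ?_⟩
      rw [hG y hy, (hinv y hy).self_apply_inverse, ← hk y a b hy]
      simp only [kos, D]
      ring
    have := Classical.epsilon_spec hex c
    simp only [kos, D, chr]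
    linarith
  have hchr : ∀ y ∈ U, ∀ a b, chr h y a b = (G y).inverse (κ y a b) := by
    intro y hy a b
    have e : G y (chr h y a b) = κ y a b := by
      ext c
      rw [← hG y hy, hkos y hy, hk y a b hy]
    rw [← e, (hinv y hy).inverse_apply_self]
  have hsy : ∀ y ∈ U, ∀ a b, chr h y a b = chr h y b a := by
    intro y hy a b
    rw [hchr y hy, hchr y hy]
    refine congrArg _ ?_
    ext c
    rw [← hk y a b hy, ← hk y b a hy, kos, kos, D_symm hm hy c a b]
    ring
  have hl1 : ∀ y ∈ U, ∀ a, IsLinearMap ℝ (chr h y a) := by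
    intro y hy a
    have hl : ∀ c, IsLinearMap ℝ fun b => kos h y a b c := fun c =>
      lin3 (D_lin2 hm hy a c) (D_lin1 _ y) (D_lin3 hm hy c a)
    refine ⟨fun b b' => ?_, fun r b => ?_⟩
    · rw [hchr y hy, hchr y hy, hchr y hy, ← map_add]
      refine congrArg _ ?_
      ext c
      rw [ContinuousLinearMap.add_apply, ← hk y a _ hy, ← hk y a _ hy, ← hk y a _ hy]
      exact (hl c).map_add b b'
    · rw [hchr y hy, hchr y hy, ← map_smul]
      refine congrArg _ ?_
      ext c
      rw [ContinuousLinearMap.smul_apply, ← hk y a _ hy, ← hk y a _ hy]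
      exact (hl c).map_smul r b
  have hC0 : ∀ y, ∃ B : E →L[ℝ] E →L[ℝ] E, y ∈ U → ∀ a b, chr h y a b = B a b := by
    intro y
    by_cases hy : y ∈ U
    · obtain ⟨B, hB⟩ := mkB (chr h y) (hl1 y hy) fun b => by
        have e : (fun a => chr h y a b) = chr h y b := funext fun a => hsy y hy a b
        rw [e]
        exact hl1 y hy b
      exact ⟨B, fun _ => hB⟩
    · exact ⟨0, fun hy' => absurd hy' hy⟩
  choose C hC using hC0
  have hd3 : ∀ a b c, ContDiffOn ℝ ∞ (D a fun w => h w b c) U := fun a b c =>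
    ((hm.sm b c).fderiv_of_isOpen hm.opn (m := ∞) (le_of_eq rfl)).clm_apply contDiffOn_const
  have hCs : ContDiffOn ℝ ∞ C U := by
    refine contDiffOn_clm_apply.2 fun a => contDiffOn_clm_apply.2 fun b => ?_
    have : CompleteSpace E := FiniteDimensional.complete ℝ E
    have h1 : ContDiffOn ℝ ∞ (fun y => (G y).inverse) U := fun y hy =>
      (hinv y hy).contDiffAt_map_inverse.comp_contDiffWithinAt y (hs y hy)
    have h2 : ContDiffOn ℝ ∞ (fun y => κ y a b) U :=
      contDiffOn_clm_apply.2 fun c =>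
        ((((hd3 a b c).add (hd3 b a c)).sub (hd3 c a b)).div_const 2).congr fun y hy =>
          (hk y a b hy c).symm
    exact (h1.clm_apply h2).congr fun y hy => (hC y hy a b).symm.trans (hchr y hy a b)
  refine ⟨⟨G, C, hs, hCs, fun y hy a b => ⟨hG y hy a b, hC y hy a b⟩⟩, hkos, hsy,
    fun y hy a b c => ?_⟩
  rw [hm.symm y hy b, hkos y hy, hkos y hy, kos, kos, D_symm hm hy a c b]
  ring

end

end Pool.Agent.MP_67f0e4_gt.H
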