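import Pool.Agent.MP_67f0e4_gt.H.Spec

/-! Completeness from a proper function with bounded gradient. -/

open scoped ContDiff Topology Manifold NNReal ENNReal
open Filter Set Metric MeasureTheory

namespace Pool.Agent.MP_67f0e4_gt.H

open K

noncomputable section

namespace RCPL

variable {X : Set C3} [ChartedSpace E4 X] {ι : E4 ≃L[ℝ] V}

theorem mem0 (p : X) : ι (chartAt E4 p p) ∈ ι.symm ⁻¹' (chartAt E4 p).target := by
  change ι.symm (ι (chartAt E4 p p)) ∈ (chartAt E4 p).target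
  rw [ι.symm_apply_apply]
  exact mem_chart_target E4 p

theorem cN_chart (p q : X) (hq : q ∈ (chartAt E4 p).source) :
    cN ι p (ι (chartAt E4 p q)) = q := by
  unfold cN
  rw [ι.symm_apply_apply, (chartAt E4 p).left_inv hq]

/-- The gradient bound in the chart at `p`. -/
theorem grad (hL : LevF) (hA : Atl X ι) {f ρ : C3 → ℝ} {C : ℝ} (hf : XK X f) (hρ : XSm0 X ρ)
    (p : X) (h : ∃ N U x, Par X N U ∧ x ∈ U ∧ N x = p ∧
      ∀ v, D v (ρ ∘ N) x ^ 2 ≤ C * lev (f ∘ N) x v v) (v : V) :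
    D v (ρ ∘ cN ι p) (ι (chartAt E4 p p)) ^ 2 ≤
      C * lev (f ∘ cN ι p) (ι (chartAt E4 p p)) v v := by
  obtain ⟨N, U, x, hN, hx, hp, hb⟩ := h
  obtain ⟨R, hR, h1, h2⟩ := hA.surf.2 N U hN x hx
  have hP := hA.par p
  have h0 := mem0 (ι := ι) p
  have e0 : cN ι p (ι (chartAt E4 p p)) = N x :=
    (cN_chart p p (mem_chart_source E4 p)).trans hp.symm
  generalize ι (chartAt E4 p p) = x0 at h0 e0 ⊢
  have hc : ContDiffAt ℂ ∞ (cN ι p) x0 := hP.hol.contDiffAt (hP.op.mem_nhds h0)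
  have hS : ContDiffAt ℂ ∞ (R ∘ cN ι p) x0 := ContDiffAt.comp x0 (e0 ▸ hR) hc
  have hS0 : (R ∘ cN ι p) x0 = x := by
    change R (cN ι p x0) = x
    rw [e0]
    exact h1.self_of_nhds
  have ht : Tendsto (cN ι p) (𝓝 x0) (𝓝[X] (N x)) := by
    refine tendsto_nhdsWithin_iff.2 ⟨e0 ▸ hc.continuousAt, ?_⟩
    filter_upwards [hP.op.mem_nhds h0] with y hy using hP.mem hy
  have hev : ∀ g : C3 → ℝ, g ∘ cN ι p =ᶠ[𝓝 x0] (g ∘ N) ∘ (R ∘ cN ι p) := fun g => by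
    filter_upwards [ht.eventually h2] with y hy
    change g (cN ι p y) = g (N (R (cN ι p y)))
    rw [hy]
  have hSd : DifferentiableAt ℝ (R ∘ cN ι p) x0 :=
    (hS.differentiableAt (by simp)).restrictScalars ℝ
  have hρx : DifferentiableAt ℝ (ρ ∘ N) ((R ∘ cN ι p) x0) := by
    rw [hS0]
    exact ((hρ N U hN).contDiffAt (hN.op.mem_nhds hx)).differentiableAt (by simp)
  have hfx : ContDiffAt ℝ 2 (f ∘ N) ((R ∘ cN ι p) x0) := by
    rw [hS0]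
    exact ((hf N U hN).sm.contDiffAt (hN.op.mem_nhds hx)).of_le ENat.LEInfty.out
  have e1 : D v (ρ ∘ cN ι p) x0 = D (fderiv ℝ (R ∘ cN ι p) x0 v) (ρ ∘ N) x := by
    unfold D
    rw [(hev ρ).fderiv_eq, fderiv_comp x0 hρx hSd, hS0]
    rfl
  have e2 : lev (f ∘ cN ι p) x0 v v =
      lev (f ∘ N) x (fderiv ℝ (R ∘ cN ι p) x0 v) (fderiv ℝ (R ∘ cN ι p) x0 v) := by
    rw [(hL.germ _ _ x0 (hev f)).self_of_nhds,
      hL.hol _ _ x0 hfx (hS.of_le ENat.LEInfty.out), hS0]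
  rw [e1, e2]
  exact hb _

theorem kah_nonneg (hL : LevF) (hA : Atl X ι) {f : C3 → ℝ} (hf : XK X f) (p : X) (a : E4) :
    0 ≤ kah ι f p a a := by
  have hM := hL.met _ _ (hf _ _ (hA.par p))
  unfold kah
  by_cases ha : ι a = 0
  · rw [ha]
    exact ((hM.lin _ (mem0 p) 0).map_zero).ge
  · exact (hM.pos _ (mem0 p) _ ha).le

theorem ev_eq (ρ : C3 → ℝ) {γ : ℝ → X} {S : Set ℝ} {s : ℝ} (hγ : ContinuousWithinAt γ S s) :
    (fun t => ρ (γ t)) =ᶠ[𝓝[S] s]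
      (ρ ∘ cN ι (γ s)) ∘ fun t => ι (chartAt E4 (γ s) (γ t)) := by
  filter_upwards [hγ (chart_source_mem_nhds E4 (γ s))] with t ht
  change ρ (γ t) = ρ (cN ι (γ s) (ι (chartAt E4 (γ s) (γ t))))
  rw [cN_chart _ _ ht]

theorem c1 (hA : Atl X ι) {ρ : C3 → ℝ} (hρ : XSm0 X ρ) {γ : ℝ → X}
    (hγ : ContMDiffOn 𝓘(ℝ, ℝ) 𝓘(ℝ, E4) 1 γ (Icc 0 1)) :
    ContDiffOn ℝ 1 (fun t => ρ (γ t)) (Icc 0 1) := by
  intro s hs
  obtain ⟨h1, h2⟩ := contMDiffWithinAt_iff_target.1 (hγ s hs)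
  have h3 : ContDiffWithinAt ℝ 1 (fun t => chartAt E4 (γ s) (γ t)) (Icc 0 1) s :=
    contMDiffWithinAt_iff_contDiffWithinAt.1 h2
  have h4 : ContDiffAt ℝ 1 (ρ ∘ cN ι (γ s)) (ι (chartAt E4 (γ s) (γ s))) :=
    ((hρ _ _ (hA.par (γ s))).contDiffAt ((hA.par (γ s)).op.mem_nhds (mem0 _))).of_le
      (by exact_mod_cast le_top)
  have h5 : ContDiffWithinAt ℝ 1 (fun t => ι (chartAt E4 (γ s) (γ t))) (Icc 0 1) s :=
    ι.contDiff.contDiffAt.comp_contDiffWithinAt s h3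
  exact (h4.comp_contDiffWithinAt s h5).congr_of_eventuallyEq_of_mem (ev_eq ρ h1) hs

theorem der (hA : Atl X ι) {ρ : C3 → ℝ} (hρ : XSm0 X ρ) {γ : ℝ → X}
    (hγ : ContMDiffOn 𝓘(ℝ, ℝ) 𝓘(ℝ, E4) 1 γ (Icc 0 1)) {s : ℝ} (hs : s ∈ Ioo (0 : ℝ) 1) :
    deriv (fun t => ρ (γ t)) s =
      D (ι (vel E4 γ s)) (ρ ∘ cN ι (γ s)) (ι (chartAt E4 (γ s) (γ s))) := by
  have h0 := ((hγ.contMDiffAt (Icc_mem_nhds hs.1 hs.2)).mdifferentiableAt
    (by simp)).hasMFDerivAt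
  obtain ⟨L, h1, hL⟩ : ∃ L : ℝ →L[ℝ] E4,
      HasFDerivAt (fun t => chartAt E4 (γ s) (γ t)) L s ∧ L 1 = vel E4 γ s := by
    have := h0.2
    rw [modelWithCornersSelf_coe, range_id, hasFDerivWithinAt_univ] at this
    exact ⟨mfderiv 𝓘(ℝ, ℝ) 𝓘(ℝ, E4) γ s, this, rfl⟩
  have h2 : HasDerivAt (fun t => chartAt E4 (γ s) (γ t)) (vel E4 γ s) s := hL ▸ h1.hasDerivAt
  have h3 : HasDerivAt (fun t => ι (chartAt E4 (γ s) (γ t))) (ι (vel E4 γ s)) s :=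
    (ι : E4 →L[ℝ] V).hasFDerivAt.comp_hasDerivAt s h2
  have h4 : DifferentiableAt ℝ (ρ ∘ cN ι (γ s)) (ι (chartAt E4 (γ s) (γ s))) :=
    ((hρ _ _ (hA.par (γ s))).contDiffAt ((hA.par (γ s)).op.mem_nhds (mem0 _))).differentiableAt
      (by simp)
  have h5 := h4.hasFDerivAt.comp_hasDerivAt s h3
  have h6 := ev_eq (ι := ι) ρ (S := univ) h0.1.continuousWithinAt
  rw [nhdsWithin_univ] at h6
  exact (h5.congr_of_eventuallyEq h6).deriv

end RCPL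

open RCPL in
theorem rCPL (hLEV : StmtLEV) (_hMAP : StmtMAP) : StmtCPL := by
  intro X _ ι hA f ρ C hf hρ hK hb x r
  refine ⟨Subtype.val ⁻¹' {p ∈ X | ρ p ≤ ρ x + √(max C 0) * r},
    hA.surf.1.isClosedEmbedding_subtypeVal.isCompact_preimage (hK _), fun y hy => ⟨y.2, ?_⟩⟩
  obtain ⟨γ, hγ⟩ := iInf_lt_iff.1 hy
  obtain ⟨⟨h1, h2, h3⟩, hl⟩ := iInf_lt_iff.1 hγ
  have e1 := enorm_sub_le_lintegral_deriv_of_contDiffOn_Icc (c1 hA hρ h1) zero_le_one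
  rw [← restrict_Ioo_eq_restrict_Icc, h2, h3] at e1
  have e2 : ∫⁻ s in Ioo (0 : ℝ) 1, ‖deriv (fun t => ρ (γ t)) s‖ₑ ≤
      ENNReal.ofReal √(max C 0) * len (kah ι f) γ := by
    unfold len
    rw [← lintegral_const_mul' _ _ ENNReal.ofReal_ne_top]
    refine setLIntegral_mono' measurableSet_Ioo fun s hs => ?_
    rw [← ENNReal.ofReal_mul (Real.sqrt_nonneg _), ← Real.sqrt_mul (le_max_right _ _),
      Real.enorm_eq_ofReal_abs, der hA hρ h1 hs]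
    refine ENNReal.ofReal_le_ofReal (Real.abs_le_sqrt ?_)
    exact (grad hLEV hA hf hρ (γ s) (hb _ (γ s).2) _).trans
      (mul_le_mul_of_nonneg_right (le_max_left _ _) (kah_nonneg hLEV hA hf _ _))
  have e3 : ENNReal.ofReal |ρ y - ρ x| ≤ ENNReal.ofReal (√(max C 0) * r) := by
    rw [← Real.enorm_eq_ofReal_abs, ENNReal.ofReal_mul (Real.sqrt_nonneg _),
      ENNReal.ofReal_coe_nnreal]
    exact e1.trans (e2.trans (mul_le_mul_right hl.le _))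
  have e4 := (ENNReal.ofReal_le_ofReal_iff
    (mul_nonneg (Real.sqrt_nonneg _) r.coe_nonneg)).1 e3
  have := le_abs_self (ρ y - ρ x)
  linarith

end

end Pool.Agent.MP_67f0e4_gt.H
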