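import Pool.Agent.MP_67f0e4_gt.H.Spec

/-! Row CV1: smooth space-time convergence in one chart. -/

open scoped ContDiff Topology
open Filter Set Metric

namespace Pool.Agent.MP_67f0e4_gt.H

open K

namespace RCV1

theorem shift {T : ℝ} {c : ℝ → ℝ} (hT : 0 < T) (hc : ∀ t ∈ Ioo 0 T, 0 < c t)
    (hs : Tendsto (fun t => c t / (T - t)) (𝓝[<] T) (𝓝 0)) (S : ℝ) {P : ℝ → Prop}
    (hP : ∀ᶠ t in 𝓝[<] T, P t) : ∀ᶠ t in 𝓝[<] T, ∀ s ∈ Ioo (-S) S, P (t + s * c t) := by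
  obtain ⟨a, ha, h1⟩ := mem_nhdsLT_iff_exists_Ioo_subset.1 hP
  have ha' : a < T := ha
  have h2 : (0 : ℝ) < |S| + 1 := by positivity
  filter_upwards [hs.eventually (gt_mem_nhds (one_div_pos.2 h2)), Ioo_mem_nhdsLT hT,
    Ioo_mem_nhdsLT (show (a + T) / 2 < T by linarith)] with t h3 h4 h5 s h6
  have h7 := hc t h4
  rw [div_lt_div_iff₀ (sub_pos.2 h4.2) h2] at h3
  have h8 : s ≤ |S| + 1 := by linarith [h6.2, le_abs_self S]
  have h9 : -(|S| + 1) ≤ s := by linarith [h6.1, le_abs_self S]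
  refine h1 ⟨?_, ?_⟩
  · nlinarith [h5.1]
  · nlinarith

theorem D_mul (r : ℝ) (g : V → ℝ) (v : V) : D v (fun y => r * g y) = fun y => r * D v g y := by
  funext y
  have h : (fun y => r * g y) = r • g := rfl
  simp only [D, h, fderiv_const_smul_field]
  rfl

theorem DL_mul (r : ℝ) (g : V → ℝ) (l : List (Fin 4)) :
    DL l (fun y => r * g y) = fun y => r * DL l g y := by
  induction l with
  | nil => rfl
  | cons i l ih => simp only [DL, ih, D_mul]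

theorem lv_mul (r : ℝ) (f : V → ℝ) (x : V) (α : Fin 4) :
    lv (fun y => r * f y) x α = r * lv f x α := by
  fin_cases α <;> simp [lv, lev, D_mul, mul_add]

theorem lv_sub (f : V → ℝ) (r : ℝ) (x : V) : lv (fun y => f y - r) x = lv f x := by
  have h : ∀ v, D v (fun y => f y - r) = D v f := fun v => by
    funext y
    simp only [D, fderiv_sub_const]
  simp only [lv, lev, h]

theorem lv_lev (α : Fin 4) : ∃ a b : V, ∀ (f : V → ℝ) (x : V), lv f x α = lev f x a b := by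
  fin_cases α
  exacts [⟨e 0, e 0, fun _ _ => rfl⟩, ⟨e 2, e 2, fun _ _ => rfl⟩, ⟨e 0, e 2, fun _ _ => rfl⟩,
    ⟨e 0, e 3, fun _ _ => rfl⟩]

theorem bf_sum (a b : V) : ∃ κ : Fin 4 → ℝ, ∀ g : Hm, bf g a b = ∑ α, κ α * g α :=
  ⟨![a.1.re * b.1.re + a.1.im * b.1.im, a.2.re * b.2.re + a.2.im * b.2.im,
    a.1.re * b.2.re + a.1.im * b.2.im + a.2.re * b.1.re + a.2.im * b.1.im,
    a.1.re * b.2.im - a.1.im * b.2.re + a.2.im * b.1.re - a.2.re * b.1.im], fun g => by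
    simp [bf, Fin.sum_univ_four]
    ring⟩

theorem pflow (hL : LevF) {T : ℝ} {φ : ℝ → V → ℝ} {w0 : V → ℝ} {B : Set V}
    (h : PFlow (Ico 0 T) B φ w0) {t r : ℝ} (hr : 0 < r) {J : Set ℝ}
    (hJ : ∀ s ∈ J, t + s * r ∈ Ioo 0 T) :
    PFlow J B (fun s y => r⁻¹ * φ (t + s * r) y) (fun y => w0 y - 2 * Real.log r) := by
  have hm : ∀ s ∈ J, t + s * r ∈ Ico 0 T := fun s hs => Ioo_subset_Ico_self (hJ s hs)
  refine ⟨?_, h.om.sub contDiffOn_const, fun x hx => ?_, fun s hs x hx v hv => ?_,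
    fun s hs x hx => ?_⟩
  · refine contDiffOn_const.mul (ContDiffOn.comp (g := fun q : ℝ × V => φ q.1 q.2)
      (f := fun q : ℝ × V => (t + q.1 * r, q.2)) h.sm ?_ fun q hq => ⟨hm _ hq.1, hq.2⟩)
    exact ((contDiff_const.add (contDiff_fst.mul contDiff_const)).prodMk contDiff_snd).contDiffOn
  · rw [lv_sub, h.ph x hx]
  · have h1 := mul_pos (inv_pos.2 hr) (h.pos _ (hm s hs) x hx v hv)
    refine h1.trans_eq ?_
    simp only [qf, bf, lv_mul]
    ring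
  · have h1 := (h.eq _ (hm s hs) x hx).hasDerivAt
      (mem_of_superset (isOpen_Ioo.mem_nhds (hJ s hs)) Ioo_subset_Ico_self)
    have h2 : HasDerivAt (fun s : ℝ => t + s * r) r s := by
      simpa using ((hasDerivAt_id s).mul_const r).const_add t
    have h3 := (HasDerivAt.comp (h₂ := fun s => φ s x) s h1 h2).const_mul r⁻¹
    have h4 : hdet (lv (fun y => r⁻¹ * φ (t + s * r) y) x) =
        r⁻¹ ^ 2 * hdet (lv (φ (t + s * r)) x) := by
      simp only [hdet, lv_mul]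
      ring
    have h5 := hL.det _ (h.pos _ (hm s hs) x hx)
    refine (h3.congr_deriv ?_).hasDerivWithinAt
    rw [h4, Real.log_mul (by positivity) h5.ne', Real.log_pow, Real.log_inv]
    field_simp
    push_cast
    ring

theorem det_low {g h : Hm} {M η : ℝ} (hη : η ≤ 1) (h1 : ∀ α, |g α - h α| ≤ η)
    (h2 : ∀ α, |h α| ≤ M) : hdet h - 3 * (η * (2 * M + 1)) ≤ hdet g := by
  have h0 : 0 ≤ η := (abs_nonneg _).trans (h1 0)
  have hM : 0 ≤ M := (abs_nonneg _).trans (h2 0)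
  have key : ∀ α β, |g α * g β - h α * h β| ≤ η * (2 * M + 1) := by
    intro α β
    have e1 : g α * g β - h α * h β =
        (g α - h α) * (g β - h β) + (g α - h α) * h β + h α * (g β - h β) := by ring
    rw [e1]
    refine (abs_add_three _ _ _).trans ?_
    simp only [abs_mul]
    have a1 := mul_le_mul (h1 α) ((h1 β).trans hη) (abs_nonneg _) h0
    have a2 := mul_le_mul (h1 α) (h2 β) (abs_nonneg _) h0
    have a3 := mul_le_mul (h2 α) (h1 β) (abs_nonneg _) hM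
    linarith
  have b1 := (abs_le.1 (key 0 1)).1
  have b2 := (abs_le.1 (key 2 2)).2
  have b3 := (abs_le.1 (key 3 3)).2
  simp only [hdet]
  nlinarith

theorem comb {F : Type} [NormedAddCommGroup F] [NormedSpace ℝ F] (κ : Fin 4 → ℝ)
    (f : Fin 4 → F → ℝ) (z : F) (k : ℕ) (ε : ℝ) (hf : ∀ α, ContDiffAt ℝ k (f α) z)
    (h : ∀ α, ‖iteratedFDeriv ℝ k (f α) z‖ ≤ ε) :
    ‖iteratedFDeriv ℝ k (fun z => ∑ α, κ α * f α z) z‖ ≤ (∑ α, |κ α|) * ε := by
  rw [iteratedFDeriv_fun_sum_apply fun α _ => contDiffAt_const.mul (hf α), Finset.sum_mul]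
  refine (norm_sum_le _ _).trans (Finset.sum_le_sum fun α _ => ?_)
  have := iteratedFDeriv_const_smul_apply' (a := κ α) (hf α)
  simp only [smul_eq_mul] at this
  rw [this, norm_smul, Real.norm_eq_abs]
  exact mul_le_mul_of_nonneg_left (h α) (abs_nonneg _)

theorem snd_le {g : V → ℝ} {B : Set V} (hB : IsOpen B) (hg : ContDiffOn ℝ ∞ g B) (k : ℕ)
    {z : ℝ × V} (hz : z.2 ∈ B) :
    ‖iteratedFDeriv ℝ k (fun z : ℝ × V => g z.2) z‖ ≤ ‖iteratedFDeriv ℝ k g z.2‖ := by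
  have hB' : IsOpen (ContinuousLinearMap.snd ℝ ℝ V ⁻¹' B) := hB.preimage continuous_snd
  have h1 := (ContinuousLinearMap.snd ℝ ℝ V).iteratedFDerivWithin_comp_right hg hB.uniqueDiffOn
    hB'.uniqueDiffOn (x := z) hz (i := k) (mod_cast le_top)
  rw [iteratedFDerivWithin_of_isOpen k hB' hz, ContinuousLinearMap.coe_snd',
    iteratedFDerivWithin_of_isOpen k hB hz] at h1
  refine (congrArg norm h1).trans_le
    ((ContinuousMultilinearMap.norm_compContinuousLinearMap_le _ _).trans ?_)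
  refine mul_le_of_le_one_right (norm_nonneg _) (Finset.prod_le_one (fun _ _ => norm_nonneg _)
    fun _ _ => ContinuousLinearMap.norm_snd_le ..)

end RCV1

open RCV1 in
theorem rCV1 (hLEV : StmtLEV) (hINT : StmtINT) (hWD : StmtWD) (hST : StmtST) (hDT : StmtDT) :
    StmtCV1 := by
  intro T φ c ψ w0 B hT hF hK hL hc hs hslow K hKc hKB a b k ε hε
  have hV : LevF := hLEV
  obtain ⟨S, hS⟩ : ∃ S : ℝ, ∀ z ∈ K, z.1 ∈ Ioo (-S) S := by
    obtain ⟨R, hR⟩ := hKc.isBounded.exists_norm_le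
    refine ⟨R + 1, fun z hz => ?_⟩
    have h1 := abs_le.1 ((norm_fst_le z).trans (hR z hz))
    exact ⟨by linarith [h1.1], by linarith [h1.2]⟩
  let Φ : ℝ → ℝ → V → ℝ := fun t s y => (c t)⁻¹ * φ (t + s * c t) y
  have hI : ∀ᶠ t in 𝓝[<] T, t ∈ Ioo 0 T := Ioo_mem_nhdsLT hT
  have hI' := shift hT hc hs S hI
  have hP : ∀ᶠ t in 𝓝[<] T, PFlow (Ioo (-S) S) B (Φ t) (fun y => w0 y - 2 * Real.log (c t)) := by
    filter_upwards [hI, hI'] with t h1 h2
    exact pflow hV hF (hc t h1) h2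
  obtain ⟨M0, hM0⟩ := hL.bnd 0
  have hb : ∀ y ∈ B, ∀ α, |lv ψ y α| ≤ |M0| := fun y hy α =>
    (hM0 [] le_rfl α y hy).trans (le_abs_self _)
  have h0 : ∀ η : ℝ, 0 < η → ∀ᶠ t in 𝓝[<] T, ∀ s ∈ Ioo (-S) S, ∀ y ∈ B, ∀ α,
      |lv (Φ t s) y α - lv ψ y α| ≤ η := by
    intro η hη
    have h1 : 0 < 2 + |M0| := by positivity
    obtain ⟨θ, h2, h3, h4⟩ : ∃ θ : ℝ, 0 < θ ∧ θ ≤ 1 ∧ θ * (2 + |M0|) ≤ η :=
      ⟨min 1 (η / (2 + |M0|)), lt_min one_pos (div_pos hη h1), min_le_left _ _,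
        (le_div_iff₀ h1).1 (min_le_right _ _)⟩
    filter_upwards [hI, hI', shift hT hc hs S (hL.lim θ h2), hslow S θ h2]
      with t h5 h6 h7 h8 s h9 y hy α
    have c1 := hc t h5
    have c2 := hc _ (h6 s h9)
    have a1 := h7 s h9 y hy α
    have a2 : |c (t + s * c t) / c t - 1| ≤ θ := by
      rw [div_sub_one c1.ne', abs_div, abs_of_pos c1, div_le_iff₀ c1]
      exact h8 s (Ioo_subset_Icc_self h9)
    have e1 : lv (Φ t s) y α - lv ψ y α =
        ((c (t + s * c t))⁻¹ * lv (φ (t + s * c t)) y α - lv ψ y α) +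
        (c (t + s * c t) / c t - 1) *
          ((c (t + s * c t))⁻¹ * lv (φ (t + s * c t)) y α - lv ψ y α) +
        (c (t + s * c t) / c t - 1) * lv ψ y α := by
      simp only [Φ, lv_mul]
      generalize c (t + s * c t) = u at c2
      generalize lv (φ (t + s * c t)) y α = v
      field_simp
      ring
    rw [e1]
    refine (abs_add_three _ _ _).trans ?_
    rw [abs_mul, abs_mul]
    have a3 := mul_le_mul (a2.trans h3) a1 (abs_nonneg _) zero_le_one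
    have a4 := mul_le_mul a2 (hb y hy α) (abs_nonneg _) h2.le
    linarith
  obtain ⟨δ, hδ, hlow⟩ := hL.low
  have hdt : ∀ᶠ t in 𝓝[<] T, ∀ s ∈ Ioo (-S) S, ∀ y ∈ B, δ / 2 ≤ hdet (lv (Φ t s) y) := by
    have h1 : 0 < 2 * |M0| + 1 := by positivity
    obtain ⟨θ, h2, h3, h4⟩ : ∃ θ : ℝ, 0 < θ ∧ θ ≤ 1 ∧ θ * (2 * |M0| + 1) ≤ δ / 6 :=
      ⟨min 1 (δ / 6 / (2 * |M0| + 1)), lt_min one_pos (by positivity), min_le_left _ _,
        (le_div_iff₀ h1).1 (min_le_right _ _)⟩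
    filter_upwards [h0 θ h2] with t h5 s h6 y hy
    linarith [det_low h3 (h5 s h6 y hy) (hb y hy), hlow y hy]
  have hLB : ∀ k, ∃ M, ∀ᶠ t in 𝓝[<] T, ∀ s ∈ Ioo (-S) S, LB k M (Φ t s) B := by
    intro k
    obtain ⟨M, hM⟩ := hL.der k
    refine ⟨2 * |M|, ?_⟩
    filter_upwards [hI, hI', shift hT hc hs S hM, hslow S 1 one_pos]
      with t h5 h6 h7 h8 s h9 l hl α y hy
    have c1 := hc t h5
    have c2 := hc _ (h6 s h9)
    have a1 := h7 s h9 l hl α y hy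
    have a2 := (abs_le.1 (h8 s (Ioo_subset_Icc_self h9))).2
    simp only [Φ, lv_mul, DL_mul]
    rw [abs_mul, abs_of_pos (inv_pos.2 c1), inv_mul_le_iff₀ c1]
    nlinarith [le_abs_self M, abs_nonneg M]
  have hW : IsOpen (Ioo (-S) S ×ˢ B) := isOpen_Ioo.prod hK.opn
  have hsm : ∀ α, ∀ᶠ t in 𝓝[<] T,
      ContDiffOn ℝ ∞ (fun z : ℝ × V => lv (Φ t z.1) z.2 α) (Ioo (-S) S ×ˢ B) := by
    intro α
    obtain ⟨a, b, hab⟩ := lv_lev α
    filter_upwards [hP] with t ht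
    simp only [hab]
    exact (hDT _ B _ _ isOpen_Ioo.uniqueDiffOn
      (by rw [isOpen_Ioo.interior_eq]; exact subset_closure) hK.opn ht a b).1
  have hψ : ∀ α, ContDiffOn ℝ ∞ (fun z : ℝ × V => lv ψ z.2 α) (Ioo (-S) S ×ˢ B) := fun α =>
    ContDiffOn.comp (g := fun y => lv ψ y α) (f := Prod.snd) (hV.smo ψ B hK.opn hK.sm α)
      contDiffOn_snd fun z hz => hz.2
  obtain ⟨κ, hκ⟩ := bf_sum a b
  have hA : 0 < (∑ α, |κ α|) + 1 := by positivity
  have hKW : K ⊆ Ioo (-S) S ×ˢ B := fun z hz => ⟨hS z hz, (hKB hz).2⟩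
  have hu : ∀ α, ∀ᶠ t in 𝓝[<] T, ∀ z ∈ K, ‖iteratedFDeriv ℝ k
      (fun z : ℝ × V => lv (Φ t z.1) z.2 α - lv ψ z.2 α) z‖ ≤ ε / ((∑ α, |κ α|) + 1) := by
    intro α
    refine hINT (ℝ × V) ℝ (𝓝[<] T) (fun t z => lv (Φ t z.1) z.2 α - lv ψ z.2 α) _ hW
      ((hsm α).mono fun t ht => ht.sub (hψ α))
      (fun η hη => (h0 η hη).mono fun t ht z hz => ht z.1 hz.1 z.2 hz.2 α) (fun j => ?_)
      K hKc hKW k _ (div_pos hε hA)
    obtain ⟨M1, h1⟩ :=
      hST ℝ (𝓝[<] T) Φ _ _ B (δ / 2) isOpen_Ioo hK.opn (half_pos hδ) hP hdt hLB α j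
    obtain ⟨M2, h2⟩ := hL.bnd j
    refine ⟨M1 + 4 ^ j * M2, ?_⟩
    filter_upwards [h1, hsm α] with t h3 h4 z hz
    rw [fun_iteratedFDeriv_sub_apply
      ((h4.contDiffAt (hW.mem_nhds hz)).of_le (mod_cast le_top))
      (((hψ α).contDiffAt (hW.mem_nhds hz)).of_le (mod_cast le_top))]
    refine (norm_sub_le _ _).trans (add_le_add (h3 z hz) ?_)
    have h5 := hV.smo ψ B hK.opn hK.sm α
    exact (snd_le hK.opn h5 j hz.2).trans
      ((hWD _ B hK.opn h5 z.2 hz.2).1 j M2 fun l hl => h2 l hl.le α z.2 hz.2)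
  filter_upwards [eventually_all.2 hu, eventually_all.2 hsm, hP] with t h1 h2 h3 z hz
  have hzW := hW.mem_nhds (hKW hz)
  have h4 : (fun z : ℝ × V => (c t)⁻¹ * lev (φ (t + z.1 * c t)) z.2 a b - lev ψ z.2 a b) =ᶠ[𝓝 z]
      fun z => ∑ α, κ α * (lv (Φ t z.1) z.2 α - lv ψ z.2 α) := by
    filter_upwards [hzW] with q hq
    have h5 : ContDiffAt ℝ ∞ (Φ t q.1) q.2 :=
      ContDiffAt.comp (g := fun q : ℝ × V => Φ t q.1 q.2) (f := fun y : V => (q.1, y)) q.2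
        (h3.sm.contDiffAt (hW.mem_nhds hq)) (contDiffAt_const.prodMk contDiffAt_id)
    have h6 : ((2 : ℕ∞) : WithTop ℕ∞) ≤ ∞ := WithTop.coe_le_coe.2 le_top
    rw [← hV.mul, hV.eq (Φ t q.1) q.2 (h5.of_le h6),
      hV.eq ψ q.2 ((hK.sm.contDiffAt (hK.opn.mem_nhds hq.2)).of_le h6), hκ, hκ,
      ← Finset.sum_sub_distrib]
    simp only [mul_sub]
  rw [(h4.iteratedFDeriv ℝ k).eq_of_nhds]
  refine (comb κ _ z k _ (fun α => (((h2 α).sub (hψ α)).contDiffAt hzW).of_le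
    (mod_cast le_top)) fun α => h1 α z hz).trans ?_
  rw [mul_div_assoc', div_le_iff₀ hA]
  nlinarith

end Pool.Agent.MP_67f0e4_gt.H
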