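import Pool.Agent.MP_67f0e4_gt.H.Spec

/-! Block H: the blow-up limit. -/

open scoped ContDiff Topology Manifold
open Filter Set Metric

namespace Pool.Agent.MP_67f0e4_gt.H

open K

noncomputable section

namespace RCV2

theorem pull_id {M : Type} [TopologicalSpace M] [ChartedSpace E4 M] (g : M → E4 → E4 → ℝ) :
    pull g (id : M → M) = g := by
  funext x a b
  unfold pull dif
  rw [mfderiv_id]
  rfl

theorem pflow_mono {S : Set ℝ} {U B : Set V} {φ : ℝ → V → ℝ} {w : V → ℝ} (h : PFlow S U φ w)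
    (hB : B ⊆ U) : PFlow S B φ w :=
  ⟨h.sm.mono (prod_mono_right hB), h.om.mono hB, fun x hx => h.ph x (hB hx),
    fun t ht x hx => h.pos t ht x (hB hx), fun t ht x hx => h.eq t ht x (hB hx)⟩

theorem c_zero {T : ℝ} {c : ℝ → ℝ} (h : Tendsto (fun t => c t / (T - t)) (𝓝[<] T) (𝓝 0)) :
    Tendsto c (𝓝[<] T) (𝓝 0) := by
  have h1 : Tendsto (fun t => T - t) (𝓝[<] T) (𝓝 (T - T)) :=
    (tendsto_const_nhds.sub tendsto_id).mono_left nhdsWithin_le_nhds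
  have h2 := h.mul h1
  rw [zero_mul] at h2
  refine h2.congr' ?_
  filter_upwards [self_mem_nhdsWithin] with t ht
  exact div_mul_cancel₀ _ (sub_pos.2 ht).ne'

theorem window {T : ℝ} {c : ℝ → ℝ} (hT : 0 < T) (hp : ∀ t ∈ Ioo 0 T, 0 < c t)
    (h : Tendsto (fun t => c t / (T - t)) (𝓝[<] T) (𝓝 0)) (S : ℝ) :
    ∀ᶠ t in 𝓝[<] T, ∀ s ∈ Icc (-S) S, t + s * c t ∈ Ico 0 T := by
  have h1 : Tendsto (fun t => t - S * c t) (𝓝[<] T) (𝓝 (T - S * 0)) :=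
    (tendsto_id.mono_left nhdsWithin_le_nhds).sub ((c_zero h).const_mul S)
  rw [mul_zero, sub_zero] at h1
  have h2 := h.const_mul S
  rw [mul_zero] at h2
  filter_upwards [h1.eventually (lt_mem_nhds hT), h2.eventually (gt_mem_nhds one_pos),
    Ioo_mem_nhdsLT hT] with t h3 h4 ht s hs
  have hc := hp t ht
  rw [← mul_div_assoc, div_lt_one (sub_pos.2 ht.2)] at h4
  constructor
  · nlinarith [hs.1]
  · nlinarith [hs.2]

theorem chart (hC0 : StmtC0) (hCV1 : StmtCV1) {X : Set C3} {T : ℝ} {φ : ℝ → C3 → ℝ} {c : ℝ → ℝ}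
    {ψ : C3 → ℝ} (hT : 0 < T) (hF : XFlow X ψ (Ico 0 T) φ) (hψ : XK X ψ)
    (hL : LimData X T φ c ψ) {N : V → C3} {U : Set V} (hN : Par X N U) {K : Set (ℝ × V)}
    (hK : IsCompact K) (hKU : K ⊆ univ ×ˢ U) (a b : V) (k : ℕ) {ε : ℝ} (hε : 0 < ε) :
    ∀ᶠ t in 𝓝[<] T, ∀ z ∈ K, ‖iteratedFDeriv ℝ k (fun z : ℝ × V =>
      (c t)⁻¹ * lev (φ (t + z.1 * c t) ∘ N) z.2 a b - lev (ψ ∘ N) z.2 a b) z‖ ≤ ε := by
  refine hK.induction_on (p := fun s => ∀ᶠ t in 𝓝[<] T, ∀ z ∈ s, ‖iteratedFDeriv ℝ k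
    (fun z : ℝ × V => (c t)⁻¹ * lev (φ (t + z.1 * c t) ∘ N) z.2 a b - lev (ψ ∘ N) z.2 a b) z‖ ≤ ε)
    (Eventually.of_forall fun t z hz => hz.elim)
    (fun s s' hs h => h.mono fun t ht z hz => ht z (hs hz))
    (fun s s' h h' => (h.and h').mono fun t ht z hz => hz.elim (ht.1 z) (ht.2 z)) ?_
  intro z hz
  obtain ⟨r, hr, hb, h0⟩ := hC0 X T φ c ψ hT hψ hL N U hN z.2 (hKU hz).2
  have hk := hψ N U hN
  refine ⟨K ∩ univ ×ˢ closedBall z.2 (r / 2), inter_mem_nhdsWithin _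
    (prod_mem_nhds univ_mem (closedBall_mem_nhds _ (half_pos hr))), ?_⟩
  exact hCV1 T (fun t => φ t ∘ N) c (ψ ∘ N) _ (ball z.2 r) hT (pflow_mono (hF N U hN) hb)
    ⟨isOpen_ball, hk.sm.mono hb, fun x hx => hk.pos x (hb hx)⟩ h0 hL.pos hL.small hL.slow _
    (hK.inter_right (isClosed_univ.prod isClosed_closedBall))
    (fun w hw => ⟨trivial, closedBall_subset_ball (half_lt_self hr) hw.2.2⟩) a b k ε hε

theorem norm_comp {A B : Type} [NormedAddCommGroup A] [NormedSpace ℝ A] [NormedAddCommGroup B]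
    [NormedSpace ℝ B] (L : A ≃L[ℝ] B) (f : B → ℝ) (k : ℕ) (z : A) :
    ‖iteratedFDeriv ℝ k (f ∘ L) z‖ ≤ ‖iteratedFDeriv ℝ k f (L z)‖ * ‖(L : A →L[ℝ] B)‖ ^ k := by
  have h := L.iteratedFDerivWithin_comp_right f uniqueDiffOn_univ (mem_univ (L z)) k
  rw [preimage_univ, iteratedFDerivWithin_univ, iteratedFDerivWithin_univ] at h
  rw [h]
  refine (ContinuousMultilinearMap.norm_compContinuousLinearMap_le _ _).trans ?_
  rw [Finset.prod_const, Finset.card_univ, Fintype.card_fin]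

end RCV2

theorem rCV2 (hPULL : StmtPULL) (hC0 : StmtC0) (hCV1 : StmtCV1) : StmtCV2 := by
  intro X _ ι hAt ⟨p⟩ T φ c ψ hT hF hφ hψ hL
  obtain ⟨u, hu⟩ := exists_seq_tendsto (𝓝[<] T)
  have hc : Tendsto c (𝓝[<] T) (𝓝[>] 0) :=
    tendsto_nhdsWithin_iff.2 ⟨RCV2.c_zero hL.small, (show ∀ᶠ t in 𝓝[<] T, t ∈ Ioo 0 T from
      Ioo_mem_nhdsLT hT).mono fun t ht => hL.pos t ht⟩
  have hw := RCV2.window hT hL.pos hL.small
  refine ⟨fun _ => p, u, fun i => (c (u i))⁻¹, p,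
    fun _ => (Diffeomorph.refl 𝓘(ℝ, E4) X ∞).toPartialDiffeomorph,
    hu.mono_right nhdsWithin_le_nhds, (tendsto_inv_nhdsGT_zero.comp hc).comp hu, fun S => ?_,
    fun _ => ⟨trivial, rfl⟩, fun K _ => Eventually.of_forall fun _ => subset_univ K, ?_⟩
  · filter_upwards [hu.eventually (hw S)] with i hi s hs
    rw [div_inv_eq_mul]
    exact hi s hs
  intro q K hK hKU a b k ε hε
  let L : (ℝ × E4) ≃L[ℝ] ℝ × V := (ContinuousLinearEquiv.refl ℝ ℝ).prodCongr ι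
  have hn : 0 < ‖(L : ℝ × E4 →L[ℝ] ℝ × V)‖ ^ k + 1 := by positivity
  have h1 := RCV2.chart hC0 hCV1 hT hF hψ hL (hAt.par q) (hK.image L.continuous)
    (by
      rintro _ ⟨z, hz, rfl⟩
      refine ⟨trivial, ?_⟩
      show ι.symm (ι z.2) ∈ (chartAt E4 q).target
      rw [ι.symm_apply_apply]
      exact (hKU hz).2) (ι a) (ι b) k (div_pos hε hn)
  obtain ⟨S, hS⟩ := (hK.image continuous_fst).isBounded.subset_ball 0
  filter_upwards [hu.eventually h1, hu.eventually (hw S)] with i hi hi' z hz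
  have hz1 : z.1 ∈ ball (0 : ℝ) S := hS ⟨z, hz, rfl⟩
  have e : (fun w : ℝ × E4 => loc (pull (fun y a b => (c (u i))⁻¹ *
        (kah ι (φ (u i + w.1 / (c (u i))⁻¹)) : X → E4 → E4 → ℝ) y a b) (id : X → X)) q w.2 a b -
        loc (kah ι ψ : X → E4 → E4 → ℝ) q w.2 a b) =ᶠ[𝓝 z]
      (fun z : ℝ × V => (c (u i))⁻¹ * lev (φ (u i + z.1 * c (u i)) ∘ cN ι q) z.2 (ι a) (ι b) -
        lev (ψ ∘ cN ι q) z.2 (ι a) (ι b)) ∘ L := by
    filter_upwards [prod_mem_nhds (isOpen_ball.mem_nhds hz1)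
      ((chartAt E4 q).open_target.mem_nhds (hKU hz).2)] with w hw
    have hw1 : w.1 ∈ Icc (-S) S := abs_le.1 (mem_ball_zero_iff.1 hw.1).le
    rw [RCV2.pull_id, div_inv_eq_mul, (hPULL X ι hAt ψ hψ.sm).2 q w.2 hw.2 a b]
    exact congrArg (fun r => (c (u i))⁻¹ * r - lev (ψ ∘ cN ι q) (ι w.2) (ι a) (ι b))
      ((hPULL X ι hAt _ (hφ _ (hi' w.1 hw1)).sm).2 q w.2 hw.2 a b)
  refine (congrArg norm (e.iteratedFDeriv ℝ k).eq_of_nhds).trans_le
    ((RCV2.norm_comp L _ k z).trans ?_)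
  refine (mul_le_mul_of_nonneg_right (hi _ ⟨z, hz, rfl⟩) (by positivity)).trans ?_
  rw [div_mul_eq_mul_div, div_le_iff₀ hn]
  exact mul_le_mul_of_nonneg_left (by linarith) hε.le

end

end Pool.Agent.MP_67f0e4_gt.H
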