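import Pool.Agent.MP_67f0e4_gt.H.Spec

/-! Block H: the time derivative of the Levi form along the potential flow. -/

open Set Metric Filter
open scoped ContDiff Topology

noncomputable section

namespace Pool.Agent.MP_67f0e4_gt.H

open K

namespace RDT

variable {S : Set ℝ} {U : Set V} {f g : ℝ → V → ℝ}

lemma slice (hf : Sm S U f) {t : ℝ} (ht : t ∈ S) : ContDiffOn ℝ ∞ (f t) U :=
  ContDiffOn.comp (f := fun x : V => ((t, x) : ℝ × V)) hf
    (contDiff_const.prodMk contDiff_id).contDiffOn fun _ hx => ⟨ht, hx⟩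

lemma hfd (hf : Sm S U f) {t : ℝ} (ht : t ∈ S) {x : V} (hx : x ∈ U) :
    HasFDerivWithinAt (fun q : ℝ × V => f q.1 q.2)
      (fderivWithin ℝ (fun q : ℝ × V => f q.1 q.2) (S ×ˢ U) (t, x)) (S ×ˢ U) (t, x) :=
  (ContDiffOn.differentiableOn hf (by simp) (t, x) ⟨ht, hx⟩).hasFDerivWithinAt

lemma has (hf : Sm S U f) {t : ℝ} (ht : t ∈ S) {x : V} (hx : x ∈ U) :
    HasDerivWithinAt (fun s => f s x)
      (fderivWithin ℝ (fun q : ℝ × V => f q.1 q.2) (S ×ˢ U) (t, x) (1, 0)) S t := by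
  have h1 : HasDerivWithinAt (fun s : ℝ => ((s, x) : ℝ × V)) (1, 0) S t :=
    ((hasDerivAt_id t).prodMk (hasDerivAt_const t x)).hasDerivWithinAt
  have h2 : MapsTo (fun s : ℝ => ((s, x) : ℝ × V)) S (S ×ˢ U) := fun s hs => ⟨hs, hx⟩
  exact HasFDerivWithinAt.comp_hasDerivWithinAt (f := fun s : ℝ => ((s, x) : ℝ × V)) t
    (hfd hf ht hx) h1 h2

lemma deq (hU : IsOpen U) (hf : Sm S U f) {t : ℝ} (ht : t ∈ S) {x : V} (hx : x ∈ U) (v : V) :
    D v (f t) x = fderivWithin ℝ (fun q : ℝ × V => f q.1 q.2) (S ×ˢ U) (t, x) (0, v) := by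
  have h1 : HasFDerivWithinAt (fun y : V => ((t, y) : ℝ × V)) (ContinuousLinearMap.inr ℝ ℝ V) U x :=
    (hasFDerivAt_prodMk_right t x).hasFDerivWithinAt
  have h2 := ((hfd hf ht hx).comp x h1 fun y hy => ⟨ht, hy⟩).hasFDerivAt (hU.mem_nhds hx)
  have h3 : fderiv ℝ (f t) x = _ := h2.fderiv
  simp only [D, h3, ContinuousLinearMap.comp_apply, ContinuousLinearMap.inr_apply]

lemma smw (hS : UniqueDiffOn ℝ S) (hU : IsOpen U) (hf : Sm S U f) (w : ℝ × V) :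
    ContDiffOn ℝ ∞ (fun q => fderivWithin ℝ (fun q : ℝ × V => f q.1 q.2) (S ×ˢ U) q w) (S ×ˢ U) :=
  (ContDiffOn.fderivWithin hf (hS.prod hU.uniqueDiffOn) (m := ∞) (by simp)).clm_apply
    contDiffOn_const

lemma smD (hS : UniqueDiffOn ℝ S) (hU : IsOpen U) (hf : Sm S U f) (v : V) :
    Sm S U (fun t => D v (f t)) :=
  (smw hS hU hf (0, v)).congr fun _ hq => deq hU hf hq.1 hq.2 v

lemma teq (hS : UniqueDiffOn ℝ S) (hf : Sm S U f)
    (hg : ∀ t ∈ S, ∀ x ∈ U, HasDerivWithinAt (fun s => f s x) (g t x) S t)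
    {t : ℝ} (ht : t ∈ S) {x : V} (hx : x ∈ U) :
    g t x = fderivWithin ℝ (fun q : ℝ × V => f q.1 q.2) (S ×ˢ U) (t, x) (1, 0) :=
  ((hg t ht x hx).derivWithin (hS t ht)).symm.trans ((has hf ht hx).derivWithin (hS t ht))

lemma smT (hS : UniqueDiffOn ℝ S) (hU : IsOpen U) (hf : Sm S U f)
    (hg : ∀ t ∈ S, ∀ x ∈ U, HasDerivWithinAt (fun s => f s x) (g t x) S t) : Sm S U g :=
  (smw hS hU hf (1, 0)).congr fun _ hq => teq hS hf hg hq.1 hq.2

lemma sym (hS : UniqueDiffOn ℝ S) (hc : S ⊆ closure (interior S)) (hU : IsOpen U)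
    {F : ℝ × V → ℝ} (hF : ContDiffOn ℝ ∞ F (S ×ˢ U))
    {q : ℝ × V} (hq : q ∈ S ×ˢ U) (v w : ℝ × V) :
    fderivWithin ℝ (fun p => fderivWithin ℝ F (S ×ˢ U) p w) (S ×ˢ U) q v =
      fderivWithin ℝ (fun p => fderivWithin ℝ F (S ×ˢ U) p v) (S ×ˢ U) q w := by
  have hu := hS.prod hU.uniqueDiffOn
  have hd : DifferentiableWithinAt ℝ (fderivWithin ℝ F (S ×ˢ U)) (S ×ˢ U) q :=
    (hF.fderivWithin hu (m := ∞) (by simp)).differentiableOn (by simp) q hq
  have h1 : ∀ a b : ℝ × V, fderivWithin ℝ (fun p => fderivWithin ℝ F (S ×ˢ U) p b) (S ×ˢ U) q a =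
      fderivWithin ℝ (fderivWithin ℝ F (S ×ˢ U)) (S ×ˢ U) q a b := by
    intro a b
    rw [fderivWithin_clm_apply (hu q hq) hd (differentiableWithinAt_const b)]
    simp
  have hc : q ∈ closure (interior (S ×ˢ U)) := by
    rw [interior_prod_eq, closure_prod_eq, hU.interior_eq]
    exact ⟨hc hq.1, subset_closure hq.2⟩
  rw [h1, h1]
  have h2 : minSmoothness ℝ 2 ≤ ∞ := by
    rw [minSmoothness_of_isRCLikeNormedField]
    exact WithTop.coe_le_coe.2 (le_top : (2 : ℕ∞) ≤ ⊤)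
  exact ((hF q hq).isSymmSndFDerivWithinAt h2 hu hc hq).eq v w

lemma fc {F : ℝ × V → ℝ} (h : ∀ q ∈ S ×ˢ U, f q.1 q.2 = F q) {q : ℝ × V}
    (hq : q ∈ S ×ˢ U) :
    fderivWithin ℝ (fun q : ℝ × V => f q.1 q.2) (S ×ˢ U) q = fderivWithin ℝ F (S ×ˢ U) q :=
  fderivWithin_congr h (h q hq)

lemma comm (hS : UniqueDiffOn ℝ S) (hc : S ⊆ closure (interior S)) (hU : IsOpen U)
    (hf : Sm S U f) (hg : ∀ t ∈ S, ∀ x ∈ U, HasDerivWithinAt (fun s => f s x) (g t x) S t)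
    (v : V) : ∀ t ∈ S, ∀ x ∈ U, HasDerivWithinAt (fun s => D v (f s) x) (D v (g t) x) S t := by
  intro t ht x hx
  have h1 := has (smD hS hU hf v) ht hx
  have h2 : fderivWithin ℝ (fun q : ℝ × V => (fun t => D v (f t)) q.1 q.2) (S ×ˢ U) (t, x) (1, 0) =
      D v (g t) x := by
    rw [fc (f := fun t => D v (f t)) (fun q hq => deq hU hf hq.1 hq.2 v) ⟨ht, hx⟩,
      sym hS hc hU hf ⟨ht, hx⟩, ← fc (f := g) (fun q hq => teq hS hf hg hq.1 hq.2) ⟨ht, hx⟩]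
    exact (deq hU (smT hS hU hf hg) ht hx v).symm
  rw [h2] at h1
  exact h1

lemma smD0 (hU : IsOpen U) {p : V → ℝ} (hp : ContDiffOn ℝ ∞ p U) (v : V) :
    ContDiffOn ℝ ∞ (D v p) U :=
  (hp.fderiv_of_isOpen hU (m := ∞) (by simp)).clm_apply contDiffOn_const

lemma dadd (hU : IsOpen U) {p q : V → ℝ} (hp : ContDiffOn ℝ ∞ p U) (hq : ContDiffOn ℝ ∞ q U)
    (v : V) {x : V} (hx : x ∈ U) : D v (fun y => p y + q y) x = D v p x + D v q x := by
  have h1 := (hp.differentiableOn (by simp) x hx).differentiableAt (hU.mem_nhds hx)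
  have h2 := (hq.differentiableOn (by simp) x hx).differentiableAt (hU.mem_nhds hx)
  simp only [D]
  rw [fderiv_fun_add h1 h2]
  rfl

lemma ddadd (hU : IsOpen U) {p q : V → ℝ} (hp : ContDiffOn ℝ ∞ p U) (hq : ContDiffOn ℝ ∞ q U)
    (v w : V) {x : V} (hx : x ∈ U) :
    D v (D w fun y => p y + q y) x = D v (D w p) x + D v (D w q) x := by
  have h1 : D w (fun y => p y + q y) =ᶠ[𝓝 x] fun y => D w p y + D w q y := by
    filter_upwards [hU.mem_nhds hx] with y hy using dadd hU hp hq w hy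
  rw [← dadd hU (smD0 hU hp w) (smD0 hU hq w) v hx]
  show fderiv ℝ _ x v = fderiv ℝ _ x v
  rw [h1.fderiv_eq]

end RDT

theorem rDT (hLEV : StmtLEV) : StmtDT := by
  intro S U φ w0 hS hc hU hP a b
  have hsm := fun v w : V => RDT.smD hS hU (RDT.smD hS hU hP.sm w) v
  refine ⟨ContDiffOn.add (hsm a b) (hsm (Complex.I • a) (Complex.I • b)), fun t ht x hx => ?_⟩
  have hg := RDT.smT (g := fun t x => Real.log (hdet (lv (φ t) x)) - w0 x) hS hU hP.sm hP.eq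
  have hd := fun v w : V => RDT.comm (g := fun t => D w fun x => Real.log (hdet (lv (φ t) x)) - w0 x)
    hS hc hU (RDT.smD hS hU hP.sm w)
    (RDT.comm (g := fun t x => Real.log (hdet (lv (φ t) x)) - w0 x) hS hc hU hP.sm hP.eq w)
    v t ht x hx
  have h1 := (hd a b).add (hd (Complex.I • a) (Complex.I • b))
  have h2 : (fun y => Real.log (hdet (lv (φ t) y))) =
      fun y => (Real.log (hdet (lv (φ t) y)) - w0 y) + w0 y := by
    funext y; ring
  have h3 : lev w0 x a b = 0 := by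
    rw [hLEV.eq w0 x (((hP.om x hx).contDiffAt (hU.mem_nhds hx)).of_le
      (WithTop.coe_le_coe.2 (le_top : (2 : ℕ∞) ≤ ⊤))) a b, hP.ph x hx]
    simp [bf]
  have h4 := RDT.slice hg ht
  have h5 : lev (fun y => Real.log (hdet (lv (φ t) y))) x a b =
      D a (D b fun x => Real.log (hdet (lv (φ t) x)) - w0 x) x +
        D (Complex.I • a) (D (Complex.I • b) fun x => Real.log (hdet (lv (φ t) x)) - w0 x) x := by
    rw [h2, lev, RDT.ddadd hU h4 hP.om a b hx, RDT.ddadd hU h4 hP.om _ _ hx]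
    rw [lev] at h3
    linarith
  rw [h5]
  exact h1

end Pool.Agent.MP_67f0e4_gt.H
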