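import Pool.Agent.MP_67f0e4_gt.H.Spec

/-! The potential flow gives a smooth Ricci flow. -/

open scoped ContDiff Topology Manifold
open Filter Set Metric

namespace Pool.Agent.MP_67f0e4_gt.H

open K

theorem rFL1 (_hLEV : StmtLEV) (hDT : StmtDT) (hPULL : StmtPULL) (hTR : StmtTR)
    (hKRIC : StmtKRIC) : StmtFL1 := by
  intro X _ ι hA T φ ψ hT hF
  have hu : UniqueDiffOn ℝ (Ico 0 T) := uniqueDiffOn_Ico 0 T
  have hc : Ico 0 T ⊆ closure (interior (Ico 0 T)) := by
    rw [interior_Ico, closure_Ioo hT.ne]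
    exact Ico_subset_Icc_self
  have hK : ∀ t ∈ Ico 0 T, XK X (φ t) := fun t ht N U hN =>
    ⟨hN.op, (hF N U hN).sm.comp (f := fun y : V => (t, y))
      (contDiff_const.prodMk contDiff_id).contDiffOn fun y hy => ⟨ht, hy⟩, (hF N U hN).pos t ht⟩
  refine ⟨hK, fun p a b => ?_, fun t ht x a b => ?_⟩
  · have h1 := (hDT _ _ _ _ hu hc (hA.par p).op (hF _ _ (hA.par p)) (ι a) (ι b)).1
    have h2 : ContDiff ℝ ∞ fun z : ℝ × E4 => (z.1, ι z.2) :=
      contDiff_fst.prodMk (ι.contDiff.comp contDiff_snd)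
    have h3 := h1.comp (s := Ico 0 T ×ˢ (chartAt E4 p).target) h2.contDiffOn fun z hz =>
      ⟨hz.1, by
        change ι.symm (ι z.2) ∈ (chartAt E4 p).target
        rw [ι.symm_apply_apply]
        exact hz.2⟩
    exact h3.congr fun z hz => (hPULL X ι hA _ (hK z.1 hz.1).sm).2 p z.2 hz.2 a b
  · have hx : ι (chartAt E4 x x) ∈ ι.symm ⁻¹' (chartAt E4 x).target := by
      change ι.symm (ι _) ∈ (chartAt E4 x).target
      rw [ι.symm_apply_apply]
      exact mem_chart_target E4 x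
    have hN : cN ι x (ι (chartAt E4 x x)) = x := by
      unfold cN
      rw [ι.symm_apply_apply, (chartAt E4 x).left_inv (mem_chart_source E4 x)]
    obtain ⟨A, hA'⟩ := (hTR X ι hA).2 _ _ (hA.par x) _ hx x hN
    have h1 := (hDT _ _ _ _ hu hc (hA.par x).op (hF _ _ (hA.par x)) (A a) (A b)).2 t ht _ hx
    rw [(hA' _ (hK t ht)).2.2, hKRIC _ _ (hK t ht _ _ (hA.par x)) _ hx]
    exact h1.congr (fun s hs => (hA' _ (hK s hs)).1 a b) ((hA' _ (hK t ht)).1 a b)

end Pool.Agent.MP_67f0e4_gt.H
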