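import Pool.Agent.MP_67f0e4_gt.H.Spec
import Pool.Agent.MP_67f0e4_gt.K.Alg

/-! Row FL2: completeness and bounded curvature along the flow. -/

open scoped ContDiff Topology Manifold NNReal
open Filter Set Metric

namespace Pool.Agent.MP_67f0e4_gt.H

open K

noncomputable section

namespace RFL2

theorem abs_D_le (f : V → ℝ) (x v : V) {M : ℝ} (h : ∀ j, |D (e j) f x| ≤ M) :
    |D v f x| ≤ 4 * M * ‖v‖ := by
  have h1 : D v f x = v.1.re * D (e 0) f x + v.1.im * D (e 1) f x + v.2.re * D (e 2) f x +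
      v.2.im * D (e 3) f x := by
    unfold D
    conv_lhs => rw [V_eq v]
    simp only [map_add, map_smul, smul_eq_mul]
  have m : ∀ (j : Fin 4) (s : ℝ), |s| ≤ ‖v‖ → |s * D (e j) f x| ≤ ‖v‖ * M := fun j s hs => by
    rw [abs_mul]
    exact mul_le_mul hs (h j) (abs_nonneg _) (norm_nonneg _)
  have b0 := abs_le.1 (m 0 _ ((Complex.abs_re_le_norm _).trans (norm_fst_le v)))
  have b1 := abs_le.1 (m 1 _ ((Complex.abs_im_le_norm _).trans (norm_fst_le v)))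
  have b2 := abs_le.1 (m 2 _ ((Complex.abs_re_le_norm _).trans (norm_snd_le v)))
  have b3 := abs_le.1 (m 3 _ ((Complex.abs_im_le_norm _).trans (norm_snd_le v)))
  rw [h1, abs_le]
  constructor <;> linarith [b0.1, b0.2, b1.1, b1.2, b2.1, b2.2, b3.1, b3.2]

end RFL2

theorem rFL2 (hLEV : StmtLEV) (hCPL : StmtCPL) (hTR : StmtTR) (hRBD : StmtRBD) : StmtFL2 := by
  intro X _ ι hA F T φ ψ hE hT hK hG
  have h02 : (0 : V) ∈ ball (0 : V) 2 := mem_ball_self two_pos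
  have h01 : (0 : V) ∈ ball (0 : V) 1 := mem_ball_self one_pos
  have hτ : ∀ t' < T, max t' (T / 2) ∈ Ioo 0 T := fun t' ht' =>
    ⟨lt_max_of_lt_right (half_pos hT), max_lt ht' (half_lt_self hT)⟩
  refine ⟨fun t ht => ?_, fun t' ht' => ?_⟩
  · obtain ⟨-, ⟨Λ, hΛ⟩, -⟩ := hG _ (hτ t ht.2)
    obtain ⟨E, M, hE1, -, hE3, hE4⟩ := hE
    refine hCPL X ι hA (φ t) E (16 * M ^ 2 * Λ) (hK t ht) hE1 hE3 fun p hp => ?_
    obtain ⟨i, hi⟩ := F.sur p hp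
    refine ⟨F.Φ i, ball 0 2, 0, F.par i, h02, hi, fun v => ?_⟩
    have h1 := RFL2.abs_D_le (E ∘ F.Φ i) 0 v fun j => hE4 i [j] le_rfl one_le_two
    have h2 := ((hΛ t ⟨ht.1, le_max_left _ _⟩ i 0 h01).2 v).1
    have h3 : ContDiffAt ℝ 2 (φ t ∘ F.Φ i) 0 :=
      ((hK t ht _ _ (F.par i)).sm.contDiffAt (isOpen_ball.mem_nhds h02)).of_le
        (WithTop.coe_le_coe.2 (le_top : (2 : ℕ∞) ≤ ⊤))
    rw [hLEV.eq _ _ h3, ← sq_abs]
    calc |D v (E ∘ F.Φ i) 0| ^ 2 ≤ (4 * M * ‖v‖) ^ 2 := pow_le_pow_left₀ (abs_nonneg _) h1 2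
      _ = 16 * M ^ 2 * ‖v‖ ^ 2 := by ring
      _ ≤ 16 * M ^ 2 * (Λ * qf (lv (φ t ∘ F.Φ i) 0) v) :=
        mul_le_mul_of_nonneg_left h2 (by positivity)
      _ = _ := by rw [qf, ← mul_assoc]
  · obtain ⟨-, ⟨Λ, hΛ⟩, hB⟩ := hG _ (hτ t' ht')
    obtain ⟨M, hM⟩ := hB 2
    obtain ⟨C, hC⟩ := hRBD Λ M
    refine ⟨Real.toNNReal C, fun t ht => ?_⟩
    have ht1 : t ∈ Icc 0 (max t' (T / 2)) := ⟨ht.1, ht.2.trans (le_max_left _ _)⟩
    have ht2 : t ∈ Ico 0 T := ⟨ht.1, ht.2.trans_lt ht'⟩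
    refine iSup_le fun x => iSup_le fun a => iSup_le fun b => iSup_le fun c => iSup_le fun d =>
      iSup_le fun h => ?_
    obtain ⟨i, hi⟩ := F.sur x x.2
    obtain ⟨A, hA'⟩ := (hTR X ι hA).2 _ _ (F.par i) 0 h02 x hi
    obtain ⟨h1, h2, -⟩ := hA' (φ t) (hK t ht2)
    simp only [h1] at h
    refine ENNReal.ofReal_le_ofReal ?_
    rw [h1, h2]
    exact hC _ _ (hK t ht2 _ _ (F.par i)) 0 h02 (hΛ t ht1 i 0 h01)
      (fun l hl α y hy => hM t ht1 i l hl α y (by rw [mem_singleton_iff.1 hy]; exact h01))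
      _ _ _ _ h.1 h.2.1 h.2.2.1 h.2.2.2

end

end Pool.Agent.MP_67f0e4_gt.H
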