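import Pool.Agent.MP_67f0e4_gt.H.Spec

/-! Row INT: interpolation. -/

open scoped ContDiff Topology
open Filter Set Metric

namespace Pool.Agent.MP_67f0e4_gt.H

namespace RINT

variable {F G : Type} [NormedAddCommGroup F] [NormedSpace ℝ F] [NormedAddCommGroup G]
  [NormedSpace ℝ G]

theorem key (v : F → G) (z : F) (h a B : ℝ) (hh : 0 < h)
    (hd : ∀ y ∈ closedBall z h, DifferentiableAt ℝ v y) (ha : ∀ y ∈ closedBall z h, ‖v y‖ ≤ a)
    (hB : ∀ y ∈ closedBall z h, ‖fderiv ℝ v y - fderiv ℝ v z‖ ≤ B) :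
    ‖fderiv ℝ v z‖ ≤ 2 * a / h + B := by
  have hz : z ∈ closedBall z h := mem_closedBall_self hh.le
  have ha0 : 0 ≤ a := (norm_nonneg _).trans (ha z hz)
  have hB0 : 0 ≤ B := (norm_nonneg _).trans (hB z hz)
  refine ContinuousLinearMap.opNorm_le_of_unit_norm (by positivity) fun w hw => ?_
  have hn : ‖h • w‖ = h := by rw [norm_smul, hw, mul_one, Real.norm_of_nonneg hh.le]
  have hy : z + h • w ∈ closedBall z h := by
    rw [mem_closedBall, dist_eq_norm, add_sub_cancel_left, hn]
  have h1 := (convex_closedBall z h).norm_image_sub_le_of_norm_fderiv_le' hd hB hz hy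
  rw [add_sub_cancel_left, hn, map_smul] at h1
  have h2 : ‖h • fderiv ℝ v z w‖ ≤ 2 * a + B * h := by
    have h3 : h • fderiv ℝ v z w =
        (v (z + h • w) - v z) - (v (z + h • w) - v z - h • fderiv ℝ v z w) := by abel
    rw [h3]
    refine (norm_sub_le _ _).trans (add_le_add ((norm_sub_le _ _).trans ?_) h1)
    linarith [ha _ hy, ha _ hz]
  rw [norm_smul, Real.norm_of_nonneg hh.le] at h2
  rw [div_add' _ _ _ hh.ne', le_div_iff₀ hh]
  linarith

theorem step (u : F → ℝ) (W : Set F) (hW : IsOpen W) (hu : ContDiffOn ℝ ∞ u W) (k : ℕ) (z : F)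
    (h a M : ℝ) (hh : 0 < h) (hs : closedBall z h ⊆ W)
    (ha : ∀ y ∈ closedBall z h, ‖iteratedFDeriv ℝ k u y‖ ≤ a)
    (hM : ∀ y ∈ W, ‖iteratedFDeriv ℝ (k + 1 + 1) u y‖ ≤ M) :
    ‖iteratedFDeriv ℝ (k + 1) u z‖ ≤ 2 * a / h + M * h := by
  have hz : z ∈ closedBall z h := mem_closedBall_self hh.le
  have hd : ∀ (j : ℕ), ∀ y ∈ closedBall z h, DifferentiableAt ℝ (iteratedFDeriv ℝ j u) y :=
    fun j y hy => (hu.contDiffAt (hW.mem_nhds (hs hy))).differentiableAt_iteratedFDeriv
      (by exact_mod_cast ENat.natCast_lt_top j)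
  have hM0 : 0 ≤ M := (norm_nonneg _).trans (hM z (hs hz))
  rw [← norm_fderiv_iteratedFDeriv]
  refine key _ z h a _ hh (hd k) ha fun y hy => ?_
  have h1 := (convex_closedBall z h).norm_image_sub_le_of_norm_fderiv_le (hd (k + 1))
    (fun y hy => (norm_fderiv_iteratedFDeriv (𝕜 := ℝ)).trans_le (hM y (hs hy))) hz hy
  rw [fderiv_iteratedFDeriv, Function.comp_apply, Function.comp_apply, ← dist_eq_norm,
    LinearIsometryEquiv.dist_map, dist_eq_norm]
  refine h1.trans (mul_le_mul_of_nonneg_left ?_ hM0)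
  rwa [mem_closedBall, dist_eq_norm] at hy

end RINT

theorem rINT : StmtINT := by
  intro F _ _ _ ι l u W hW hs h0 hb K hK hKW k
  induction k generalizing K with
  | zero =>
    intro ε hε
    filter_upwards [h0 ε hε] with i hi z hz
    rw [norm_iteratedFDeriv_zero]
    exact hi z (hKW hz)
  | succ k ih =>
    intro ε hε
    obtain ⟨ρ, hρ, hsub⟩ := hK.exists_cthickening_subset_open hW hKW
    obtain ⟨M, hM⟩ := hb (k + 1 + 1)
    have hp : 0 < |M| + 1 := by positivity
    set h : ℝ := min ρ (ε / 2 / (|M| + 1)) with hh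
    have h1 : 0 < h := lt_min hρ (by positivity)
    have h2 : M * h ≤ ε / 2 := by
      have h3 : h * (|M| + 1) ≤ ε / 2 := (le_div_iff₀ hp).1 (min_le_right _ _)
      nlinarith [le_abs_self M]
    filter_upwards [hs, hM, ih (cthickening ρ K) hK.cthickening hsub (ε / 4 * h) (by positivity)]
      with i hi hiM hia z hz
    have h4 : closedBall z h ⊆ cthickening ρ K :=
      (closedBall_subset_closedBall (min_le_left _ _)).trans (closedBall_subset_cthickening hz ρ)
    refine (RINT.step (u i) W hW hi k z h _ M h1 (h4.trans hsub) (fun y hy => hia y (h4 hy))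
      hiM).trans ?_
    have h5 : 2 * (ε / 4 * h) / h = ε / 2 := by field_simp; ring
    linarith

end Pool.Agent.MP_67f0e4_gt.H
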