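import Pool.Agent.MP_67f0e4_gt.H.KR2

namespace Pool.Agent.MP_67f0e4_gt.H

theorem rKJ (hCHR : StmtCHR) (hLEV : StmtLEV) : StmtKJ := fun f U hK _ hx a b =>
  KR.kj hK (hCHR K.V _ U (hLEV.met f U hK)) hx a b

end Pool.Agent.MP_67f0e4_gt.H
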