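import Pool.Agent.MP_67f0e4_gt.H.KR2

namespace Pool.Agent.MP_67f0e4_gt.H

open K Complex

namespace KR

theorem trh_split (g : Hm) (A B C D E F : V → V → ℝ) :
    trh g (fun a d => (A a d - B a d - C a d + D a d) / 2 - E a d + F a d) =
      (trh g A - trh g B - trh g C + trh g D) / 2 - trh g E + trh g F := by
  simp only [trh]
  ring

theorem kric {f : V → ℝ} {U : Set V} {x : V} (hK : KP f U) (hC : ChrF (lev f) U)
    (hR : RmF (lev f) U) (hx : x ∈ U) (b c : V) :
    -2 * ric (lev f) x b c = lev (fun y => Real.log (hdet (lv f y))) x b c := by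
  have hs := sm_at hK hx
  have h0 := (det_pos (hK.pos x hx)).ne'
  have hJ := kj hK hC hx
  have hJ' : ∀ a v, chr (lev f) x (I • a) v = I • chr (lev f) x a v := fun a v => by
    rw [hC.symm x hx, hJ, hC.symm x hx]
  obtain ⟨R, hRR⟩ := hR.bund x hx
  have h1 : ric (lev f) x b c = trh (lv f x) fun a d => bf (lv f x) (rm (lev f) x a b c) d := by
    rw [← tr_eq h0 fun a => rm (lev f) x a b c]
    simp only [ric, hRR]
    exact trace_V ((R.flip b).flip c : V →L[ℝ] V).toLinearMap
  have h2 : (fun a d => bf (lv f x) (rm (lev f) x a b c) d) = fun a d =>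
      (Q4 f x c (I • b) a (I • d) - Q4 f x (I • b) (I • c) a d - Q4 f x b c (I • a) (I • d)
        + Q4 f x b (I • c) (I • a) d) / 2
        - bf (lv f x) (chr (lev f) x a d) (chr (lev f) x b c)
        + bf (lv f x) (chr (lev f) x b d) (chr (lev f) x c a) := by
    funext a d
    rw [← lev_bf hK hx, hR.form x hx, D_kos hs, D_kos hs, lev_bf hK hx, lev_bf hK hx,
      Q12 hs b a c d, Q12 hs b a (I • c) (I • d), Q13 hs c (I • b) a (I • d),
      Qsw hs (I • b) (I • c) a d, Q34 hs b d (I • a) (I • c), Q23 hs b d (I • c) (I • a),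
      Q34 hs b (I • c) d (I • a), bf_comm _ (chr (lev f) x b c), bf_comm _ (chr (lev f) x a c),
      hC.symm x hx a c]
    ring
  have h3 : trh (lv f x) (fun a d => bf (lv f x) (chr (lev f) x a d) (chr (lev f) x b c)) = 0 := by
    refine trh_anti _ (fun a d => ?_) (fun a d => ?_) fun a d => ?_
    · rw [hJ, hJ', II, bf_neg_left]
    · rw [hC.symm x hx a d]
    · rw [← II d, hJ, hJ, II, bf_neg_left]
  have h4 : ∀ v, dv (I • v) (lv f) x = sy (lv f x) fun w => I • chr (lev f) x v w := fun v => by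
    rw [compat_sy hK hC hx]
    simp only [sy, hJ']
  have hG := fun α => (lv_comp hs α).of_le two_le_inf
  have h5 := l2_sy h0 (hJ b) (hJ c)
  rw [h1, h2, trh_split, (sbQ hs _ _).trh_Ir, (sbQ hs _ _).trh_II, (sbQ hs _ _).trh_Il, h3,
    (sbQ hs _ _).trh_eq, (sbQ hs _ _).trh_eq, lev, DD_log hG h0, DD_log hG h0, ddv_lv hs,
    ddv_lv hs, h4, h4, compat_sy hK hC hx, compat_sy hK hC hx]
  linarith

end KR

theorem rKRIC (hCHR : StmtCHR) (hRM : StmtRM) (hLEV : StmtLEV) (_hKJ : StmtKJ)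
    (_hKTR : StmtKTR) : StmtKRIC := fun f U hK _ hx b c =>
  KR.kric hK (hCHR V _ U (hLEV.met f U hK))
    (hRM V _ U (hLEV.met f U hK) (hCHR V _ U (hLEV.met f U hK))) hx b c

end Pool.Agent.MP_67f0e4_gt.H
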