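import Pool.Agent.MP_67f0e4_gt.H.KR2

namespace Pool.Agent.MP_67f0e4_gt.H

open K Complex

namespace KR

theorem hmix_sy {g : Hm} (hg : hdet g ≠ 0) {A : V → V} (hA : ∀ v, A (I • v) = I • A v) :
    hmix g (sy g A) / hdet g =
      (A (e 0)).1.re + (A (e 1)).1.im + (A (e 2)).2.re + (A (e 3)).2.im := by
  simp only [sy, ← I_e0, ← I_e2, hA]
  generalize A (e 0) = a0
  generalize A (e 2) = a2
  simp [bf, hmix]
  field_simp
  simp only [hdet]
  ring

end KR

theorem rKTR (hCHR : StmtCHR) (hLEV : StmtLEV) : StmtKTR := by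
  intro f U hK x hx b L hL
  have hC := hCHR V _ U (hLEV.met f U hK)
  have hs := KR.sm_at hK hx
  have h0 := (KR.det_pos (hK.pos x hx)).ne'
  rw [KR.D_log (fun α => (KR.lv_comp hs α).differentiableAt (by simp)) h0, KR.compat_sy hK hC hx,
    KR.hmix_sy h0 (KR.kj hK hC hx b), LinearMap.trace_eq_matrix_trace ℝ (Module.finBasis ℝ V)]
  simp only [Matrix.trace, Matrix.diag, LinearMap.toMatrix_apply]
  rw [KR.trace_V]
  simp only [hL]

end Pool.Agent.MP_67f0e4_gt.H
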