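import Pool.Agent.MP_67f0e4_gt.H.Spec
import Pool.Agent.MP_67f0e4_gt.K.Chain

/-! Row LEV: rules for the Levi form. -/

open scoped ContDiff Topology
open Filter Set

namespace Pool.Agent.MP_67f0e4_gt.H

open K

namespace RLEV

theorem met (f : V → ℝ) (U : Set V) (h : KP f U) : MetOn (lev f) U := by
  have h0 : ∀ y ∈ U, ContDiffAt ℝ ∞ f y := fun y hy => h.sm.contDiffAt (h.opn.mem_nhds hy)
  have h2 : ∀ y ∈ U, ∀ a b, lev f y a b = bf (lv f y) a b := fun y hy a b =>
    (bf_lv ((h0 y hy).of_le two_le_inf) a b).symm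
  refine ⟨h.opn, fun y hy a => ⟨fun b c => ?_, fun r b => ?_⟩, fun y hy a b => ?_,
    fun y hy a ha => ?_, fun a b y hy => (lev_smooth (h0 y hy) a b).contDiffWithinAt⟩
  · rw [h2 y hy, h2 y hy, h2 y hy, bf_add_right]
  · rw [h2 y hy, h2 y hy, bf_smul_right, smul_eq_mul]
  · rw [h2 y hy, h2 y hy, bf_comm]
  · rw [h2 y hy]
    exact h.pos y hy a ha

end RLEV

/-- Row LEV. -/
theorem rLEV : StmtLEV where
  eq _ _ h a b := (bf_lv h a b).symm
  herm := bf_I
  met := RLEV.met
  smo _ _ hU h α _ hy :=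
    (contDiffAt_pi.1 (lv_smooth (h.contDiffAt (hU.mem_nhds hy))) α).contDiffWithinAt
  det _ h := h.det
  germ _ _ _ h := h.eventuallyEq_nhds.mono fun _ hy =>
    funext fun a => funext fun b => lev_congr hy a b
  mul r f x a b := by simp only [lev, D_const_mul, mul_add]
  hol f T x hf hT a b := by
    rw [lev_hol hT hf,
      ((hT.differentiableAt (by norm_num)).hasFDerivAt.restrictScalars ℝ).fderiv]
    rfl

end Pool.Agent.MP_67f0e4_gt.H
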