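import Pool.Agent.MP_67f0e4_gt.H.MKit

open scoped ContDiff Topology Manifold
open Filter Set Metric

namespace Pool.Agent.MP_67f0e4_gt.H

open K MKit

theorem rMAP : StmtMAP := by
  intro X _ ι hA
  have hv : ∀ p : X, ContDiffAt ℝ ∞ (fun u => (((chartAt E4 p).symm u : X) : C3))
      (chartAt E4 p p) := by
    intro p
    have h1 := ((par_at (hA.par p) (centre_mem ι p)).restrict_scalars ℝ).comp _
      ι.contDiff.contDiffAt
    exact h1.congr_of_eventuallyEq (Eventually.of_forall fun u => (cN_apply ι p u).symm)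
  have hs : ContMDiff 𝓘(ℝ, E4) 𝓘(ℝ, C3) ∞ (Subtype.val : X → C3) := by
    intro p
    rw [contMDiffAt_iff]
    refine ⟨continuous_subtype_val.continuousAt, ?_⟩
    simp only [Function.comp_def, mfld_simps]
    exact (hv p).contDiffWithinAt
  refine ⟨fun hC => ⟨hA.man, hC, hs, fun p => ?_⟩, fun Θ v hΘ => ?_⟩
  · have dN := (par_at (hA.par p) (centre_mem ι p)).differentiableAt (by simp)
    have k : HasFDerivAt (fun u => (((chartAt E4 p).symm u : X) : C3))
        (((fderiv ℂ (cN ι p) (ι (chartAt E4 p p))).restrictScalars ℝ).comp (ι : E4 →L[ℝ] V))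
        (chartAt E4 p p) :=
      ((dN.hasFDerivAt.restrictScalars ℝ).comp _ ι.hasFDerivAt).congr_of_eventuallyEq
        (Eventually.of_forall fun u => (cN_apply ι p u).symm)
    have k2 : HasMFDerivAt 𝓘(ℝ, E4) 𝓘(ℝ, C3) (Subtype.val : X → C3) p
        (((fderiv ℂ (cN ι p) (ι (chartAt E4 p p))).restrictScalars ℝ).comp (ι : E4 →L[ℝ] V)) := by
      refine ⟨continuous_subtype_val.continuousAt, ?_⟩
      simp only [writtenInExtChartAt, Function.comp_def, mfld_simps]
      exact k.hasFDerivWithinAt
    rw [k2.mfderiv]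
    exact ((hA.par p).inj _ (centre_mem ι p)).comp ι.injective
  · obtain ⟨R, h1, h2, -⟩ := chart_eq ι hA (Θ v)
    have hc : ContinuousAt Θ v := by
      rw [Topology.IsInducing.subtypeVal.continuousAt_iff]
      exact hΘ.continuousAt
    rw [contMDiffAt_iff]
    refine ⟨hc, ?_⟩
    simp only [Function.comp_def, mfld_simps]
    refine ContDiffAt.contDiffWithinAt ?_
    refine (ι.symm.contDiff.contDiffAt.comp v
      ((h1.restrict_scalars ℝ).comp v hΘ)).congr_of_eventuallyEq ?_
    filter_upwards [hc.eventually h2] with w hw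
    exact hw

end Pool.Agent.MP_67f0e4_gt.H
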