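import Pool.Agent.MP_67f0e4_gt.H.Spec

/-! A totally geodesic curve with non-zero Gauss curvature makes the metric non-flat. -/

open scoped ContDiff Topology
open Filter Set

namespace Pool.Agent.MP_67f0e4_gt.H

open K

namespace RNF

theorem d_congr {E : Type} [NormedAddCommGroup E] [NormedSpace ℝ E] {f g : E → ℝ} {x : E}
    (h : f =ᶠ[𝓝 x] g) (v : E) : D v f =ᶠ[𝓝 x] D v g :=
  (h.fderiv (𝕜 := ℝ)).mono fun _ hy => congrArg (fun L : E →L[ℝ] ℝ => L v) hy

theorem d_line (F : V → ℝ) (x : V) (w v : ℂ) (hF : DifferentiableAt ℝ F (x + (w, 0))) :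
    D v (fun w : ℂ => F (x + (w, 0))) w = D (v, 0) F (x + (w, 0)) := by
  have h1 : HasFDerivAt (fun w : ℂ => x + (w, (0 : ℂ))) (ContinuousLinearMap.inl ℝ ℂ ℂ) w :=
    (ContinuousLinearMap.inl ℝ ℂ ℂ).hasFDerivAt.const_add x
  exact congrArg (fun L : ℂ →L[ℝ] ℝ => L v) (hF.hasFDerivAt.comp w h1).fderiv

theorem d_sm {F : V → ℝ} {U : Set V} (hU : IsOpen U) (hF : ContDiffOn ℝ ∞ F U) (v : V) :
    ContDiffOn ℝ ∞ (D v F) U :=
  (hF.fderiv_of_isOpen hU (by simp)).clm_apply contDiffOn_const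

theorem line {F : V → ℝ} {U : Set V} (hU : IsOpen U) (hF : ContDiffOn ℝ ∞ F U) {x : V}
    (hx : x ∈ U) {g : ℂ → ℝ} (hg : ∀ᶠ w in 𝓝 (0 : ℂ), F (x + (w, 0)) = g w) (v : ℂ) :
    D v g 0 = D (v, 0) F x ∧ D v (D v g) 0 = D (v, 0) (D (v, 0) F) x := by
  have h0 : x + ((0 : ℂ), (0 : ℂ)) = x := add_zero x
  have hc : Continuous fun w : ℂ => x + (w, (0 : ℂ)) := by fun_prop
  have hm : ∀ᶠ w in 𝓝 (0 : ℂ), x + (w, (0 : ℂ)) ∈ U :=
    hc.continuousAt.eventually_mem (by rw [h0]; exact hU.mem_nhds hx)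
  have h1 : D v g =ᶠ[𝓝 0] fun w : ℂ => D (v, 0) F (x + (w, 0)) := by
    filter_upwards [d_congr (f := fun w : ℂ => F (x + (w, 0))) hg v, hm] with w a b
    rw [← a, d_line F x w v ((hF.contDiffAt (hU.mem_nhds b)).differentiableAt (by simp))]
  refine ⟨h1.eq_of_nhds.trans (by rw [h0]), (d_congr h1 v).eq_of_nhds.trans ?_⟩
  rw [d_line _ x 0 v (by
    rw [h0]
    exact ((d_sm hU hF _).contDiffAt (hU.mem_nhds hx)).differentiableAt (by simp)), h0]

theorem d_zero {E : Type} [NormedAddCommGroup E] [NormedSpace ℝ E] (v x : E) :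
    D v (fun _ => (0 : ℝ)) x = 0 := by simp [D]

theorem d_mul {E : Type} [NormedAddCommGroup E] [NormedSpace ℝ E] (r : ℝ) (f : E → ℝ) (v x : E) :
    D v (fun y => r * f y) x = r * D v f x := by
  have := congrFun (fderiv_const_smul_field (𝕜 := ℝ) (f := f) r) x
  exact congrArg (fun L : E →L[ℝ] ℝ => L v) this

end RNF

open RNF

theorem rNF (hCHR : StmtCHR) (hRM : StmtRM) (hLEV : StmtLEV) (hKJ : StmtKJ) : StmtNF := by
  rintro f U hf x hx ⟨g, hg, hne⟩
  have M := hLEV.met f U hf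
  have C := hCHR V _ U M
  have R := hRM V _ U M C
  have KJ := hKJ f U hf x hx
  have hb : ∀ y ∈ U, ∀ a b, lev f y a b = bf (lv f y) a b := fun y hy =>
    hLEV.eq f y ((hf.sm.contDiffAt (hf.opn.mem_nhds hy)).of_le (by norm_cast))
  have ev : ∀ (a b : V) (p : Hm → ℝ), (∀ q, bf q a b = p q) → ∀ y ∈ U, ∀ v,
      D v (fun w => lev f w a b) y = D v (fun w => p (lv f w)) y := fun a b p hp y hy v =>
    (d_congr (eventually_of_mem (hf.opn.mem_nhds hy) fun w hw =>
      (hb w hw a b).trans (hp _)) v).eq_of_nhds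
  obtain ⟨a, ha⟩ : ∃ a : V, a = (1, 0) := ⟨_, rfl⟩
  obtain ⟨J, hJ⟩ : ∃ J : V, J = (Complex.I, 0) := ⟨_, rfl⟩
  have aJ : J = Complex.I • a := by rw [ha, hJ]; simp
  have aa := ev a a (fun q => q 0) (by simp [bf, ha])
  have jj := ev J J (fun q => q 0) (by simp [bf, hJ])
  have aj := ev a J (fun _ => 0) (by simp [bf, ha, hJ])
  have ja := ev J a (fun _ => 0) (by simp [bf, ha, hJ])
  have sm := hLEV.smo f U hf.opn hf.sm
  have l0 := line hf.opn (sm 0) hx (hg.mono fun w hw => hw.1)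
  have l2 := fun v => (line hf.opn (sm 2) hx (hg.mono fun w hw => hw.2.1) v).1
  have l3 := fun v => (line hf.opn (sm 3) hx (hg.mono fun w hw => hw.2.2) v).1
  obtain ⟨z0, z2, z3⟩ := hg.self_of_nhds
  rw [show x + ((0 : ℂ), (0 : ℂ)) = x from add_zero x] at z0 z2 z3
  simp only [d_zero] at l2 l3
  have k1 : D a (fun w => kos (lev f) w J J a) x = -1 / 2 * D 1 (D 1 g) 0 := by
    rw [(l0 1).2, ← ha, ← d_mul]
    refine (d_congr (eventually_of_mem (hf.opn.mem_nhds hx) fun w hw => ?_) a).eq_of_nhds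
    simp only [kos, ja w hw, jj w hw, d_zero]
    ring
  have k2 : D J (fun w => kos (lev f) w a J a) x = 1 / 2 * D Complex.I (D Complex.I g) 0 := by
    rw [(l0 _).2, ← hJ, ← d_mul]
    refine (d_congr (eventually_of_mem (hf.opn.mem_nhds hx) fun w hw => ?_) J).eq_of_nhds
    simp only [kos, ja w hw, aa w hw, aj w hw, d_zero]
    ring
  obtain ⟨G, hG⟩ : ∃ G, G = chr (lev f) x a a := ⟨_, rfl⟩
  have c1 : chr (lev f) x a J = Complex.I • G := by rw [aJ, KJ, hG]
  have c2 : chr (lev f) x J a = Complex.I • G := by rw [C.symm x hx, c1]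
  have c3 : chr (lev f) x J J = -G := by
    have := KJ J a
    rw [← aJ, c2, smul_smul, Complex.I_mul_I, neg_one_smul] at this
    exact this
  have ng : ∀ c, lev f x (-G) c = -lev f x G c := fun c => by
    rw [M.symm x hx, (M.lin x hx c).map_neg, M.symm x hx]
  have tw : ∀ c, 2 * lev f x G c =
      D a (fun w => lev f w a c) x - D J (fun w => lev f w J c) x := fun c => by
    have h1 : lev f x J (chr (lev f) x J c) = lev f x a (chr (lev f) x a c) := by
      rw [C.symm x hx J c, aJ, KJ, hb x hx, hLEV.herm, ← hb x hx, C.symm x hx c a]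
    rw [C.compat x hx, C.compat x hx, c3, ng, h1, ← hG]
    ring
  have g0 := C.kosz x hx a a a
  have g1 := C.kosz x hx a a J
  have g2 := tw (0, 1)
  have g3 := tw (0, Complex.I)
  rw [ev a (0, 1) (fun q => q 2) (by simp [bf, ha]) x hx,
    ev J (0, 1) (fun q => -1 * q 3) (by simp [bf, hJ]) x hx, d_mul, ha, hJ, ← l2, ← l3,
    hb x hx] at g2
  rw [ev a (0, Complex.I) (fun q => q 3) (by simp [bf, ha]) x hx,
    ev J (0, Complex.I) (fun q => q 2) (by simp [bf, hJ]) x hx, ha, hJ, ← l2, ← l3,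
    hb x hx] at g3
  rw [← hG, kos, aa x hx, hb x hx, ha, ← (l0 1).1] at g0
  rw [← hG, kos, aj x hx, aa x hx, d_zero, hb x hx, hJ, ← (l0 _).1] at g1
  refine ⟨a, J, J, a, fun h0 => hne ?_⟩
  rw [R.form x hx, k1, k2, c1, c2, c3, ← hG, ng, hb x hx (Complex.I • G), hLEV.herm,
    hb x hx] at h0
  simp only [bf, z0, z2, z3, Complex.one_re, Complex.one_im, Complex.zero_re, Complex.zero_im,
    Complex.I_re, Complex.I_im] at g0 g1 g2 g3 h0
  simp only [lev, smul_eq_mul, mul_one]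
  linear_combination (-2 * g 0) * h0 + (2 * g 0 * G.1.re + D 1 g 0) * 2 * g0 +
    (2 * g 0 * G.1.im - D Complex.I g 0) * 2 * g1 + 2 * g 0 * G.2.re * g2 + 2 * g 0 * G.2.im * g3

end Pool.Agent.MP_67f0e4_gt.H
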