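import Pool.Agent.MP_67f0e4_gt.H.MKit

open scoped ContDiff Topology Manifold
open Filter Set Metric

namespace Pool.Agent.MP_67f0e4_gt.H

open K MKit

theorem RPULL.one (hLEV : StmtLEV) {X : Set C3} [ChartedSpace E4 X] (ι : E4 ≃L[ℝ] V)
    (hA : Atl X ι) (f : C3 → ℝ) (hf : XSm0 X f) (Θ : E4 → X) (v : E4) (N : V → C3) (U : Set V)
    (T : E4 → V) (hN : Par X N U) (hv : T v ∈ U) (hT : DifferentiableAt ℝ T v)
    (he : ∀ᶠ w in 𝓝 v, N (T w) = Θ w) (a b : E4) :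
    pull (kah ι f) Θ v a b = lev (f ∘ N) (T v) (fderiv ℝ T v a) (fderiv ℝ T v b) := by
  obtain ⟨R, h1, h2, h3⟩ := chart_eq ι hA (Θ v)
  have e0 : N (T v) = Θ v := he.self_of_nhds
  have hNv := par_at hN hv
  have hS : ContDiffAt ℂ ∞ (R ∘ N) (T v) := (e0 ▸ h1).comp _ hNv
  have hc : ContinuousAt Θ v := by
    rw [Topology.IsInducing.subtypeVal.continuousAt_iff]
    exact (hNv.continuousAt.comp hT.continuousAt).congr he
  have dS : DifferentiableAt ℝ (R ∘ N) (T v) :=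
    (hS.differentiableAt (by simp)).restrictScalars ℝ
  have k1 : (fun w => chartAt E4 (Θ v) (Θ w)) =ᶠ[𝓝 v] fun w => ι.symm ((R ∘ N) (T w)) := by
    filter_upwards [hc.eventually h2, he] with w hw hw'
    simp only [Function.comp, hw, hw']
  have k2 : HasFDerivAt (fun w => chartAt E4 (Θ v) (Θ w))
      ((ι.symm : V →L[ℝ] E4).comp ((fderiv ℝ (R ∘ N) (T v)).comp (fderiv ℝ T v))) v :=
    (ι.symm.hasFDerivAt.comp v (dS.hasFDerivAt.comp v hT.hasFDerivAt)).congr_of_eventuallyEq k1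
  have k3 : (R ∘ N) (T v) = ι (chartAt E4 (Θ v) (Θ v)) := by
    have := k1.self_of_nhds
    simp only at this
    rw [this]; simp
  have k4 : f ∘ N =ᶠ[𝓝 (T v)] (f ∘ cN ι (Θ v)) ∘ (R ∘ N) := by
    filter_upwards [(par_tendsto hN hv).eventually (e0 ▸ h3)] with y hy
    simp only [Function.comp, hy]
  have k5 : ContDiffAt ℝ 2 (f ∘ cN ι (Θ v)) ((R ∘ N) (T v)) := by
    rw [k3]
    exact ((hf _ _ (hA.par _)).contDiffAt ((hA.par _).op.mem_nhds (centre_mem ι _))).of_le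
      (WithTop.coe_le_coe.2 le_top)
  rw [(hLEV.germ _ _ _ k4).self_of_nhds, hLEV.hol _ _ _ k5 (hS.of_le (WithTop.coe_le_coe.2 le_top)), k3]
  simp [pull, kah, dif_eq hc k2]

theorem rPULL (hLEV : StmtLEV) : StmtPULL := by
  intro X _ ι hA f hf
  refine ⟨fun Θ v N U T => RPULL.one hLEV ι hA f hf Θ v N U T, fun p u hu a b => ?_⟩
  have := RPULL.one hLEV ι hA f hf (chartAt E4 p).symm u (cN ι p) _ ι (hA.par p) (by simpa using hu)
    ι.differentiableAt (Eventually.of_forall fun w => cN_apply ι p w) a b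
  rw [ι.fderiv] at this
  exact this

end Pool.Agent.MP_67f0e4_gt.H
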