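import Pool.Agent.MP_67f0e4_gt.H.Spec
import Pool.Agent.MP_67f0e4_gt.K.Alg

/-! Row RBD: curvature bound from the two-jet of the metric. -/

open scoped ContDiff Topology
open Filter Set Metric

namespace Pool.Agent.MP_67f0e4_gt.H

open K

namespace RRBD

theorem lin4 {g : Fin 4 → V → ℝ} {x : V} (hg : ∀ j, DifferentiableAt ℝ (g j) x)
    (c0 c1 c2 c3 : ℝ) (v : V) :
    D v (fun y => g 0 y * c0 + g 1 y * c1 + g 2 y * c2 + g 3 y * c3) x =
      D v (g 0) x * c0 + D v (g 1) x * c1 + D v (g 2) x * c2 + D v (g 3) x * c3 := by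
  have h := ((((hg 0).hasFDerivAt.mul_const c0).add ((hg 1).hasFDerivAt.mul_const c1)).add
    ((hg 2).hasFDerivAt.mul_const c2)).add ((hg 3).hasFDerivAt.mul_const c3)
  refine (congrArg (fun L : V →L[ℝ] ℝ => L v) h.fderiv).trans ?_
  simp only [D, add_apply, smul_apply, smul_eq_mul]
  ring

theorem dexp (g : V → ℝ) (u x : V) : D u g x = D (e 0) g x * u.1.re + D (e 1) g x * u.1.im +
    D (e 2) g x * u.2.re + D (e 3) g x * u.2.im := by
  conv_lhs => rw [V_eq u]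
  simp only [D, map_add, map_smul, smul_eq_mul]
  ring

theorem four {t : Fin 4 → ℝ} {M : ℝ} (h : ∀ i, |t i| ≤ M) (u : V) :
    |t 0 * u.1.re + t 1 * u.1.im + t 2 * u.2.re + t 3 * u.2.im| ≤ 4 * M * ‖u‖ := by
  have m : ∀ (i : Fin 4) (s : ℝ), |s| ≤ ‖u‖ → |t i * s| ≤ M * ‖u‖ := fun i s hs => by
    rw [abs_mul]
    exact mul_le_mul (h i) hs (abs_nonneg _) ((abs_nonneg _).trans (h i))
  have h0 := abs_le.1 (m 0 _ ((Complex.abs_re_le_norm u.1).trans (norm_fst_le u)))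
  have h1 := abs_le.1 (m 1 _ ((Complex.abs_im_le_norm u.1).trans (norm_fst_le u)))
  have h2 := abs_le.1 (m 2 _ ((Complex.abs_re_le_norm u.2).trans (norm_snd_le u)))
  have h3 := abs_le.1 (m 3 _ ((Complex.abs_im_le_norm u.2).trans (norm_snd_le u)))
  rw [abs_le]
  constructor <;> linarith [h0.1, h0.2, h1.1, h1.2, h2.1, h2.2, h3.1, h3.2]

theorem smD {U : Set V} (hU : IsOpen U) {g : V → ℝ} (hg : ContDiffOn ℝ ∞ g U) (u : V) :
    ContDiffOn ℝ ∞ (D u g) U :=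
  (hg.fderiv_of_isOpen hU (by simp)).clm_apply contDiffOn_const

theorem dif {U : Set V} (hU : IsOpen U) {g : V → ℝ} (hg : ContDiffOn ℝ ∞ g U) {x : V}
    (hx : x ∈ U) : DifferentiableAt ℝ g x :=
  (hg.contDiffAt (hU.mem_nhds hx)).differentiableAt (by simp)

theorem one {g : V → ℝ} {x : V} {M : ℝ} (h : ∀ i, |D (e i) g x| ≤ M) (u : V) :
    |D u g x| ≤ 4 * M * ‖u‖ := by
  rw [dexp]
  exact four (t := fun i => D (e i) g x) h u

theorem two {U : Set V} (hU : IsOpen U) {g : V → ℝ} (hg : ContDiffOn ℝ ∞ g U) {x : V}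
    (hx : x ∈ U) {M : ℝ} (h : ∀ i j, |D (e i) (D (e j) g) x| ≤ M) (v u : V) :
    |D v (D u g) x| ≤ 4 * (4 * M * ‖u‖) * ‖v‖ := by
  refine one (fun i => ?_) v
  rw [funext (dexp g u), lin4 (g := fun j => D (e j) g) fun j => dif hU (smD hU hg _) hx]
  exact four (t := fun j => D (e i) (D (e j) g) x) (h i) u

theorem dbf {U : Set V} (hU : IsOpen U) {G : V → Hm} (hG : ∀ α, ContDiffOn ℝ ∞ (fun y => G y α) U)
    {k : V → ℝ} {a b : V} (hk : ∀ y ∈ U, k y = bf (G y) a b) (u : V) :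
    ∀ y ∈ U, D u k y = bf (fun α => D u (fun w => G w α) y) a b := by
  intro y hy
  have h1 : k =ᶠ[𝓝 y] fun w => bf (G w) a b := by
    filter_upwards [hU.mem_nhds hy] with w hw using hk w hw
  exact (congrArg (fun L : V →L[ℝ] ℝ => L u) h1.fderiv_eq).trans
    (lin4 (g := fun α w => G w α) (fun α => dif hU (hG α) hy) _ _ _ _ u)

theorem bfle {g : Hm} {B : ℝ} (h : ∀ α, |g α| ≤ B) (a b : V) : |bf g a b| ≤ 6 * B * ‖a‖ * ‖b‖ := by
  have h1 : ‖g‖ ≤ B := (pi_norm_le_iff_of_nonneg ((abs_nonneg _).trans (h 0))).2 h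
  refine (abs_bf_le g a b).trans ?_
  gcongr

theorem dkos {U : Set V} {h : V → V → V → ℝ} (hm : MetOn h U) {x : V} (hx : x ∈ U)
    (a b c d : V) : D a (fun w => kos h w b c d) x = (D a (D b fun w => h w c d) x +
      D a (D c fun w => h w b d) x - D a (D d fun w => h w b c) x) / 2 := by
  have h1 := fun u p q => (dif hm.opn (smD hm.opn (hm.sm p q) u) hx).hasFDerivAt
  have h2 : (fun w => kos h w b c d) = fun w => (D b (fun w => h w c d) w +
      D c (fun w => h w b d) w - D d (fun w => h w b c) w) * 2⁻¹ := by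
    funext w
    rw [kos, div_eq_mul_inv]
  have h3 := (((h1 b c d).add (h1 c b d)).sub (h1 d b c)).mul_const 2⁻¹
  rw [h2]
  refine (congrArg (fun L : V →L[ℝ] ℝ => L a) h3.fderiv).trans ?_
  simp only [smul_apply, sub_apply, add_apply, smul_eq_mul]
  rw [mul_comm, ← div_eq_mul_inv]
  rfl

end RRBD

open RRBD in
theorem rRBD (hCHR : StmtCHR) (hRM : StmtRM) (hLEV : StmtLEV) (hWD : StmtWD) : StmtRBD := by
  intro Λ M
  refine ⟨2 * (144 * M * Λ ^ 4) + 2 * (36 * M * Λ ^ 2 * (36 * M * Λ ^ 3)),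
    fun f U hf x hx hE hL a b c d ha hb hc hd => ?_⟩
  have hm := hLEV.met f U hf
  have hch := hCHR V _ U hm
  have hrm := hRM V _ U hm hch
  have hG := hLEV.smo f U hf.opn hf.sm
  have heq : ∀ p q, ∀ y ∈ U, lev f y p q = bf (lv f y) p q := fun p q y hy =>
    hLEV.eq f y ((hf.sm.contDiffAt (hf.opn.mem_nhds hy)).of_le
      (WithTop.coe_le_coe.2 (le_top : (2 : ℕ∞) ≤ ⊤))) p q
  have hM : 0 ≤ M := (abs_nonneg _).trans (hL [] (Nat.zero_le 2) 0 x rfl)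
  have hΛ := hE.one_le
  have hΛ0 : 0 ≤ Λ := zero_le_one.trans hΛ
  have hn : ∀ p, ‖p‖ ^ 2 ≤ Λ * lev f x p p := fun p => by
    rw [heq p p x hx]
    exact (hE.2 p).1
  have hu : ∀ p, lev f x p p ≤ 1 → ‖p‖ ≤ Λ := fun p hp => by
    refine le_of_sq_le_sq ((hn p).trans ?_) hΛ0
    nlinarith
  have d1 := fun p q u => dbf hf.opn hG (heq p q) u
  have b1 : ∀ u p q, |D u (fun w => lev f w p q) x| ≤ 24 * M * (‖u‖ * ‖p‖ * ‖q‖) := by
    intro u p q
    rw [d1 p q u x hx]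
    refine (bfle (fun α => one (M := M) (fun i => hL [i] (by simp) α x rfl) u) p q).trans
      (le_of_eq ?_)
    ring
  have b2 : ∀ v u p q, ‖v‖ ≤ Λ → ‖u‖ ≤ Λ → ‖p‖ ≤ Λ → ‖q‖ ≤ Λ →
      |D v (D u fun w => lev f w p q) x| ≤ 96 * M * Λ ^ 4 := by
    intro v u p q hv hu hp hq
    rw [dbf hf.opn (G := fun y α => D u (fun w => lv f w α) y)
      (fun α => smD hf.opn (hG α) u) (d1 p q u) v x hx]
    refine (bfle (fun α => two hf.opn (hG α) hx (M := M)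
      (fun i j => hL [i, j] (by simp) α x rfl) v u) p q).trans ?_
    calc _ ≤ 6 * (4 * (4 * M * Λ) * Λ) * Λ * Λ := by gcongr
      _ = _ := by ring
  have k1 : ∀ p q r, ‖p‖ ≤ Λ → ‖q‖ ≤ Λ → |kos (lev f) x p q r| ≤ 36 * M * Λ ^ 2 * ‖r‖ := by
    intro p q r hp hq
    have h1 := abs_le.1 (b1 p q r)
    have h2 := abs_le.1 (b1 q p r)
    have h3 := abs_le.1 (b1 r p q)
    have h4 : M * (‖p‖ * ‖q‖ * ‖r‖) ≤ M * (Λ * Λ * ‖r‖) := by gcongr
    rw [kos, abs_le]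
    constructor <;> nlinarith [h1.1, h1.2, h2.1, h2.2, h3.1, h3.2]
  have k2 : ∀ p q, ‖p‖ ≤ Λ → ‖q‖ ≤ Λ → ‖chr (lev f) x p q‖ ≤ 36 * M * Λ ^ 3 := by
    intro p q hp hq
    have h1 := hn (chr (lev f) x p q)
    rw [hch.kosz x hx] at h1
    have h2 := mul_le_mul_of_nonneg_left ((le_abs_self _).trans (k1 p q (chr (lev f) x p q) hp hq))
      hΛ0
    rcases (norm_nonneg (chr (lev f) x p q)).eq_or_lt with h0 | h0
    · rw [← h0]
      positivity
    · refine le_of_mul_le_mul_right ?_ h0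
      nlinarith
  have k3 : ∀ p q r s, ‖p‖ ≤ Λ → ‖q‖ ≤ Λ → ‖r‖ ≤ Λ → ‖s‖ ≤ Λ →
      |lev f x (chr (lev f) x p q) (chr (lev f) x r s)| ≤ 36 * M * Λ ^ 2 * (36 * M * Λ ^ 3) := by
    intro p q r s hp hq hr hs
    rw [hch.kosz x hx]
    exact (k1 p q _ hp hq).trans (mul_le_mul_of_nonneg_left (k2 r s hr hs) (by positivity))
  have k4 : ∀ p q r s, ‖p‖ ≤ Λ → ‖q‖ ≤ Λ → ‖r‖ ≤ Λ → ‖s‖ ≤ Λ →
      |D p (fun w => kos (lev f) w q r s) x| ≤ 144 * M * Λ ^ 4 := by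
    intro p q r s hp hq hr hs
    have h1 := abs_le.1 (b2 p q r s hp hq hr hs)
    have h2 := abs_le.1 (b2 p r q s hp hr hq hs)
    have h3 := abs_le.1 (b2 p s q r hp hs hq hr)
    rw [dkos hm hx, abs_le]
    constructor <;> linarith [h1.1, h1.2, h2.1, h2.2, h3.1, h3.2]
  have h1 := abs_le.1 (k4 a b c d (hu a ha) (hu b hb) (hu c hc) (hu d hd))
  have h2 := abs_le.1 (k4 b a c d (hu b hb) (hu a ha) (hu c hc) (hu d hd))
  have h3 := abs_le.1 (k3 b c a d (hu b hb) (hu c hc) (hu a ha) (hu d hd))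
  have h4 := abs_le.1 (k3 a c b d (hu a ha) (hu c hc) (hu b hb) (hu d hd))
  rw [hrm.form x hx, abs_le]
  constructor <;> linarith [h1.1, h1.2, h2.1, h2.2, h3.1, h3.2, h4.1, h4.2]

end Pool.Agent.MP_67f0e4_gt.H
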