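import Pool.Agent.MP_67f0e4_gt.H.Spec

/-! Row RCT: curvature is continuous in the two-jet of the metric. -/

open scoped ContDiff Topology
open Filter Set Metric

namespace Pool.Agent.MP_67f0e4_gt.H

open K

noncomputable section

namespace RRCT

/-- real coordinates -/
def co (u : V) : Fin 4 → ℝ := ![u.1.re, u.1.im, u.2.re, u.2.im]

lemma sum_co (u : V) : u = ∑ j, co u j • e j := by
  ext <;> apply Complex.ext <;> simp [co, e, Fin.sum_univ_four]

lemma D_co (u : V) (F : V → ℝ) : D u F = fun y => ∑ j, co u j * D (e j) F y := by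
  funext y
  unfold D
  conv_lhs => rw [sum_co u]
  simp only [map_sum, map_smul, smul_eq_mul]

lemma bf_sum (g : Hm) (a b : V) : bf g a b = ∑ α, bf (Pi.single α 1) a b * g α := by
  simp [bf, Fin.sum_univ_four]
  ring

lemma bf_inv (g : Hm) (a b : V) : hdet g * bf g a b =
    g 1 * (bf g a (e 0) * bf g b (e 0) + bf g a (e 1) * bf g b (e 1)) +
    g 0 * (bf g a (e 2) * bf g b (e 2) + bf g a (e 3) * bf g b (e 3)) -
    g 2 * (bf g a (e 0) * bf g b (e 2) + bf g a (e 2) * bf g b (e 0) +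
      bf g a (e 1) * bf g b (e 3) + bf g a (e 3) * bf g b (e 1)) -
    g 3 * (bf g a (e 0) * bf g b (e 3) + bf g a (e 3) * bf g b (e 0) -
      bf g a (e 1) * bf g b (e 2) - bf g a (e 2) * bf g b (e 1)) := by
  simp [bf, e, hdet]
  ring

variable {U : Set V}

lemma D_sm (hU : IsOpen U) {F : V → ℝ} (hF : ContDiffOn ℝ ∞ F U) (u : V) :
    ContDiffOn ℝ ∞ (D u F) U :=
  (hF.fderiv_of_isOpen hU (by simp)).clm_apply contDiffOn_const

lemma hfd (hU : IsOpen U) {F : V → ℝ} (hF : ContDiffOn ℝ ∞ F U) {y : V} (hy : y ∈ U) :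
    HasFDerivAt F (fderiv ℝ F y) y :=
  ((hF.contDiffAt (hU.mem_nhds hy)).differentiableAt (by simp)).hasFDerivAt

lemma D_lin (hU : IsOpen U) {G : V → ℝ} {F : Fin 4 → V → ℝ} {c : Fin 4 → ℝ}
    (hF : ∀ α, ContDiffOn ℝ ∞ (F α) U) (hG : ∀ y ∈ U, G y = ∑ α, c α * F α y) (u : V) :
    ∀ y ∈ U, D u G y = ∑ α, c α * D u (F α) y := by
  intro y hy
  have h1 : G =ᶠ[𝓝 y] fun y => ∑ α, c α * F α y := eventually_of_mem (hU.mem_nhds hy) hG
  unfold D
  rw [h1.fderiv_eq, (HasFDerivAt.fun_sum fun α _ => (hfd hU (hF α) hy).const_mul (c α)).fderiv]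
  simp

section
variable (hL : LevF) {f : V → ℝ} (hf : KP f U)
include hL hf

lemma lev_bf {y : V} (hy : y ∈ U) (a b : V) : lev f y a b = bf (lv f y) a b :=
  hL.eq f y ((hf.sm.contDiffAt (hf.opn.mem_nhds hy)).of_le
    (WithTop.coe_le_coe.2 (le_top : (2 : ℕ∞) ≤ ⊤))) a b

lemma f0 (a b : V) : ∀ y ∈ U, lev f y a b = ∑ α, bf (Pi.single α 1) a b * lv f y α :=
  fun _ hy => (lev_bf hL hf hy a b).trans (bf_sum _ a b)

lemma f1 (a b u : V) : ∀ y ∈ U, D u (fun w => lev f w a b) y =
    ∑ α, bf (Pi.single α 1) a b * D u (fun w => lv f w α) y :=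
  D_lin hf.opn (hL.smo f U hf.opn hf.sm) (f0 hL hf a b) u

lemma f1' (a b u : V) {y : V} (hy : y ∈ U) : D u (fun w => lev f w a b) y =
    ∑ α, bf (Pi.single α 1) a b * ∑ j, co u j * DL [j] (fun w => lv f w α) y := by
  rw [f1 hL hf a b u y hy]
  exact Finset.sum_congr rfl fun α _ => by rw [D_co]; rfl

lemma f2 (a b u v : V) {y : V} (hy : y ∈ U) : D u (D v fun w => lev f w a b) y =
    ∑ α, bf (Pi.single α 1) a b * ∑ j, co u j * ∑ k, co v k *
      DL [j, k] (fun w => lv f w α) y := by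
  have hs := hL.smo f U hf.opn hf.sm
  rw [D_lin hf.opn (fun α => D_sm hf.opn (hs α) v) (f1 hL hf a b v) u y hy]
  refine Finset.sum_congr rfl fun α _ => ?_
  rw [D_co u]
  refine congrArg _ (Finset.sum_congr rfl fun j _ => congrArg _ ?_)
  exact D_lin hf.opn (fun k => D_sm hf.opn (hs α) (e k)) (fun w _ => congrFun (D_co v _) w) _ y hy

lemma fk (a b c u : V) {y : V} (hy : y ∈ U) : D u (fun w => kos (lev f) w a b c) y =
    (D u (D a fun w => lev f w b c) y + D u (D b fun w => lev f w a c) y -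
      D u (D c fun w => lev f w a b) y) / 2 := by
  have hs := fun a b c => hfd hf.opn (D_sm hf.opn ((hL.met f U hf).sm a b) c) hy
  have h1 := (((hs b c a).fun_add (hs a c b)).fun_sub (hs a b c)).mul_const (2 : ℝ)⁻¹
  have h2 : (fun w => kos (lev f) w a b c) = fun w => (D a (fun w => lev f w b c) w +
      D b (fun w => lev f w a c) w - D c (fun w => lev f w a b) w) * (2 : ℝ)⁻¹ := by
    funext w
    rw [kos, div_eq_mul_inv]
  rw [D, h2, h1.fderiv]
  simp only [smul_apply, sub_apply, add_apply, smul_eq_mul]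
  rw [div_eq_inv_mul]
  rfl

lemma fc (hC : StmtCHR) (a b c d : V) {y : V} (hy : y ∈ U) :
    lev f y (chr (lev f) y a b) (chr (lev f) y c d) =
    (lv f y 1 * (kos (lev f) y a b (e 0) * kos (lev f) y c d (e 0) +
      kos (lev f) y a b (e 1) * kos (lev f) y c d (e 1)) +
    lv f y 0 * (kos (lev f) y a b (e 2) * kos (lev f) y c d (e 2) +
      kos (lev f) y a b (e 3) * kos (lev f) y c d (e 3)) -
    lv f y 2 * (kos (lev f) y a b (e 0) * kos (lev f) y c d (e 2) +
      kos (lev f) y a b (e 2) * kos (lev f) y c d (e 0) +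
      kos (lev f) y a b (e 1) * kos (lev f) y c d (e 3) +
      kos (lev f) y a b (e 3) * kos (lev f) y c d (e 1)) -
    lv f y 3 * (kos (lev f) y a b (e 0) * kos (lev f) y c d (e 3) +
      kos (lev f) y a b (e 3) * kos (lev f) y c d (e 0) -
      kos (lev f) y a b (e 1) * kos (lev f) y c d (e 2) -
      kos (lev f) y a b (e 2) * kos (lev f) y c d (e 1))) /
      (lv f y 0 * lv f y 1 - lv f y 2 ^ 2 - lv f y 3 ^ 2) := by
  have hk := (hC V _ U (hL.met f U hf)).kosz y hy
  have hd := (hL.det _ (hf.pos y hy)).ne'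
  simp only [← hk, lev_bf hL hf hy]
  rw [← bf_inv]
  exact (mul_div_cancel_left₀ _ hd).symm

end

end RRCT

open RRCT in
theorem rRCT (hCHR : StmtCHR) (hRM : StmtRM) (hLEV : StmtLEV) (_hWD : StmtWD) : StmtRCT := by
  intro ι l f g U hf hg x hx H a b c d
  have t0 : ∀ α, Tendsto (fun i => lv (f i) x α) l (𝓝 (lv g x α)) := H [] (by simp)
  have t1 : ∀ a b u : V, Tendsto (fun i => D u (fun w => lev (f i) w a b) x) l
      (𝓝 (D u (fun w => lev g w a b) x)) := fun a b u => by
    rw [f1' hLEV hg a b u hx]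
    exact Tendsto.congr' (hf.mono fun i hi => (f1' hLEV hi a b u hx).symm)
      (tendsto_finsetSum _ fun α _ => (tendsto_finsetSum _ fun j _ =>
        (H [j] (by simp) α).const_mul _).const_mul _)
  have t2 : ∀ a b u v : V, Tendsto (fun i => D u (D v fun w => lev (f i) w a b) x) l
      (𝓝 (D u (D v fun w => lev g w a b) x)) := fun a b u v => by
    rw [f2 hLEV hg a b u v hx]
    exact Tendsto.congr' (hf.mono fun i hi => (f2 hLEV hi a b u v hx).symm)
      (tendsto_finsetSum _ fun α _ => (tendsto_finsetSum _ fun j _ =>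
        (tendsto_finsetSum _ fun k _ => (H [j, k] (by simp) α).const_mul _).const_mul _).const_mul _)
  have k0 : ∀ a b c : V, Tendsto (fun i => kos (lev (f i)) x a b c) l (𝓝 (kos (lev g) x a b c)) :=
    fun a b c => (((t1 b c a).add (t1 a c b)).sub (t1 a b c)).div_const 2
  have k1 : ∀ a b c u : V, Tendsto (fun i => D u (fun w => kos (lev (f i)) w a b c) x) l
      (𝓝 (D u (fun w => kos (lev g) w a b c) x)) := fun a b c u => by
    rw [fk hLEV hg a b c u hx]
    exact Tendsto.congr' (hf.mono fun i hi => (fk hLEV hi a b c u hx).symm)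
      ((((t2 b c u a).add (t2 a c u b)).sub (t2 a b u c)).div_const 2)
  have c0 : ∀ a b c d : V, Tendsto (fun i => lev (f i) x (chr (lev (f i)) x a b)
      (chr (lev (f i)) x c d)) l (𝓝 (lev g x (chr (lev g) x a b) (chr (lev g) x c d))) :=
    fun a b c d => by
      rw [fc hLEV hg hCHR a b c d hx]
      have m := fun j k => (k0 a b (e j)).mul (k0 c d (e k))
      exact Tendsto.congr' (hf.mono fun i hi => (fc hLEV hi hCHR a b c d hx).symm)
        ((((((t0 1).mul ((m 0 0).add (m 1 1))).add ((t0 0).mul ((m 2 2).add (m 3 3)))).sub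
          ((t0 2).mul ((((m 0 2).add (m 2 0)).add (m 1 3)).add (m 3 1)))).sub
          ((t0 3).mul ((((m 0 3).add (m 3 0)).sub (m 1 2)).sub (m 2 1)))).div
          ((((t0 0).mul (t0 1)).sub ((t0 2).pow 2)).sub ((t0 3).pow 2))
          (hLEV.det _ (hg.pos x hx)).ne')
  have fm : ∀ {f : V → ℝ}, KP f U → _ := fun hf =>
    (hRM V _ U (hLEV.met _ U hf) (hCHR V _ U (hLEV.met _ U hf))).form x hx a b c d
  rw [fm hg]
  exact Tendsto.congr' (hf.mono fun i hi => (fm hi).symm)
    ((((k1 b c d a).sub (k1 a c d b)).sub (c0 b c a d)).add (c0 a c b d))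

end

end Pool.Agent.MP_67f0e4_gt.H
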