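import Pool.Agent.MP_67f0e4_gt.H.Spec

/-! Row RM: the symmetries of the curvature tensor. -/

open scoped ContDiff Topology
open Filter Set

namespace Pool.Agent.MP_67f0e4_gt.H

open K

namespace RRM

variable {E : Type} [NormedAddCommGroup E] [NormedSpace ℝ E]

omit [NormedAddCommGroup E] [NormedSpace ℝ E] in
theorem pair_of (r : E → E → E → E → ℝ) (h1 : ∀ a b c d, r a b c d = -r b a c d)
    (h2 : ∀ a b c d, r a b c d = -r a b d c)
    (h3 : ∀ a b c d, r a b c d + r b c a d + r c a b d = 0) (a b c d : E) :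
    r a b c d = r c d a b := by
  linarith [h3 a d b c, h3 d b c a, h3 b c a d, h3 c a d b, h2 a d b c, h2 d b a c, h2 b c d a,
    h2 c a b d, h1 b a d c, h2 a b d c, h1 c d b a, h2 d c b a, h1 d c a b]

theorem DD_symm {f : E → ℝ} {y : E} (hf : ContDiffAt ℝ ∞ f y) (a b : E) :
    D a (D b f) y = D b (D a f) y := by
  have h0 : (2 : WithTop ℕ∞) ≤ ∞ := WithTop.coe_le_coe.2 (le_top : (2 : ℕ∞) ≤ ⊤)
  have h1 : DifferentiableAt ℝ (fderiv ℝ f) y :=
    (hf.fderiv_right (m := 1) (one_add_one_eq_two (R := WithTop ℕ∞) ▸ h0)).differentiableAt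
      one_ne_zero
  have h2 : ∀ a b, D a (D b f) y = fderiv ℝ (fderiv ℝ f) y a b := fun a b => by
    change fderiv ℝ (fun x => fderiv ℝ f x b) y a = _
    rw [fderiv_clm_apply h1 (differentiableAt_const b)]
    simp
  rw [h2, h2]
  exact hf.isSymmSndFDerivAt (by rwa [minSmoothness_of_isRCLikeNormedField]) a b

theorem app2 {F : Type} [NormedAddCommGroup F] [NormedSpace ℝ F] {C : E → E →L[ℝ] E →L[ℝ] F}
    {f : E → F} {y b c : E} (hC : DifferentiableAt ℝ C y) (hf : f =ᶠ[𝓝 y] fun w => C w b c)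
    (a : E) : fderiv ℝ f y a = fderiv ℝ C y a b c := by
  rw [hf.fderiv_eq, ((hC.hasFDerivAt.clm_apply (hasFDerivAt_const b y)).clm_apply
    (hasFDerivAt_const c y)).fderiv]
  simp

end RRM

open RRM in
theorem rRM : StmtRM := by
  intro E _ _ _ h U hM hC
  obtain ⟨G, C, sG, sC, hGC⟩ := hC.bund
  have ev : ∀ y ∈ U, ∀ᶠ w in 𝓝 y, w ∈ U := fun y hy => hM.opn.mem_nhds hy
  have dG : ∀ y ∈ U, DifferentiableAt ℝ G y := fun y hy =>
    (sG.contDiffAt (ev y hy)).differentiableAt (by simp)
  have dC : ∀ y ∈ U, DifferentiableAt ℝ C y := fun y hy =>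
    (sC.contDiffAt (ev y hy)).differentiableAt (by simp)
  have hG : ∀ y ∈ U, ∀ a b, h y a b = G y a b := fun y hy a b => (hGC y hy a b).1
  have hc : ∀ y ∈ U, ∀ a b, chr h y a b = C y a b := fun y hy a b => (hGC y hy a b).2
  have f1 : ∀ y ∈ U, ∀ a b c, fderiv ℝ (fun w => chr h w b c) y a = fderiv ℝ C y a b c :=
    fun y hy a b c => app2 (dC y hy) ((ev y hy).mono fun w hw => hc w hw b c) a
  have f2 : ∀ y ∈ U, ∀ a b c, rm h y a b c = fderiv ℝ C y a b c - fderiv ℝ C y b a c +
      C y a (C y b c) - C y b (C y a c) := fun y hy a b c => by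
    simp only [rm, f1 y hy, hc y hy]
  have f3 : ∀ y ∈ U, ∀ a b c, fderiv ℝ C y a b c = fderiv ℝ C y a c b := fun y hy a b c => by
    rw [← f1 y hy]
    exact app2 (dC y hy) ((ev y hy).mono fun w hw => (hC.symm w hw b c).trans (hc w hw c b)) a
  have f4 : ∀ y ∈ U, ∀ a b, C y a b = C y b a := fun y hy a b => by
    rw [← hc y hy, ← hc y hy, hC.symm y hy]
  have f5 : ∀ y ∈ U, ∀ a b c, fderiv ℝ G y a b c = G y (C y a b) c + G y b (C y a c) :=
    fun y hy a b c => by
      rw [← app2 (dG y hy) ((ev y hy).mono fun w hw => hG w hw b c) a, ← hc y hy, ← hc y hy,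
        ← hG y hy, ← hG y hy]
      exact hC.compat y hy a b c
  have f6 : ∀ y ∈ U, ∀ b c d, DifferentiableAt ℝ (fun w => kos h w b c d) y ∧ ∀ a,
      D a (fun w => kos h w b c d) y = G y (C y a (C y b c)) d + G y (C y b c) (C y a d) +
        G y (fderiv ℝ C y a b c) d := fun y hy b c d => by
    have e1 : (fun w => kos h w b c d) =ᶠ[𝓝 y] fun w => G w (C w b c) d :=
      (ev y hy).mono fun w hw => by
        change kos h w b c d = G w (C w b c) d
        rw [← hC.kosz w hw, hG w hw, hc w hw]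
    have e2 := (((dG y hy).hasFDerivAt.clm_apply (((dC y hy).hasFDerivAt.clm_apply
      (hasFDerivAt_const b y)).clm_apply (hasFDerivAt_const c y))).clm_apply
        (hasFDerivAt_const d y)).congr_of_eventuallyEq e1
    refine ⟨e2.differentiableAt, fun a => ?_⟩
    rw [← f5 y hy, D, e2.fderiv]
    simp [add_comm]
  have anti : ∀ y ∈ U, ∀ a b c, rm h y a b c = -rm h y b a c := fun y hy a b c => by
    rw [f2 y hy, f2 y hy]
    abel
  have bian : ∀ y ∈ U, ∀ a b c, rm h y a b c + rm h y b c a + rm h y c a b = 0 :=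
    fun y hy a b c => by
      rw [f2 y hy, f2 y hy, f2 y hy, f3 y hy a c b, f3 y hy b c a, f3 y hy c b a, f4 y hy c b,
        f4 y hy c a, f4 y hy b a]
      abel
  have form : ∀ y ∈ U, ∀ a b c d, h y (rm h y a b c) d =
      D a (fun w => kos h w b c d) y - D b (fun w => kos h w a c d) y
        - h y (chr h y b c) (chr h y a d) + h y (chr h y a c) (chr h y b d) :=
    fun y hy a b c d => by
      simp only [(f6 y hy _ _ _).2, f2 y hy, hG y hy, hc y hy, map_add, map_sub, add_apply,
        sub_apply]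
      ring
  have f7 : ∀ y ∈ U, ∀ a b c d, D a (fun w => kos h w b c d) y + D a (fun w => kos h w b d c) y =
      D a (D b fun w => h w c d) y := fun y hy a b c d => by
    have e1 : (D b fun w => h w c d) =ᶠ[𝓝 y] fun w => kos h w b c d + kos h w b d c :=
      (ev y hy).mono fun w hw => by
        change _ = kos h w b c d + kos h w b d c
        rw [hC.compat w hw, hM.symm w hw c, hC.kosz w hw, hC.kosz w hw]
    change _ = fderiv ℝ _ y a
    rw [e1.fderiv_eq, fderiv_fun_add (f6 y hy b c d).1 (f6 y hy b d c).1]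
    rfl
  have skew : ∀ y ∈ U, ∀ a b c d, h y (rm h y a b c) d = -h y (rm h y a b d) c :=
    fun y hy a b c d => by
      rw [form y hy, form y hy]
      linarith [f7 y hy a b c d, f7 y hy b a c d,
        DD_symm ((hM.sm c d).contDiffAt (ev y hy)) a b,
        hM.symm y hy (chr h y b c) (chr h y a d), hM.symm y hy (chr h y a c) (chr h y b d)]
  refine ⟨fun y hy => ?_, anti, bian, skew, fun y hy => pair_of
    (fun a b c d => h y (rm h y a b c) d) (fun a b c d => ?_) (skew y hy) fun a b c d => ?_,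
    form, fun y _ b c L hL => ?_⟩
  · let Q := (ContinuousLinearMap.compL ℝ E E E).bilinearComp (C y) (C y)
    refine ⟨fderiv ℝ C y - (fderiv ℝ C y).flip + Q - Q.flip, fun a b c => ?_⟩
    rw [f2 y hy]
    simp [Q]
  · rw [anti y hy, hG y hy, hG y hy, map_neg, neg_apply]
  · rw [hG y hy, hG y hy, hG y hy, ← add_apply, ← add_apply, ← map_add, ← map_add, bian y hy,
      map_zero, zero_apply]
  · rw [LinearMap.trace_eq_matrix_trace ℝ (Module.finBasis ℝ E), ric, Matrix.trace]
    exact Finset.sum_congr rfl fun i _ => by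
      rw [Matrix.diag_apply, LinearMap.toMatrix_apply, hL]

end Pool.Agent.MP_67f0e4_gt.H
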