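import Pool.Agent.MP_67f0e4_gt.H.Spec
import Pool.Agent.MP_67f0e4_gt.B.Kit
import Pool.Agent.MP_67f0e4_gt.B.RELL
import Pool.Agent.MP_67f0e4_gt.B.REXB
import Pool.Agent.MP_67f0e4_gt.B.REXD
import Pool.Agent.MP_67f0e4_gt.B.REQ0
import Pool.Agent.MP_67f0e4_gt.B.REQS
import Pool.Agent.MP_67f0e4_gt.B.RTIME

/-! Row ST: space-time bounds from spatial bounds. -/

open scoped ContDiff Topology
open Filter Set Metric

namespace Pool.Agent.MP_67f0e4_gt.H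

open K

namespace RST

theorem nice {J : Set ℝ} (hJ : IsOpen J) : B.Nice J :=
  ⟨hJ.uniqueDiffOn, by rw [hJ.interior_eq]; exact subset_closure⟩

theorem eqn (l : List (Fin 4)) : B.EQ l :=
  B.eq_all (B.eq0 B.kit B.ell B.exb (B.exd B.kit B.ell)) (B.eqs B.kit B.exb (B.exd B.kit B.ell)) l

end RST

theorem rST (hLEV : StmtLEV) (hDT : StmtDT) : StmtST := by
  intro ι l φ w J U δ hJ hU hδ hP hlow hb α k
  have _ := hLEV
  have _ := hDT
  obtain ⟨k', hk'⟩ := B.time_bd B.kit B.ell B.exb (B.exd B.kit B.ell) RST.eqn k (.jet α [])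
  obtain ⟨M, hM⟩ := hb k'
  obtain ⟨C, hC⟩ := hk' (max δ⁻¹ M)
  refine ⟨C, ?_⟩
  filter_upwards [hP, hlow, hM] with i h1 h2 h3
  rintro ⟨t, x⟩ ⟨ht, hx⟩
  have h4 : δ ≤ hdet (lv (φ i t) x) := h2 t ht x hx
  have key : ‖iteratedFDerivWithin ℝ k (fun q : ℝ × V => lv (φ i q.1) q.2 α) (J ×ˢ U) (t, x)‖ ≤ C := by
    refine hC J U (φ i) (w i) (RST.nice hJ) hU h1 t ht x hx ?_ fun β l h => ?_
    · rw [abs_of_pos (inv_pos.2 (hδ.trans_le h4))]
      exact (inv_anti₀ hδ h4).trans (le_max_left _ _)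
    · exact (h3 t ht l h β x hx).trans (le_max_right _ _)
  rwa [iteratedFDerivWithin_of_isOpen k (hJ.prod hU) (show (t, x) ∈ J ×ˢ U from ⟨ht, hx⟩)] at key

end Pool.Agent.MP_67f0e4_gt.H
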