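import Pool.Agent.MP_67f0e4_gt.H.Spec

/-! Row TENS: curvature is a tensor. -/

open scoped ContDiff Topology
open Filter Set

namespace Pool.Agent.MP_67f0e4_gt.H

open K

namespace RTENS

variable {E E' Z : Type} [NormedAddCommGroup E] [NormedSpace ℝ E] [NormedAddCommGroup E']
  [NormedSpace ℝ E'] [NormedAddCommGroup Z] [NormedSpace ℝ Z]

lemma d1 {A : E → E' →L[ℝ] Z} {B : E →L[ℝ] E' →L[ℝ] Z} {y : E} (hA : HasFDerivAt A B y)
    (b : E') : HasFDerivAt (fun w => A w b) (B.flip b) y := by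
  simpa using hA.clm_apply (hasFDerivAt_const b y)

lemma d2 {G : E → E →L[ℝ] E →L[ℝ] Z} {g : E → E → E → Z} {U : Set E} (hU : IsOpen U)
    (hG : ContDiffOn ℝ ∞ G U) (h : ∀ y ∈ U, ∀ a b, g y a b = G y a b) {y : E} (hy : y ∈ U)
    (a b c : E) : fderiv ℝ (fun w => g w b c) y a = fderiv ℝ G y a b c := by
  have h1 := ((hG.contDiffAt (hU.mem_nhds hy)).differentiableAt (by simp)).hasFDerivAt
  have h2 : (fun w => g w b c) =ᶠ[𝓝 y] fun w => G w b c :=
    mem_of_superset (hU.mem_nhds hy) fun w hw => h w hw b c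
  rw [h2.fderiv_eq, (d1 (d1 h1 b) c).fderiv]
  rfl

lemma d3 {G : E → E →L[ℝ] E →L[ℝ] Z} {G' : E →L[ℝ] E →L[ℝ] E →L[ℝ] Z} {T : E' → E}
    {A : E' → E' →L[ℝ] E} {B : E' →L[ℝ] E' →L[ℝ] E} {y : E'} (hG : HasFDerivAt G G' (T y))
    (hT : HasFDerivAt T (A y) y) (hA : HasFDerivAt A B y) (b c : E') :
    ∃ L : E' →L[ℝ] Z, HasFDerivAt (fun w => G (T w) (A w b) (A w c)) L y ∧ ∀ a, L a =
      G' (A y a) (A y b) (A y c) + G (T y) (B a b) (A y c) + G (T y) (A y b) (B a c) := by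
  refine ⟨_, ((hG.comp y hT).clm_apply (d1 hA b)).clm_apply (d1 hA c), fun a => ?_⟩
  simp only [add_apply, ContinuousLinearMap.comp_apply,
    ContinuousLinearMap.flip_apply]
  abel

end RTENS

open RTENS in
theorem rTENS (hCHR : StmtCHR) (hRM : StmtRM) : StmtTENS := by
  intro E E' _ _ _ _ _ _ h U h' U' T hm hU' hT hmap hbij hh
  have cf := hCHR E h U hm
  obtain ⟨G, C, hG, hC, hGC⟩ := cf.bund
  have hA : ContDiffOn ℝ ∞ (fderiv ℝ T) U' := hT.fderiv_of_isOpen hU' (by simp)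
  have hB : ContDiffOn ℝ ∞ (fderiv ℝ (fderiv ℝ T)) U' := hA.fderiv_of_isOpen hU' (by simp)
  have hG' : ∀ y ∈ U', ∀ a b, h' y a b = G (T y) (fderiv ℝ T y a) (fderiv ℝ T y b) :=
    fun y hy a b => (hh y hy a b).trans (hGC _ (hmap hy) _ _).1
  have hm' : MetOn h' U' := by
    refine ⟨hU', fun y hy a => ⟨fun b c => ?_, fun r b => ?_⟩, fun y hy a b => ?_,
      fun y hy a ha => ?_, fun a b => ?_⟩
    · simp only [hG' y hy, map_add]
    · simp only [hG' y hy, map_smul]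
    · rw [hh y hy, hh y hy, hm.symm _ (hmap hy)]
    · rw [hh y hy]
      exact hm.pos _ (hmap hy) _ fun h0 => ha ((hbij y hy).1 (h0.trans (map_zero _).symm))
    · exact (((hG.comp hT hmap).clm_apply (hA.clm_apply contDiffOn_const)).clm_apply
        (hA.clm_apply contDiffOn_const)).congr fun y hy => hG' y hy a b
  have cf' := hCHR E' h' U' hm'
  obtain ⟨G', C', -, hC', hGC'⟩ := cf'.bund
  have two : (minSmoothness ℝ 2 : WithTop ℕ∞) ≤ ∞ := by
    rw [minSmoothness_of_isRCLikeNormedField]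
    exact WithTop.coe_le_coe.2 (le_top : (2 : ℕ∞) ≤ ⊤)
  have dT : ∀ y ∈ U', HasFDerivAt T (fderiv ℝ T y) y := fun y hy =>
    ((hT.contDiffAt (hU'.mem_nhds hy)).differentiableAt (by simp)).hasFDerivAt
  have dA : ∀ y ∈ U', HasFDerivAt (fderiv ℝ T) (fderiv ℝ (fderiv ℝ T) y) y := fun y hy =>
    ((hA.contDiffAt (hU'.mem_nhds hy)).differentiableAt (by simp)).hasFDerivAt
  have sB : ∀ y ∈ U', ∀ a b, fderiv ℝ (fderiv ℝ T) y a b = fderiv ℝ (fderiv ℝ T) y b a :=
    fun y hy => (hT.contDiffAt (hU'.mem_nhds hy)).isSymmSndFDerivAt two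
  have law : ∀ y ∈ U', ∀ a b, fderiv ℝ T y (C' y a b) =
      C (T y) (fderiv ℝ T y a) (fderiv ℝ T y b) + fderiv ℝ (fderiv ℝ T) y a b := by
    intro y hy a b
    have hy' := hmap hy
    have dG := ((hG.contDiffAt (hm.opn.mem_nhds hy')).differentiableAt (by simp)).hasFDerivAt
    have sG : ∀ a b, G (T y) a b = G (T y) b a := fun a b => by
      rw [← (hGC _ hy' a b).1, ← (hGC _ hy' b a).1, hm.symm _ hy']
    have e1 : ∀ a b c, D a (fun w => h' w b c) y =
        D (fderiv ℝ T y a) (fun w => h w (fderiv ℝ T y b) (fderiv ℝ T y c)) (T y) +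
          G (T y) (fderiv ℝ (fderiv ℝ T) y a b) (fderiv ℝ T y c) +
          G (T y) (fderiv ℝ (fderiv ℝ T) y a c) (fderiv ℝ T y b) := fun a b c => by
      obtain ⟨L, hL, hL'⟩ := d3 dG (dT y hy) (dA y hy) b c
      have h2 : (fun w => h' w b c) =ᶠ[𝓝 y] _ :=
        mem_of_superset (hU'.mem_nhds hy) fun w hw => hG' w hw b c
      rw [D, D, h2.fderiv_eq, hL.fderiv, hL', d2 hm.opn hG (fun y hy a b => (hGC y hy a b).1) hy',
        sG (fderiv ℝ T y b) (fderiv ℝ (fderiv ℝ T) y a c)]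
    have e2 : ∀ c, G (T y) (fderiv ℝ T y (C' y a b) - (C (T y) (fderiv ℝ T y a) (fderiv ℝ T y b) +
        fderiv ℝ (fderiv ℝ T) y a b)) (fderiv ℝ T y c) = 0 := fun c => by
      have k1 := cf'.kosz y hy a b c
      have k2 := cf.kosz _ hy' (fderiv ℝ T y a) (fderiv ℝ T y b) (fderiv ℝ T y c)
      rw [hG' y hy, (hGC' y hy a b).2, kos, e1, e1, e1, sB y hy b a, sB y hy c a,
        sB y hy c b] at k1
      rw [(hGC _ hy' _ _).1, (hGC _ hy' _ _).2, kos] at k2
      rw [map_sub, map_add, sub_apply, add_apply]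
      linarith
    by_contra hne
    obtain ⟨c, hc⟩ := (hbij y hy).2 (fderiv ℝ T y (C' y a b) -
      (C (T y) (fderiv ℝ T y a) (fderiv ℝ T y b) + fderiv ℝ (fderiv ℝ T) y a b))
    have e3 := hm.pos _ hy' _ (sub_ne_zero.2 hne)
    have e4 := e2 c
    rw [hc, ← (hGC _ hy' _ _).1] at e4
    exact e3.ne' e4
  have main : ∀ y ∈ U', ∀ a b c, fderiv ℝ T y (rm h' y a b c) =
      rm h (T y) (fderiv ℝ T y a) (fderiv ℝ T y b) (fderiv ℝ T y c) := by
    intro y hy
    have hy' := hmap hy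
    have dC := ((hC.contDiffAt (hm.opn.mem_nhds hy')).differentiableAt (by simp)).hasFDerivAt
    have dC' := ((hC'.contDiffAt (hU'.mem_nhds hy)).differentiableAt (by simp)).hasFDerivAt
    have dB := ((hB.contDiffAt (hU'.mem_nhds hy)).differentiableAt (by simp)).hasFDerivAt
    have sC := (hA.contDiffAt (hU'.mem_nhds hy)).isSymmSndFDerivAt two
    have e1 : ∀ a b c, fderiv ℝ T y (fderiv ℝ C' y a b c) =
        fderiv ℝ C (T y) (fderiv ℝ T y a) (fderiv ℝ T y b) (fderiv ℝ T y c) +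
          C (T y) (fderiv ℝ (fderiv ℝ T) y a b) (fderiv ℝ T y c) +
          C (T y) (fderiv ℝ T y b) (fderiv ℝ (fderiv ℝ T) y a c) +
          fderiv ℝ (fderiv ℝ (fderiv ℝ T)) y a b c - fderiv ℝ (fderiv ℝ T) y a (C' y b c) := by
      intro a b c
      obtain ⟨L, hL, hL'⟩ := d3 dC (dT y hy) (dA y hy) b c
      have h1 := (dA y hy).clm_apply (d1 (d1 dC' b) c)
      have h2 := (hL.add (d1 (d1 dB b) c)).congr_of_eventuallyEq
        (mem_of_superset (hU'.mem_nhds hy) fun w hw => law w hw b c)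
      have h3 := congrArg (fun M => M a) (h1.unique h2)
      simp only [add_apply, ContinuousLinearMap.comp_apply,
        ContinuousLinearMap.flip_apply, hL'] at h3
      exact eq_sub_of_add_eq h3
    intro a b c
    have r1 := fun y hy a b => (hGC y hy a b).2
    have r2 := fun y hy a b => (hGC' y hy a b).2
    rw [rm, rm, d2 hU' hC' r2 hy, d2 hU' hC' r2 hy, d2 hm.opn hC r1 hy', d2 hm.opn hC r1 hy']
    simp only [r1 _ hy', r2 y hy, map_add, map_sub, e1, law y hy]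
    rw [sC a b, sB y hy b a]
    abel
  refine ⟨hm', fun y hy => ⟨main y hy, fun b c => ?_⟩⟩
  obtain ⟨R, hR⟩ := (hRM E' h' U' hm' cf').bund y hy
  let ε : E' ≃ₗ[ℝ] E := LinearEquiv.ofBijective (fderiv ℝ T y).toLinearMap (hbij y hy)
  rw [(hRM E' h' U' hm' cf').trace y hy b c ((R.flip b).flip c).toLinearMap
      fun a => (hR a b c).symm,
    (hRM E h U hm cf).trace _ (hmap hy) _ _ (ε.conj ((R.flip b).flip c).toLinearMap) fun a => ?_,
    LinearMap.trace_conj']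
  obtain ⟨a, rfl⟩ := ε.surjective a
  rw [LinearEquiv.conj_apply_apply, LinearEquiv.symm_apply_apply]
  exact (congrArg (fderiv ℝ T y) (hR a b c).symm).trans (main y hy a b c)

end Pool.Agent.MP_67f0e4_gt.H
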