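import Pool.Agent.MP_67f0e4_gt.H.Spec

/-! Transfer of the metric and of the curvature to a holomorphic parametrisation. -/

open scoped ContDiff Topology Manifold
open Filter Set

namespace Pool.Agent.MP_67f0e4_gt.H

open K

namespace RTR

variable {X : Set C3} [ChartedSpace E4 X] {ι : E4 ≃L[ℝ] V}

theorem mem (p : X) {u : E4} (hu : u ∈ (chartAt E4 p).target) :
    ι u ∈ ι.symm ⁻¹' (chartAt E4 p).target := by
  rwa [mem_preimage, ι.symm_apply_apply]

theorem cn_eq (p : X) (u : E4) : cN ι p (ι u) = ((chartAt E4 p).symm u : X) := by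
  rw [cN, ι.symm_apply_apply]

theorem smooth (hA : Atl X ι) (p : X) {u : E4} (hu : u ∈ (chartAt E4 p).target) :
    ContDiffAt ℝ ∞ (fun w => cN ι p (ι w)) u :=
  (((hA.par p).hol.contDiffAt ((hA.par p).op.mem_nhds (mem p hu))).restrict_scalars ℝ).comp u
    ι.contDiff.contDiffAt

theorem inj (hA : Atl X ι) (p : X) {u : E4} (hu : u ∈ (chartAt E4 p).target) :
    Function.Injective (fderiv ℝ (fun w => cN ι p (ι w)) u) := by
  have h1 : DifferentiableAt ℂ (cN ι p) (ι u) :=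
    ((hA.par p).hol.contDiffAt ((hA.par p).op.mem_nhds (mem p hu))).differentiableAt (by simp)
  have h2 := (h1.hasFDerivAt.restrictScalars ℝ).comp u ι.hasFDerivAt
  have h3 : fderiv ℝ (fun w => cN ι p (ι w)) u = _ := h2.fderiv
  rw [h3]
  exact ((hA.par p).inj _ (mem p hu)).comp ι.injective

/-- The change of coordinates. -/
theorem change (hA : Atl X ι) {N : V → C3} {U : Set V} (hN : Par X N U) {x : V} (hx : x ∈ U)
    (p : X) (hp : N x = p) : ∃ (T : E4 → V) (U' : Set E4), IsOpen U' ∧ chartAt E4 p p ∈ U' ∧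
      T (chartAt E4 p p) = x ∧ ContDiffOn ℝ ∞ T U' ∧ MapsTo T U' U ∧
      (∀ u ∈ U', Function.Bijective (fderiv ℝ T u)) ∧
      ∀ u ∈ U', N (T u) = ((chartAt E4 p).symm u : X) := by
  obtain ⟨R, hR, h1, h2⟩ := hA.surf.2 N U hN x hx
  have h0 := mem_chart_target E4 p
  have e0 : cN ι p (ι (chartAt E4 p p)) = N x := by
    rw [cn_eq, (chartAt E4 p).left_inv (mem_chart_source E4 p), hp]
  let T : E4 → V := fun u => R (cN ι p (ι u))
  have eT : T (chartAt E4 p p) = x := by
    simp only [T, e0]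
    exact h1.self_of_nhds
  have cT : ContDiffAt ℝ ∞ T (chartAt E4 p p) :=
    ContDiffAt.comp (g := R) (f := fun w => cN ι p (ι w)) _
      (e0.symm ▸ hR.restrict_scalars ℝ) (smooth hA p h0)
  have t1 : Tendsto (fun w => cN ι p (ι w)) (𝓝 (chartAt E4 p p)) (𝓝[X] (N x)) :=
    tendsto_nhdsWithin_iff.2 ⟨e0 ▸ (smooth hA p h0).continuousAt.tendsto,
      Eventually.of_forall fun w => ((chartAt E4 p).symm (ι.symm (ι w))).2⟩
  have ev : ∀ᶠ u in 𝓝 (chartAt E4 p p), u ∈ (chartAt E4 p).target ∧ T u ∈ U ∧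
      N (T u) = cN ι p (ι u) ∧ ContinuousAt T u := by
    filter_upwards [(chartAt E4 p).open_target.mem_nhds h0,
      cT.continuousAt.eventually (hN.op.mem_nhds (eT.symm ▸ hx)), t1.eventually h2,
      (cT.of_le (m := 1) (by simp)).eventually (by simp)] with u u1 u2 u3 u4
    exact ⟨u1, u2, u3, u4.continuousAt⟩
  obtain ⟨U', hU, hO, hu0⟩ := eventually_nhds_iff.1 ev
  have sm : ∀ u ∈ U', ContDiffAt ℝ ∞ T u := fun u hu => by
    obtain ⟨u1, u2, u3, u4⟩ := hU u hu
    obtain ⟨R', hR', h1', -⟩ := hA.surf.2 N U hN _ u2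
    have c1 : ContDiffAt ℝ ∞ (fun w => R' (cN ι p (ι w))) u :=
      ContDiffAt.comp (g := R') (f := fun w => cN ι p (ι w)) _
        (u3 ▸ hR'.restrict_scalars ℝ) (smooth hA p u1)
    refine c1.congr_of_eventuallyEq ?_
    filter_upwards [u4.eventually h1', hO.mem_nhds hu] with w w1 w2
    rw [← (hU w w2).2.2.1, w1]
  refine ⟨T, U', hO, hu0, eT, fun u hu => (sm u hu).contDiffWithinAt,
    fun u hu => (hU u hu).2.1, fun u hu => ?_, fun u hu => (hU u hu).2.2.1.trans (cn_eq p u)⟩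
  obtain ⟨u1, u2, -, -⟩ := hU u hu
  have d1 : DifferentiableAt ℝ N (T u) :=
    ((hN.hol.contDiffAt (hN.op.mem_nhds u2)).restrict_scalars ℝ).differentiableAt (by simp)
  have d2 := d1.hasFDerivAt.comp u ((sm u hu).differentiableAt (by simp)).hasFDerivAt
  have d3 : fderiv ℝ (fun w => cN ι p (ι w)) u = _ :=
    (d2.congr_of_eventuallyEq (by
      filter_upwards [hO.mem_nhds hu] with w w2
      exact (hU w w2).2.2.1.symm)).fderiv
  have i1 := inj hA p u1
  rw [d3] at i1
  have i2 : Function.Injective (fderiv ℝ T u) := Function.Injective.of_comp i1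
  exact ⟨i2, (LinearMap.injective_iff_surjective_of_finrank_eq_finrank
    (f := (fderiv ℝ T u : E4 →ₗ[ℝ] V)) ι.toLinearEquiv.finrank_eq).1 i2⟩

end RTR

open RTR in
theorem rTR (hLEV : StmtLEV) (hPULL : StmtPULL) (hTENS : StmtTENS) (_hGERM : StmtGERM) :
    StmtTR := by
  intro X _ ι hA
  refine ⟨fun f hf => ?_, fun N U hN x hx p hp => ?_⟩
  · have hm := fun p : X => hLEV.met _ _ (hf _ _ (hA.par p))
    have h0 := fun p : X => mem (ι := ι) p (mem_chart_target E4 p)
    refine ⟨fun p a => ⟨fun b c => ?_, fun r b => ?_⟩, fun p a b => (hm p).symm _ (h0 p) _ _,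
      fun p a ha => (hm p).pos _ (h0 p) _ fun h => ha (ι.map_eq_zero_iff.1 h), fun p a b => ?_⟩
    · simp only [kah, map_add]
      exact ((hm p).lin _ (h0 p) _).map_add _ _
    · simp only [kah, map_smul]
      exact ((hm p).lin _ (h0 p) _).map_smul _ _
    · exact (((hm p).sm (ι a) (ι b)).comp ι.contDiff.contDiffOn fun u hu => mem p hu).congr
        fun u hu => (hPULL X ι hA f hf.sm).2 p u hu a b
  · obtain ⟨T, U', hO, hu0, eT, sm, mp, bij, eq⟩ := change hA hN hx p hp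
    refine ⟨(LinearEquiv.ofBijective (fderiv ℝ T (chartAt E4 p p) : E4 →ₗ[ℝ] V)
      (bij _ hu0)).toContinuousLinearEquiv, fun f hf => ?_⟩
    have key : ∀ y ∈ U', ∀ a b, loc (kah ι f) p y a b =
        lev (f ∘ N) (T y) (fderiv ℝ T y a) (fderiv ℝ T y b) := fun y hy =>
      (hPULL X ι hA f hf.sm).1 _ y N U T hN (mp hy)
        ((sm.contDiffAt (hO.mem_nhds hy)).differentiableAt (by simp))
        (mem_of_superset (hO.mem_nhds hy) eq)
    obtain ⟨h1, h2⟩ := (hTENS V E4 _ U _ U' T (hLEV.met _ _ (hf N U hN)) hO sm mp bij key).2 _ hu0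
    rw [eT] at h1 h2
    refine ⟨fun a b => ?_, h1, h2⟩
    have h3 := key _ hu0 a b
    rw [(hPULL X ι hA f hf.sm).2 p _ (mem_chart_target E4 p), eT] at h3
    exact h3

end Pool.Agent.MP_67f0e4_gt.H
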