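import Pool.Agent.MP_67f0e4_gt.H.Spec

/-! Row WD: words of derivatives and iterated derivatives. -/

open scoped ContDiff Topology
open Filter Set Metric

namespace Pool.Agent.MP_67f0e4_gt.H

open K

namespace RWD

theorem key {g : V → ℝ} {U : Set V} (hU : IsOpen U) (hg : ContDiffOn ℝ ∞ g U) (k : ℕ) :
    ∀ m : Fin k → Fin 4, ∀ y ∈ U,
      DL (List.ofFn m) g y = iteratedFDeriv ℝ k g y fun j => e (m j) := by
  induction k with
  | zero => intro m y _; simp [DL]
  | succ k ih =>
    intro m y hy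
    have h1 : DL (List.ofFn fun j => m j.succ) g =ᶠ[𝓝 y]
        fun z => iteratedFDeriv ℝ k g z fun j => e (m j.succ) :=
      eventually_of_mem (hU.mem_nhds hy) fun z hz => ih _ z hz
    have h2 : DifferentiableAt ℝ (iteratedFDeriv ℝ k g) y :=
      (hg.contDiffAt (hU.mem_nhds hy)).differentiableAt_iteratedFDeriv
        (by exact_mod_cast ENat.natCast_lt_top k)
    rw [List.ofFn_succ, iteratedFDeriv_succ_apply_left, DL, D, h1.fderiv_eq,
      fderiv_continuousMultilinear_apply_const_apply h2]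
    rfl

theorem key' {g : V → ℝ} {U : Set V} (hU : IsOpen U) (hg : ContDiffOn ℝ ∞ g U)
    (l : List (Fin 4)) {y : V} (hy : y ∈ U) :
    DL l g y = iteratedFDeriv ℝ l.length g y fun j => e (l.get j) := by
  rw [← key hU hg l.length l.get y hy, List.ofFn_get]

/-- coordinates -/
def co (v : V) : Fin 4 → ℝ := ![v.1.re, v.1.im, v.2.re, v.2.im]

theorem co_sum (v : V) : v = ∑ i, co v i • e i := by
  refine Prod.ext (Complex.ext ?_ ?_) (Complex.ext ?_ ?_) <;> simp [Fin.sum_univ_four, co, e]

theorem co_le (v : V) (i : Fin 4) : |co v i| ≤ ‖v‖ := by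
  fin_cases i
  · exact (Complex.abs_re_le_norm _).trans (norm_fst_le v)
  · exact (Complex.abs_im_le_norm _).trans (norm_fst_le v)
  · exact (Complex.abs_re_le_norm _).trans (norm_snd_le v)
  · exact (Complex.abs_im_le_norm _).trans (norm_snd_le v)

theorem e_le (i : Fin 4) : ‖e i‖ ≤ 1 := by
  fin_cases i <;> simp [e]

theorem bd {k : ℕ} (T : ContinuousMultilinearMap ℝ (fun _ : Fin k => V) ℝ) (M : ℝ)
    (h : ∀ m : Fin k → Fin 4, |T fun j => e (m j)| ≤ M) : ‖T‖ ≤ 4 ^ k * M := by
  have hM : 0 ≤ M := (abs_nonneg _).trans (h fun _ => 0)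
  refine T.opNorm_le_bound (by positivity) fun v => ?_
  have h1 : T v = ∑ m : Fin k → Fin 4, (∏ j, co (v j) (m j)) • T fun j => e (m j) := by
    have h2 : v = fun j => ∑ i, co (v j) i • e i := funext fun j => co_sum (v j)
    calc T v = T fun j => ∑ i, co (v j) i • e i := congrArg T h2
      _ = ∑ m : Fin k → Fin 4, T fun j => co (v j) (m j) • e (m j) :=
        T.map_sum fun j i => co (v j) i • e i
      _ = _ := Finset.sum_congr rfl fun m _ => T.map_smul_univ _ _
  rw [h1]
  refine (norm_sum_le _ _).trans ?_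
  refine (Finset.sum_le_card_nsmul _ _ (M * ∏ j, ‖v j‖) fun m _ => ?_).trans_eq ?_
  · rw [norm_smul, mul_comm, Real.norm_eq_abs, Real.norm_eq_abs, Finset.abs_prod]
    exact mul_le_mul (h m) (Finset.prod_le_prod (fun _ _ => abs_nonneg _) fun j _ => co_le _ _)
      (Finset.prod_nonneg fun _ _ => abs_nonneg _) hM
  · simp [mul_assoc]

end RWD

theorem rWD : StmtWD := by
  intro g U hU hg x hx
  refine ⟨fun k M h => RWD.bd _ M fun m => ?_, fun l => ?_, fun g' r hg' l => ?_⟩
  · rw [← RWD.key hU hg k m x hx]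
    exact h _ (List.length_ofFn)
  · rw [RWD.key' hU hg l hx, ← Real.norm_eq_abs]
    refine (ContinuousMultilinearMap.le_opNorm _ _).trans (mul_le_of_le_one_right (norm_nonneg _) ?_)
    exact Finset.prod_le_one (fun _ _ => norm_nonneg _) fun _ _ => RWD.e_le _
  · have hk : ((l.length : ℕ) : WithTop ℕ∞) ≤ ∞ := by exact_mod_cast le_top
    have h1 : ContDiffAt ℝ l.length g x := (hg.contDiffAt (hU.mem_nhds hx)).of_le hk
    have h2 : ContDiffAt ℝ l.length g' x := (hg'.contDiffAt (hU.mem_nhds hx)).of_le hk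
    have h3 : (fun y => r * g y - g' y) = r • g - g' := rfl
    rw [RWD.key' hU ((contDiffOn_const.mul hg).sub hg') l hx, RWD.key' hU hg l hx,
      RWD.key' hU hg' l hx, h3,
      iteratedFDeriv_sub_apply (f := r • g) (h1.const_smul r) h2,
      iteratedFDeriv_const_smul_apply h1]
    rfl

end Pool.Agent.MP_67f0e4_gt.H
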