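import Pool.Agent.MP_67f0e4_gt.H.RALE
import Pool.Agent.MP_67f0e4_gt.H.RATL
import Pool.Agent.MP_67f0e4_gt.H.RBLOW
import Pool.Agent.MP_67f0e4_gt.H.RC0
import Pool.Agent.MP_67f0e4_gt.H.RCHR
import Pool.Agent.MP_67f0e4_gt.H.RCPL
import Pool.Agent.MP_67f0e4_gt.H.RCV1
import Pool.Agent.MP_67f0e4_gt.H.RCV2
import Pool.Agent.MP_67f0e4_gt.H.RDT
import Pool.Agent.MP_67f0e4_gt.H.RFL1
import Pool.Agent.MP_67f0e4_gt.H.RFL2
import Pool.Agent.MP_67f0e4_gt.H.RGERM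
import Pool.Agent.MP_67f0e4_gt.H.RINT
import Pool.Agent.MP_67f0e4_gt.H.RKJ
import Pool.Agent.MP_67f0e4_gt.H.RKRIC
import Pool.Agent.MP_67f0e4_gt.H.RKTR
import Pool.Agent.MP_67f0e4_gt.H.RLEV
import Pool.Agent.MP_67f0e4_gt.H.RMAP
import Pool.Agent.MP_67f0e4_gt.H.RNF
import Pool.Agent.MP_67f0e4_gt.H.RPULL
import Pool.Agent.MP_67f0e4_gt.H.RRBD
import Pool.Agent.MP_67f0e4_gt.H.RRCT
import Pool.Agent.MP_67f0e4_gt.H.RRM
import Pool.Agent.MP_67f0e4_gt.H.RSLOW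
import Pool.Agent.MP_67f0e4_gt.H.RST
import Pool.Agent.MP_67f0e4_gt.H.RTENS
import Pool.Agent.MP_67f0e4_gt.H.RTR
import Pool.Agent.MP_67f0e4_gt.H.RWD

/-! Block H assembled. -/

namespace Pool.Agent.MP_67f0e4_gt.H

theorem stmtH : StmtH := by
  have kj := rKJ rCHR rLEV
  have kric := rKRIC rCHR rRM rLEV kj (rKTR rCHR rLEV)
  have nf := rNF rCHR rRM rLEV kj
  have pull := rPULL rLEV
  have tr := rTR rLEV pull (rTENS rCHR rRM) rGERM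
  have cpl := rCPL rLEV rMAP
  have dt := rDT rLEV
  have c0 := rC0 rLEV
  exact main_of rATL rMAP tr (rFL1 rLEV dt pull tr kric)
    (rFL2 rLEV cpl tr (rRBD rCHR rRM rLEV rWD))
    (rBLOW rLEV rGERM tr nf (rRCT rCHR rRM rLEV rWD) rINT rWD c0 rCHR rRM)
    (rCV2 pull c0 (rCV1 rLEV rINT rWD (rST rLEV dt) dt))
    (rALE rLEV rMAP pull tr cpl kric nf)

theorem stmtSLOW : StmtSLOW := rSLOW

end Pool.Agent.MP_67f0e4_gt.H
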