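import Mathlib

open scoped Manifold ContDiff Topology ENNReal NNReal
open Filter Set

namespace Pool.Agent.MP_67f0e4_gt.H

noncomputable section

section General

variable {E : Type} [NormedAddCommGroup E] [NormedSpace ℝ E]

/-! Riemannian geometry in coordinates: `h u a b` is the metric at the coordinate point `u` on the
vectors `a`, `b`. -/

/-- Christoffel symbols: the vector `Γ` with `2 h(Γ, c) = ∂_a h(b, c) + ∂_b h(a, c) - ∂_c h(a, b)`
for all `c` (it exists and is unique for a metric). -/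
def chr (h : E → E → E → ℝ) (u a b : E) : E :=
  Classical.epsilon fun Γ : E => ∀ c : E, 2 * h u Γ c =
    fderiv ℝ (fun y => h y b c) u a + fderiv ℝ (fun y => h y a c) u b
      - fderiv ℝ (fun y => h y a b) u c

/-- Curvature tensor `R(a, b) c = ∇_a ∇_b c - ∇_b ∇_a c` on constant coordinate fields. -/
def rm (h : E → E → E → ℝ) (u a b c : E) : E :=
  fderiv ℝ (fun y => chr h y b c) u a - fderiv ℝ (fun y => chr h y a c) u b
    + chr h u a (chr h u b c) - chr h u b (chr h u a c)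

/-- Ricci tensor: the trace of `a ↦ R(a, b) c`. -/
def ric [FiniteDimensional ℝ E] (h : E → E → E → ℝ) (u b c : E) : ℝ :=
  ∑ i, (Module.finBasis ℝ E).repr (rm h u (Module.finBasis ℝ E i) b c) i

/-! Manifolds modelled on `E`. As in Mathlib the tangent space at `x` is `E`, read in the chart at
`x`; `g x a b` is the value of a two tensor `g` at `x` on the tangent vectors `a`, `b`. -/

variable {M N : Type} [TopologicalSpace M] [ChartedSpace E M] [TopologicalSpace N] [ChartedSpace E N]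

/-- The differential of `F` at `x`. -/
def dif (F : N → M) (x : N) (a : E) : E := mfderiv 𝓘(ℝ, E) 𝓘(ℝ, E) F x a

/-- Pull back of a two tensor. -/
def pull (g : M → E → E → ℝ) (F : N → M) (x : N) (a b : E) : ℝ := g (F x) (dif F x a) (dif F x b)

/-- The coordinate expression of `g` in the chart at `p`. -/
def loc (g : M → E → E → ℝ) (p : M) : E → E → E → ℝ := pull g (chartAt E p).symm

/-- A smooth Riemannian metric. -/
structure IsMetric (g : M → E → E → ℝ) : Prop where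
  linear : ∀ x a, IsLinearMap ℝ (g x a)
  symm : ∀ x a b, g x a b = g x b a
  pos : ∀ x a, a ≠ 0 → 0 < g x a a
  smooth : ∀ p a b, ContDiffOn ℝ ∞ (fun u => loc g p u a b) (chartAt E p).target

/-- The curvature tensor of `g` at the point `x`. -/
def Rm (g : M → E → E → ℝ) (x : M) (a b c : E) : E := rm (loc g x) (chartAt E x x) a b c

/-- The Ricci tensor of `g` at the point `x`. -/
def Ric [FiniteDimensional ℝ E] (g : M → E → E → ℝ) (x : M) (b c : E) : ℝ :=
  ric (loc g x) (chartAt E x x) b c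

/-- `sup_M |Rm|`, where `|Rm|(x)` is the maximum of `|g(R(a,b)c,d)|` over vectors of length `≤ 1`. -/
def supRm (g : M → E → E → ℝ) : ℝ≥0∞ :=
  ⨆ (x : M) (a : E) (b : E) (c : E) (d : E)
    (_ : g x a a ≤ 1 ∧ g x b b ≤ 1 ∧ g x c c ≤ 1 ∧ g x d d ≤ 1),
    ENNReal.ofReal |g x (Rm g x a b c) d|

variable (E) in
/-- The velocity of a curve. -/
def vel (γ : ℝ → M) (s : ℝ) : E := mfderiv 𝓘(ℝ, ℝ) 𝓘(ℝ, E) γ s (1 : ℝ)

/-- The length of `γ` on `[0, 1]`. -/
def len (g : M → E → E → ℝ) (γ : ℝ → M) : ℝ≥0∞ :=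
  ∫⁻ s in Ioo (0 : ℝ) 1, ENNReal.ofReal (√(g (γ s) (vel E γ s) (vel E γ s)))

/-- The Riemannian distance. -/
def rdist (g : M → E → E → ℝ) (x y : M) : ℝ≥0∞ :=
  ⨅ (γ : ℝ → M) (_ : ContMDiffOn 𝓘(ℝ, ℝ) 𝓘(ℝ, E) 1 γ (Icc 0 1) ∧ γ 0 = x ∧ γ 1 = y), len g γ

/-- Completeness, in the Heine-Borel form of the Hopf-Rinow theorem: every ball of finite radius
lies in a compact set. -/
def Complete (g : M → E → E → ℝ) : Prop :=
  ∀ (x : M) (r : ℝ≥0), ∃ K : Set M, IsCompact K ∧ ∀ y, rdist g x y < r → y ∈ K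

/-- A smooth complete Ricci flow on `[0, T)` with bounded curvature on each `[0, t']`, `t' < T`,
whose curvature blows up at `T`. -/
structure IsSingularFlow [FiniteDimensional ℝ E] (T : ℝ) (g : ℝ → M → E → E → ℝ) : Prop where
  pos : 0 < T
  metric : ∀ t ∈ Ico 0 T, IsMetric (g t)
  smooth : ∀ p a b, ContDiffOn ℝ ∞ (fun z : ℝ × E => loc (g z.1) p z.2 a b)
    (Ico 0 T ×ˢ (chartAt E p).target)
  flow : ∀ t ∈ Ico 0 T, ∀ x a b,
    HasDerivWithinAt (fun s => g s x a b) (-2 * Ric (g t) x a b) (Ico 0 T) t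
  complete : ∀ t ∈ Ico 0 T, Complete (g t)
  bounded : ∀ t' < T, ∃ C : ℝ≥0, ∀ t ∈ Icc 0 t', supRm (g t) ≤ C
  blowup : Tendsto (fun t => supRm (g t)) (𝓝[<] T) (𝓝 ⊤)

/-- Pointed smooth Cheeger-Gromov convergence of the flows `G i`, based at `(x i, 0)`, to the static
flow `h` on `ℝ × N` based at `p`: the `F i` are diffeomorphisms from open sets exhausting `N` onto
open subsets of `M`, `F i p = x i`, and in every chart of `N` all space-time derivatives of
`(F i)^* (G i s) - h` tend to zero uniformly on compact sets. -/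
structure Converges (G : ℕ → ℝ → M → E → E → ℝ) (x : ℕ → M) (h : N → E → E → ℝ) (p : N)
    (F : ℕ → PartialDiffeomorph 𝓘(ℝ, E) 𝓘(ℝ, E) N M ∞) : Prop where
  base : ∀ i, p ∈ (F i).source ∧ F i p = x i
  exhaust : ∀ K : Set N, IsCompact K → ∀ᶠ i in atTop, K ⊆ (F i).source
  conv : ∀ (q : N) (K : Set (ℝ × E)), IsCompact K → K ⊆ univ ×ˢ (chartAt E q).target →
    ∀ (a b : E) (k : ℕ) (ε : ℝ), 0 < ε → ∀ᶠ i in atTop, ∀ z ∈ K,
      ‖iteratedFDeriv ℝ k (fun w : ℝ × E =>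
        loc (pull (G i w.1) (F i)) q w.2 a b - loc h q w.2 a b) z‖ ≤ ε

/-- `(N, h)` is a blow-up limit of the flow `g` on `[0, T)`: the rescaled flows
`s ↦ lam i * g (t i + s / lam i)`, defined on intervals exhausting the line, converge to the static
flow `h`. -/
def IsBlowupLimit (T : ℝ) (g : ℝ → M → E → E → ℝ) (h : N → E → E → ℝ) : Prop :=
  ∃ (x : ℕ → M) (t lam : ℕ → ℝ) (p : N) (F : ℕ → PartialDiffeomorph 𝓘(ℝ, E) 𝓘(ℝ, E) N M ∞),
    Tendsto t atTop (𝓝 T) ∧ Tendsto lam atTop atTop ∧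
    (∀ S : ℝ, ∀ᶠ i in atTop, ∀ s ∈ Icc (-S) S, t i + s / lam i ∈ Ico 0 T) ∧
    Converges (fun i s y a b => lam i * g (t i + s / lam i) y a b) x h p F

variable (E) in
/-- The atlas makes the subset `X` of complex three space a connected smooth manifold, smoothly
embedded by the inclusion. -/
structure IsSubmfd (X : Set (ℂ × ℂ × ℂ)) [ChartedSpace E X] : Prop where
  manifold : IsManifold 𝓘(ℝ, E) ∞ X
  connected : ConnectedSpace X
  smooth : ContMDiff 𝓘(ℝ, E) 𝓘(ℝ, ℂ × ℂ × ℂ) ∞ (Subtype.val : X → ℂ × ℂ × ℂ)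
  immersion : ∀ x : X,
    Function.Injective (mfderiv 𝓘(ℝ, E) 𝓘(ℝ, ℂ × ℂ × ℂ) (Subtype.val : X → ℂ × ℂ × ℂ) x)

end General

variable {E : Type} [NormedAddCommGroup E] [InnerProductSpace ℝ E]
  {N : Type} [TopologicalSpace N] [ChartedSpace E N]

/-- The space has exactly one end. -/
def OneEnd (N : Type) [TopologicalSpace N] : Prop :=
  ∀ K : Set N, IsCompact K → ∃ L : Set N, IsCompact L ∧ K ⊆ L ∧ IsConnected Lᶜ

/-- `Φ` induces a diffeomorphism from `{|v| > R} / Γ` onto the complement of a compact set of `N`,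
in which `h` tends to the flat metric at the rate `τ`, with all derivatives. -/
structure IsALEChart (h : N → E → E → ℝ) (Γ : Subgroup (E ≃ₗᵢ[ℝ] E)) (R τ : ℝ) (Φ : E → N) :
    Prop where
  smooth : ContMDiffOn 𝓘(ℝ, E) 𝓘(ℝ, E) ∞ Φ {v | R < ‖v‖}
  immersion : ∀ v, R < ‖v‖ → Function.Injective (dif Φ v : E → E)
  fibres : ∀ v w, R < ‖v‖ → R < ‖w‖ → (Φ v = Φ w ↔ ∃ γ ∈ Γ, w = γ v)
  cocompact : ∀ r, R ≤ r → IsCompact (Φ '' {v | r < ‖v‖})ᶜ
  proper : ∀ K : Set N, IsCompact K → ∃ r, ∀ v, r < ‖v‖ → Φ v ∉ K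
  decay : ∀ (a b : E) (k : ℕ), ∃ C : ℝ, ∀ v, R < ‖v‖ →
    ‖iteratedFDeriv ℝ k (fun w => pull h Φ w a b - inner ℝ a b) v‖ ≤ C * ‖v‖ ^ (-τ - k)

/-- `(N, h)` is a Ricci-flat ALE space with group `Γ`, a finite group of linear isometries acting
freely on the unit sphere. -/
structure IsRicciFlatALE [FiniteDimensional ℝ E] (h : N → E → E → ℝ)
    (Γ : Subgroup (E ≃ₗᵢ[ℝ] E)) : Prop where
  metric : IsMetric h
  complete : Complete h
  nonflat : ∃ x a b c, Rm h x a b c ≠ 0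
  ricciFlat : ∀ x a b, Ric h x a b = 0
  oneEnd : OneEnd N
  finite : Finite Γ
  free : ∀ γ ∈ Γ, ∀ v : E, ‖v‖ = 1 → γ v = v → γ = 1
  ale : ∃ (R τ : ℝ) (Φ : E → N), 0 < R ∧ 0 < τ ∧ IsALEChart h Γ R τ Φ

/-- The surface `x y = z ^ n - 1` in complex three space. -/
def surf (n : ℕ) : Set (ℂ × ℂ × ℂ) := {p | p.1 * p.2.1 = p.2.2 ^ n - 1}

/-- The tangent bundle of the two sphere, which carries the Eguchi-Hanson metric. -/
def tangentS2 : Set (EuclideanSpace ℝ (Fin 3) × EuclideanSpace ℝ (Fin 3)) :=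
  {q | ‖q.1‖ = 1 ∧ inner ℝ q.1 q.2 = 0}

variable (E) in
/-- On `X` there are a singular Ricci flow and a Ricci-flat ALE metric with cyclic group of order
`n` that is a blow-up limit of the flow. -/
def HasALEBlowup [FiniteDimensional ℝ E] (X : Type) [TopologicalSpace X] [ChartedSpace E X]
    (n : ℕ) : Prop :=
  ∃ (T : ℝ) (g : ℝ → X → E → E → ℝ) (h : X → E → E → ℝ) (Γ : Subgroup (E ≃ₗᵢ[ℝ] E)),
    IsSingularFlow T g ∧ IsRicciFlatALE h Γ ∧ IsCyclic Γ ∧ Nat.card Γ = n ∧ IsBlowupLimit T g h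

end

end Pool.Agent.MP_67f0e4_gt.H
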