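import Pool.Agent.MP_67f0e4_gt.H.Defs
import Pool.Agent.MP_67f0e4_gt.K.Base

/-! Pointwise algebra for the Ricci tensor of a Kaehler metric. -/

namespace Pool.Agent.MP_67f0e4_gt.H.KR

open K Complex

noncomputable section

theorem bf_comm (g : Hm) (v w : V) : bf g v w = bf g w v := by simp only [bf]; ring

theorem bf_addl (g : Hm) (u v w : V) : bf g (u + v) w = bf g u w + bf g v w := by
  simp only [bf, Prod.fst_add, Prod.snd_add, Complex.add_re, Complex.add_im]; ring

theorem bf_subl (g : Hm) (u v w : V) : bf g (u - v) w = bf g u w - bf g v w := by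
  simp only [bf, Prod.fst_sub, Prod.snd_sub, Complex.sub_re, Complex.sub_im]; ring

theorem bf_smull (g : Hm) (c : ℝ) (v w : V) : bf g (c • v) w = c * bf g v w := by
  simp [bf]; ring

theorem bf_I (g : Hm) (v w : V) : bf g (I • v) (I • w) = bf g v w := by
  simp [bf]; ring

theorem II (v : V) : I • I • v = -v := by rw [smul_smul, I_mul_I, neg_smul, one_smul]

theorem I_e0 : I • e 0 = e 1 := by simp [e]
theorem I_e1 : I • e 1 = -e 0 := by simp [e]
theorem I_e2 : I • e 2 = e 3 := by simp [e]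
theorem I_e3 : I • e 3 = -e 2 := by simp [e]

theorem V_eq (v : V) : v = v.1.re • e 0 + v.1.im • e 1 + v.2.re • e 2 + v.2.im • e 3 := by
  ext <;> simp [e]

theorem det_pos {g : Hm} (hg : Pos g) : 0 < hdet g := by
  have h0 : 0 < g 0 := by simpa [qf, bf, e] using hg (e 0) (by simp [e])
  have h1 := hg ((⟨-g 2, g 3⟩ : ℂ), (g 0 : ℂ)) (by
    intro h
    have := congrArg (fun v : V => v.2.re) h
    simp at this
    exact h0.ne' this)
  have h2 : qf g ((⟨-g 2, g 3⟩ : ℂ), (g 0 : ℂ)) = g 0 * hdet g := by simp [qf, bf, hdet]; ring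
  rw [h2] at h1
  exact (mul_pos_iff_of_pos_left h0).1 h1

theorem nondeg {g : Hm} (hg : Pos g) {v w : V} (h : ∀ d, bf g v d = bf g w d) : v = w := by
  by_contra hne
  have := hg (v - w) (sub_ne_zero.2 hne)
  rw [qf, bf_subl, h, sub_self] at this
  exact lt_irrefl _ this

/-- the vector dual to the covector with components `l` -/
def shp (g : Hm) (l : Fin 4 → ℝ) : V :=
  ((g 1 * l 0 - g 2 * l 2 - g 3 * l 3) / hdet g) • e 0 +
    ((g 1 * l 1 + g 3 * l 2 - g 2 * l 3) / hdet g) • e 1 +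
    ((-g 2 * l 0 + g 3 * l 1 + g 0 * l 2) / hdet g) • e 2 +
    ((-g 3 * l 0 - g 2 * l 1 + g 0 * l 3) / hdet g) • e 3

theorem bf_shp {g : Hm} (hg : hdet g ≠ 0) (l : Fin 4 → ℝ) (c : V) :
    bf g (shp g l) c = c.1.re * l 0 + c.1.im * l 1 + c.2.re * l 2 + c.2.im * l 3 := by
  simp only [shp, bf_addl, bf_smull]
  simp [bf, e]
  field_simp
  simp only [hdet]
  ring

/-- the trace of a bilinear form with respect to `g` -/
def trh (g : Hm) (B : V → V → ℝ) : ℝ :=
  (g 1 * (B (e 0) (e 0) + B (e 1) (e 1)) + g 0 * (B (e 2) (e 2) + B (e 3) (e 3))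
    - g 2 * (B (e 0) (e 2) + B (e 2) (e 0) + B (e 1) (e 3) + B (e 3) (e 1))
    - g 3 * (B (e 0) (e 3) + B (e 3) (e 0) - B (e 1) (e 2) - B (e 2) (e 1))) / hdet g

theorem trace_V (M : V →ₗ[ℝ] V) : ∑ i, (Module.finBasis ℝ V).repr (M (Module.finBasis ℝ V i)) i =
    (M (e 0)).1.re + (M (e 1)).1.im + (M (e 2)).2.re + (M (e 3)).2.im := by
  have h1 := LinearMap.trace_eq_matrix_trace ℝ (Module.finBasis ℝ V) M
  have h2 := LinearMap.trace_eq_matrix_trace ℝ (Complex.basisOneI.prod Complex.basisOneI) M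
  rw [h1] at h2
  simp only [Matrix.trace, Matrix.diag, LinearMap.toMatrix_apply] at h2
  rw [h2]
  simp [Fintype.sum_sum_type, Fin.sum_univ_two, e, add_assoc]

theorem tr_eq {g : Hm} (hg : hdet g ≠ 0) (M : V → V) :
    (M (e 0)).1.re + (M (e 1)).1.im + (M (e 2)).2.re + (M (e 3)).2.im =
      trh g (fun a d => bf g (M a) d) := by
  simp only [trh]
  simp [bf, e]
  field_simp
  simp only [hdet]
  ring

/-- entries of the form `(v, w) ↦ S v w + S (I v) (I w)` -/
def ent (S : V → V → ℝ) : Hm :=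
  ![S (e 0) (e 0) + S (I • e 0) (I • e 0), S (e 2) (e 2) + S (I • e 2) (I • e 2),
    S (e 0) (e 2) + S (I • e 0) (I • e 2), S (e 0) (e 3) + S (I • e 0) (I • e 3)]

/-- a symmetric form, linear in the first slot -/
structure SB (S : V → V → ℝ) : Prop where
  symm : ∀ v w, S v w = S w v
  add : ∀ u v w, S (u + v) w = S u w + S v w
  smul : ∀ (c : ℝ) v w, S (c • v) w = c * S v w

theorem SB.negl {S : V → V → ℝ} (h : SB S) (v w : V) : S (-v) w = -S v w := by
  rw [← neg_one_smul ℝ v, h.smul]; ring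

theorem SB.negr {S : V → V → ℝ} (h : SB S) (v w : V) : S v (-w) = -S v w := by
  rw [h.symm, h.negl, h.symm]

theorem SB.expl {S : V → V → ℝ} (h : SB S) (v w : V) : S v w = v.1.re * S (e 0) w +
    v.1.im * S (e 1) w + v.2.re * S (e 2) w + v.2.im * S (e 3) w := by
  conv_lhs => rw [V_eq v]
  simp only [h.add, h.smul]

theorem SB.expr {S : V → V → ℝ} (h : SB S) (v w : V) : S v w = w.1.re * S v (e 0) +
    w.1.im * S v (e 1) + w.2.re * S v (e 2) + w.2.im * S v (e 3) := by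
  rw [h.symm, h.expl]
  simp only [h.symm v]

theorem SB.bf_ent {S : V → V → ℝ} (h : SB S) (v w : V) :
    bf (ent S) v w = S v w + S (I • v) (I • w) := by
  rw [h.expl v w, h.expl (I • v) (I • w)]
  simp only [h.expr _ w, h.expr _ (I • w), ent, I_e0, I_e2, I_e3, h.negr, h.symm (e 1) (e 0),
    h.symm (e 2) (e 0), h.symm (e 3) (e 0), h.symm (e 2) (e 1), h.symm (e 3) (e 1),
    h.symm (e 3) (e 2)]
  simp [bf]
  ring

theorem SB.trh_eq {S : V → V → ℝ} (h : SB S) (g : Hm) : trh g S = hmix g (ent S) / hdet g := by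
  simp only [trh, ent, I_e0, I_e2, I_e3, h.negr, h.symm (e 2) (e 0), h.symm (e 3) (e 0),
    h.symm (e 2) (e 1), h.symm (e 3) (e 1), hmix]
  simp
  ring

theorem SB.trh_II {S : V → V → ℝ} (h : SB S) (g : Hm) :
    trh g (fun a d => S (I • a) (I • d)) = trh g S := by
  simp only [trh, I_e0, I_e1, I_e2, I_e3, h.negr, h.negl, h.symm (e 2) (e 0), h.symm (e 3) (e 0),
    h.symm (e 2) (e 1), h.symm (e 3) (e 1)]
  ring

theorem SB.trh_Ir {S : V → V → ℝ} (h : SB S) (g : Hm) :
    trh g (fun a d => S a (I • d)) = 0 := by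
  simp only [trh, I_e0, I_e1, I_e2, I_e3, h.negr, h.symm (e 1) (e 0), h.symm (e 2) (e 0),
    h.symm (e 3) (e 0), h.symm (e 2) (e 1), h.symm (e 3) (e 1), h.symm (e 3) (e 2)]
  ring

theorem SB.trh_Il {S : V → V → ℝ} (h : SB S) (g : Hm) :
    trh g (fun a d => S (I • a) d) = 0 := by
  simp only [trh, I_e0, I_e1, I_e2, I_e3, h.negl, h.symm (e 1) (e 0), h.symm (e 2) (e 0),
    h.symm (e 3) (e 0), h.symm (e 2) (e 1), h.symm (e 3) (e 1), h.symm (e 3) (e 2)]
  ring

theorem trh_anti (g : Hm) {S : V → V → ℝ} (h : ∀ a d, S (I • a) (I • d) = -S a d)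
    (hs : ∀ a d, S a d = S d a) (hn : ∀ a d, S a (-d) = -S a d) : trh g S = 0 := by
  have h1 := h (e 0) (e 0)
  have h2 := h (e 2) (e 2)
  have h3 := h (e 0) (e 2)
  have h4 := h (e 0) (e 3)
  simp only [I_e0, I_e2, I_e3, hn] at h1 h2 h3 h4
  simp only [trh, hs (e 2) (e 0), hs (e 3) (e 0), hs (e 2) (e 1), hs (e 3) (e 1), h1, h2, h3]
  rw [neg_injective h4]
  ring

/-- entries of the symmetrisation of `bf g (A v) w` -/
def sy (g : Hm) (A : V → V) : Hm :=
  ![bf g (A (e 0)) (e 0) + bf g (A (e 0)) (e 0), bf g (A (e 2)) (e 2) + bf g (A (e 2)) (e 2),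
    bf g (A (e 0)) (e 2) + bf g (A (e 2)) (e 0), bf g (A (e 0)) (e 3) + bf g (A (e 3)) (e 0)]

/-- the quadratic part of the second derivative of `log hdet` -/
def l2 (g s t : Hm) : ℝ := hmix s t / hdet g - hmix g s * hmix g t / hdet g ^ 2

theorem l2_sy {g : Hm} (hg : hdet g ≠ 0) {A B : V → V} (hA : ∀ v, A (I • v) = I • A v)
    (hB : ∀ v, B (I • v) = I • B v) :
    l2 g (sy g A) (sy g B) + l2 g (sy g fun v => I • A v) (sy g fun v => I • B v) =
      -2 * trh g (fun a d => bf g (A d) (B a)) := by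
  simp only [l2, sy, trh, ← I_e0, ← I_e2, hA, hB]
  generalize A (e 0) = a0
  generalize A (e 2) = a2
  generalize B (e 0) = b0
  generalize B (e 2) = b2
  simp [bf, e, hmix]
  field_simp
  simp only [hdet]
  ring

end

end Pool.Agent.MP_67f0e4_gt.H.KR
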