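import Pool.Agent.MP_67f0e4_gt.H.Spec
import Pool.Agent.MP_67f0e4_gt.H.KR1
import Pool.Agent.MP_67f0e4_gt.K.Chain

/-! Third and fourth derivatives of a Kaehler potential. -/

open scoped ContDiff Topology
open Filter Set

namespace Pool.Agent.MP_67f0e4_gt.H.KR

open K Complex

noncomputable section

variable {f : V → ℝ} {x : V}

def T3 (f : V → ℝ) (x a b c : V) : ℝ := D a (D b (D c f)) x

def Q4 (f : V → ℝ) (x a b c d : V) : ℝ := D a (D b (D c (D d f))) x

theorem DD_ev (h : ContDiffAt ℝ ∞ f x) (v w : V) : D v (D w f) =ᶠ[𝓝 x] D w (D v f) :=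
  ((h.of_le two_le_inf).eventually (by simp)).mono fun _ hy => DD_symm hy v w

theorem T12 (h : ContDiffAt ℝ ∞ f x) (a b c : V) : T3 f x a b c = T3 f x b a c :=
  DD_symm ((D_smooth h c).of_le two_le_inf) a b

theorem T23 (h : ContDiffAt ℝ ∞ f x) (a b c : V) : T3 f x a b c = T3 f x a c b :=
  D_congr (DD_ev h b c) a

theorem Q12 (h : ContDiffAt ℝ ∞ f x) (a b c d : V) : Q4 f x a b c d = Q4 f x b a c d :=
  DD_symm ((D_smooth (D_smooth h d) c).of_le two_le_inf) a b

theorem Q23 (h : ContDiffAt ℝ ∞ f x) (a b c d : V) : Q4 f x a b c d = Q4 f x a c b d :=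
  D_congr (DD_ev (D_smooth h d) b c) a

theorem Q34 (h : ContDiffAt ℝ ∞ f x) (a b c d : V) : Q4 f x a b c d = Q4 f x a b d c :=
  D_congr (D_congr_ev (DD_ev h c d) b) a

theorem sbT (h : ContDiffAt ℝ ∞ f x) (a : V) : SB (T3 f x a) where
  symm := T23 h a
  add u v w := by
    rw [T12 h a, T12 h a, T12 h a]
    exact map_add (fderiv ℝ _ x) u v
  smul c v w := by
    rw [T12 h a, T12 h a]
    exact map_smul (fderiv ℝ _ x) c v

theorem Q13 (h : ContDiffAt ℝ ∞ f x) (a b c d : V) : Q4 f x a b c d = Q4 f x c a b d := by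
  rw [Q23 h a b, Q12 h a]

theorem sbQ (h : ContDiffAt ℝ ∞ f x) (a b : V) : SB (Q4 f x a b) where
  symm := Q34 h a b
  add u v w := by
    rw [Q13 h a, Q13 h a, Q13 h a]
    exact map_add (fderiv ℝ _ x) u v
  smul c v w := by
    rw [Q13 h a, Q13 h a]
    exact map_smul (fderiv ℝ _ x) c v

theorem Qsw (h : ContDiffAt ℝ ∞ f x) (a b c d : V) : Q4 f x a b c d = Q4 f x c d a b := by
  rw [Q13 h a b c d, Q34 h c a b d, Q23 h c a d b]

theorem D_lev (h : ContDiffAt ℝ ∞ f x) (a b c : V) :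
    D a (fun w => lev f w b c) x = T3 f x a b c + T3 f x a (I • b) (I • c) :=
  D_add ((D_smooth (D_smooth h _) _).differentiableAt (by simp))
    ((D_smooth (D_smooth h _) _).differentiableAt (by simp)) a

theorem DD_lev (h : ContDiffAt ℝ ∞ f x) (a b c d : V) :
    D a (D b fun w => lev f w c d) x = Q4 f x a b c d + Q4 f x a b (I • c) (I • d) :=
  DD_add ((D_smooth (D_smooth h _) _).of_le two_le_inf)
    ((D_smooth (D_smooth h _) _).of_le two_le_inf) a b

theorem kos_eq (h : ContDiffAt ℝ ∞ f x) (a b c : V) : kos (lev f) x a b c =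
    (T3 f x a b c + T3 f x a (I • b) (I • c) + T3 f x b (I • a) (I • c)
      - T3 f x c (I • a) (I • b)) / 2 := by
  rw [kos, D_lev h, D_lev h, D_lev h, T12 h b a c, T12 h c a b, T23 h a c b]
  ring

theorem D_kos (h : ContDiffAt ℝ ∞ f x) (a b c d : V) :
    D a (fun w => kos (lev f) w b c d) x =
      (Q4 f x a b c d + Q4 f x a b (I • c) (I • d) + Q4 f x a c (I • b) (I • d)
        - Q4 f x a d (I • b) (I • c)) / 2 := by
  have hd : ∀ u v w : V, HasFDerivAt (D u fun y => lev f y v w)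
      (fderiv ℝ (D u fun y => lev f y v w) x) x := fun u v w =>
    ((D_smooth (lev_smooth h v w) u).differentiableAt (by simp)).hasFDerivAt
  have h1 := (((hd b c d).add (hd c b d)).sub (hd d b c)).mul_const (2 : ℝ)⁻¹
  have h2 : (fun w => kos (lev f) w b c d) = fun w => (D b (fun y => lev f y c d) w +
      D c (fun y => lev f y b d) w - D d (fun y => lev f y b c) w) * (2 : ℝ)⁻¹ := by
    funext w; rw [kos, div_eq_mul_inv]
  rw [h2]
  refine (D_of_has h1 a).trans ?_
  have e1 := DD_lev h a b c d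
  have e2 := DD_lev h a c b d
  have e3 := DD_lev h a d b c
  rw [D] at e1 e2 e3
  simp only [smul_apply, sub_apply, add_apply, smul_eq_mul, e1, e2, e3]
  rw [Q23 h a c b d, Q23 h a d b c, Q34 h a b d c]
  ring

/-- componentwise derivative -/
def dv (b : V) (G : V → Hm) (x : V) : Hm := fun α => D b (fun y => G y α) x

theorem D_hmix {G H : V → Hm} (hG : ∀ α, DifferentiableAt ℝ (fun y => G y α) x)
    (hH : ∀ α, DifferentiableAt ℝ (fun y => H y α) x) (b : V) :
    D b (fun y => hmix (G y) (H y)) x = hmix (G x) (dv b H x) + hmix (dv b G x) (H x) := by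
  have g := fun α => (hG α).hasFDerivAt
  have k := fun α => (hH α).hasFDerivAt
  have h1 := ((((g 0).mul (k 1)).add ((g 1).mul (k 0))).sub
    (((g 2).const_mul 2).mul (k 2))).sub (((g 3).const_mul 2).mul (k 3))
  refine (D_of_has h1 b).trans ?_
  simp only [smul_apply, sub_apply, add_apply, smul_eq_mul, hmix, dv, D]
  ring

theorem D_hdet {G : V → Hm} (hG : ∀ α, DifferentiableAt ℝ (fun y => G y α) x) (b : V) :
    D b (fun y => hdet (G y)) x = hmix (G x) (dv b G x) := by
  have h1 : (fun y => hdet (G y)) = fun y => 2⁻¹ * hmix (G y) (G y) := by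
    funext y; rw [hmix_self]; ring
  rw [h1, D_const_mul]
  simp only
  rw [D_hmix hG hG, hmix_comm (dv b G x)]
  ring

theorem D_log {G : V → Hm} (hG : ∀ α, DifferentiableAt ℝ (fun y => G y α) x)
    (h0 : hdet (G x) ≠ 0) (b : V) :
    D b (fun y => Real.log (hdet (G y))) x = hmix (G x) (dv b G x) / hdet (G x) := by
  have hd : DifferentiableAt ℝ (fun y => hdet (G y)) x :=
    (hdet_smooth.differentiable (by simp) _).comp x (differentiableAt_pi.2 hG)
  rw [D_comp (f := fun y => hdet (G y)) (Real.hasDerivAt_log h0) hd, D_hdet hG]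
  ring

theorem DD_log {G : V → Hm} (hG : ∀ α, ContDiffAt ℝ 2 (fun y => G y α) x)
    (h0 : hdet (G x) ≠ 0) (b c : V) :
    D b (D c fun y => Real.log (hdet (G y))) x =
      hmix (G x) (dv b (dv c G) x) / hdet (G x) + l2 (G x) (dv b G x) (dv c G x) := by
  have hG1 : ∀ α, DifferentiableAt ℝ (fun y => G y α) x := fun α =>
    (hG α).differentiableAt (by simp)
  have hd : ContDiffAt ℝ 2 (fun y => hdet (G y)) x :=
    (hdet_smooth.of_le two_le_inf).contDiffAt.comp x (contDiffAt_pi.2 hG)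
  have hev : D c (fun y => hdet (G y)) =ᶠ[𝓝 x] fun y => hmix (G y) (dv c G y) :=
    (eventually_all.2 fun α => ev_diff (hG α)).mono fun y hy => D_hdet hy c
  rw [DD_comp (f := fun y => hdet (G y)) (u := Real.log) (u' := fun s => s⁻¹)
    ((eventually_ne_nhds h0).mono fun s hs => Real.hasDerivAt_log hs) (hasDerivAt_inv h0) hd,
    D_congr hev, D_hmix (H := dv c G) hG1 (fun α => D_diff (hG α) c), D_hdet hG1, D_hdet hG1, l2]
  field_simp
  ring

theorem lv_comp (h : ContDiffAt ℝ ∞ f x) (α : Fin 4) : ContDiffAt ℝ ∞ (fun y => lv f y α) x :=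
  contDiffAt_pi.1 (lv_smooth h) α

theorem dv_lv (h : ContDiffAt ℝ ∞ f x) (b : V) : dv b (lv f) x = ent (T3 f x b) :=
  Hm_ext (D_lev h b _ _) (D_lev h b _ _) (D_lev h b _ _) (D_lev h b _ _)

theorem ddv_lv (h : ContDiffAt ℝ ∞ f x) (b c : V) :
    dv b (dv c (lv f)) x = ent (Q4 f x b c) :=
  Hm_ext (DD_lev h b c _ _) (DD_lev h b c _ _) (DD_lev h b c _ _) (DD_lev h b c _ _)

variable {U : Set V}

theorem sm_at (hK : KP f U) (hx : x ∈ U) : ContDiffAt ℝ ∞ f x :=
  hK.sm.contDiffAt (hK.opn.mem_nhds hx)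

theorem lev_bf (hK : KP f U) (hx : x ∈ U) (a b : V) : lev f x a b = bf (lv f x) a b :=
  (bf_lv ((sm_at hK hx).of_le two_le_inf) a b).symm

theorem kj (hK : KP f U) (hC : ChrF (lev f) U) (hx : x ∈ U) (a b : V) :
    chr (lev f) x a (I • b) = I • chr (lev f) x a b := by
  have hs := sm_at hK hx
  refine nondeg (hK.pos x hx) fun d => ?_
  obtain ⟨c, rfl⟩ : ∃ c : V, d = I • c := ⟨-(I • d), by rw [smul_neg, II, neg_neg]⟩
  rw [bf_I, ← lev_bf hK hx, ← lev_bf hK hx, hC.kosz x hx, hC.kosz x hx, kos_eq hs, kos_eq hs]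
  simp only [II, (sbT hs _).negr, (sbT hs _).negl]
  rw [T12 hs (I • b) (I • a) c, T23 hs (I • a) (I • b) c, T12 hs (I • a) c (I • b),
    T12 hs (I • c) (I • a) b, T23 hs (I • a) (I • c) b, T12 hs (I • a) b (I • c)]
  ring

theorem compat_sy (hK : KP f U) (hC : ChrF (lev f) U) (hx : x ∈ U) (b : V) :
    dv b (lv f) x = sy (lv f x) (chr (lev f) x b) := by
  have h : ∀ v w, D b (fun y => lev f y v w) x =
      bf (lv f x) (chr (lev f) x b v) w + bf (lv f x) (chr (lev f) x b w) v := fun v w => by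
    rw [hC.compat x hx, lev_bf hK hx, lev_bf hK hx, bf_comm _ v]
  exact Hm_ext (h _ _) (h _ _) (h _ _) (h _ _)

end

end Pool.Agent.MP_67f0e4_gt.H.KR
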