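import Pool.Agent.MP_67f0e4_gt.H.Spec

/-! Small facts on holomorphic atlases. -/

open scoped ContDiff Topology Manifold
open Filter Set Metric

namespace Pool.Agent.MP_67f0e4_gt.H.MKit

open K

theorem par_at {X : Set C3} {N : V → C3} {U : Set V} (h : Par X N U) {x : V} (hx : x ∈ U) :
    ContDiffAt ℂ ∞ N x := h.hol.contDiffAt (h.op.mem_nhds hx)

theorem par_tendsto {X : Set C3} {N : V → C3} {U : Set V} (h : Par X N U) {x : V} (hx : x ∈ U) :
    Tendsto N (𝓝 x) (𝓝[X] (N x)) :=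
  tendsto_nhdsWithin_iff.2 ⟨(par_at h hx).continuousAt,
    mem_of_superset (h.op.mem_nhds hx) fun _ hy => h.mem hy⟩

theorem par_mono {X : Set C3} {N : V → C3} {U W : Set V} (h : Par X N U) (hW : IsOpen W)
    (hWU : W ⊆ U) : Par X N W :=
  ⟨hW, h.hol.mono hWU, fun _ hy => h.mem (hWU hy), fun x hx => h.inj x (hWU hx)⟩

/-- Transition map between two parametrisations, at one point. -/
theorem trans0 {X : Set C3} (hS : Surf X) {N N' : V → C3} {U U' : Set V} (h : Par X N U)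
    (h' : Par X N' U') {x x' : V} (hx : x ∈ U) (hx' : x' ∈ U') (e : N x = N' x') :
    ∃ S : V → V, ContDiffAt ℂ ∞ S x' ∧ S x' = x ∧ (∀ᶠ y in 𝓝 x', N (S y) = N' y) ∧
      ∀ᶠ y in 𝓝 x', ∀ᶠ z in 𝓝 x, N z = N' y → S y = z := by
  obtain ⟨R, h1, h2, h3⟩ := hS.2 N U h x hx
  refine ⟨R ∘ N', (e ▸ h1).comp x' (par_at h' hx'), ?_, ?_, ?_⟩
  · simp only [Function.comp, ← e]; exact h2.self_of_nhds
  · exact (par_tendsto h' hx').eventually (e ▸ h3)
  · exact Eventually.of_forall fun y => h2.mono fun z hz hzy => by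
      simp only [Function.comp, ← hzy]; exact hz

/-- Transition map, holomorphic on a neighbourhood, with invertible differential. -/
theorem trans {X : Set C3} (hS : Surf X) {N N' : V → C3} {U U' : Set V} (h : Par X N U)
    (h' : Par X N' U') {x x' : V} (hx : x ∈ U) (hx' : x' ∈ U') (e : N x = N' x') :
    ∃ (S : V → V) (W : Set V), IsOpen W ∧ x' ∈ W ∧ W ⊆ U' ∧ S x' = x ∧ ContDiffOn ℂ ∞ S W ∧
      MapsTo S W U ∧ (∀ y ∈ W, N (S y) = N' y) ∧
      ∀ y ∈ W, Function.Bijective (fderiv ℝ S y) := by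
  obtain ⟨S, h1, h2, h3, -⟩ := trans0 hS h h' hx hx' e
  have hc : ∀ᶠ y in 𝓝 x', ContinuousAt S y :=
    ((h1.of_le (m := 1) (by simp)).eventually (by simp)).mono fun y hy => hy.continuousAt
  have hU : ∀ᶠ y in 𝓝 x', S y ∈ U := h1.continuousAt.eventually (h2 ▸ h.op.mem_nhds hx)
  have hU' : ∀ᶠ y in 𝓝 x', y ∈ U' := h'.op.mem_nhds hx'
  obtain ⟨W, hW, hWo, hxW⟩ := _root_.eventually_nhds_iff.1 (hc.and (hU.and (h3.and hU')))
  have hd : ∀ y ∈ W, ContDiffAt ℂ ∞ S y := by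
    intro y hy
    obtain ⟨R, k1, k2, -⟩ := hS.2 N U h (S y) (hW y hy).2.1
    have k3 : S =ᶠ[𝓝 y] R ∘ N' := by
      filter_upwards [(hW y hy).1.eventually k2, hWo.mem_nhds hy] with z hz hz'
      simp only [Function.comp, ← (hW z hz').2.2.1]; exact hz.symm
    rw [(hW y hy).2.2.1] at k1
    exact (k1.comp y (par_at h' (hW y hy).2.2.2)).congr_of_eventuallyEq k3
  refine ⟨S, W, hWo, hxW, fun y hy => (hW y hy).2.2.2, h2,
    fun y hy => (hd y hy).contDiffWithinAt, fun y hy => (hW y hy).2.1,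
    fun y hy => (hW y hy).2.2.1, fun y hy => ?_⟩
  have dS := (hd y hy).differentiableAt (by simp)
  have dN := (par_at h (hW y hy).2.1).differentiableAt (by simp)
  have k : N' =ᶠ[𝓝 y] N ∘ S := by
    filter_upwards [hWo.mem_nhds hy] with z hz using ((hW z hz).2.2.1).symm
  have hi : Function.Injective (fderiv ℂ S y) := by
    have := h'.inj y (hW y hy).2.2.2
    rw [k.fderiv_eq, fderiv_comp y dN dS] at this
    exact Function.Injective.of_comp (f := fderiv ℂ N (S y)) this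
  rw [dS.fderiv_restrictScalars ℝ]
  exact ⟨hi, (LinearMap.injective_iff_surjective
    (f := ((fderiv ℂ S y : V →L[ℂ] V) : V →ₗ[ℂ] V))).1 hi⟩

variable {X : Set C3} [ChartedSpace E4 X] (ι : E4 ≃L[ℝ] V)

theorem cN_chart (p : X) {q : X} (hq : q ∈ (chartAt E4 p).source) :
    cN ι p (ι (chartAt E4 p q)) = q := by
  simp [cN, (chartAt E4 p).left_inv hq]

theorem cN_apply (p : X) (u : E4) : cN ι p (ι u) = ((chartAt E4 p).symm u : X) := by simp [cN]

theorem centre_mem (p : X) : ι (chartAt E4 p p) ∈ ι.symm ⁻¹' (chartAt E4 p).target := by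
  simp

theorem cN_centre (p : X) : cN ι p (ι (chartAt E4 p p)) = p := cN_chart ι p (mem_chart_source E4 p)

/-- Near `p` the chart is a holomorphic function of the ambient coordinates. -/
theorem chart_eq (hA : Atl X ι) (p : X) : ∃ R : C3 → V, ContDiffAt ℂ ∞ R p ∧
    (∀ᶠ q in 𝓝 p, chartAt E4 p q = ι.symm (R q)) ∧ ∀ᶠ q in 𝓝[X] (p : C3), cN ι p (R q) = q := by
  obtain ⟨R, h1, h2, h3⟩ := hA.surf.2 _ _ (hA.par p) _ (centre_mem ι p)
  rw [cN_centre] at h1 h3
  refine ⟨R, h1, ?_, h3⟩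
  have hc : ContinuousAt (fun q : X => ι (chartAt E4 p q)) p :=
    ι.continuous.continuousAt.comp ((chartAt E4 p).continuousAt (mem_chart_source E4 p))
  filter_upwards [hc.eventually h2, chart_source_mem_nhds E4 p] with q hq hq'
  rw [cN_chart ι p hq'] at hq
  simp [hq]

theorem hasMF {M : Type} [TopologicalSpace M] [ChartedSpace E4 M] {F : Type}
    [NormedAddCommGroup F] [NormedSpace ℝ F] {Θ : F → M} {v : F} {L : F →L[ℝ] E4}
    (hc : ContinuousAt Θ v) (hd : HasFDerivAt (fun w => chartAt E4 (Θ v) (Θ w)) L v) :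
    HasMFDerivAt 𝓘(ℝ, F) 𝓘(ℝ, E4) Θ v L := by
  refine ⟨hc, ?_⟩
  simp only [writtenInExtChartAt, Function.comp_def, mfld_simps]
  exact hd.hasFDerivWithinAt

theorem dif_eq {M : Type} [TopologicalSpace M] [ChartedSpace E4 M] {Θ : E4 → M} {v : E4}
    {L : E4 →L[ℝ] E4} (hc : ContinuousAt Θ v)
    (hd : HasFDerivAt (fun w => chartAt E4 (Θ v) (Θ w)) L v) (a : E4) : dif Θ v a = L a := by
  unfold dif
  rw [(hasMF hc hd).mfderiv]
  rfl

end Pool.Agent.MP_67f0e4_gt.H.MKit
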