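import Pool.Agent.MP_67f0e4_gt.H.Spec

/-! Row ALE: the Ricci-flat ALE metric of the potential. -/

open scoped ContDiff Topology Manifold NNReal
open Filter Set Metric

namespace Pool.Agent.MP_67f0e4_gt.H

open K

namespace RALE

theorem lev_zero (f : V → ℝ) (x d : V) : lev f x 0 d = 0 := by simp [lev, D]

theorem cover {X : Set C3} [ChartedSpace E4 X] (ι : E4 ≃L[ℝ] V) (p : X) :
    ι (chartAt E4 p p) ∈ ι.symm ⁻¹' (chartAt E4 p).target ∧ cN ι p (ι (chartAt E4 p p)) = p := by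
  refine ⟨?_, ?_⟩
  · simp
  · simp [cN]

theorem grad {f : V → ℝ} {x v : V} {C q : ℝ} (hf : DifferentiableAt ℝ f x) (h0 : 0 ≤ f x)
    (hq : 0 ≤ q) (h : D v f x ^ 2 ≤ C * f x * q) :
    D v (fun y => √(1 + f y)) x ^ 2 ≤ |C| * q := by
  have h1 : 0 < 1 + f x := by linarith
  have h2 : D v (fun y => √(1 + f y)) x = D v f x / (2 * √(1 + f x)) := by
    simp only [D]
    rw [fderiv_sqrt (f := fun y => 1 + f y) (hf.const_add 1) h1.ne', fderiv_const_add]
    simp only [_root_.smul_apply, smul_eq_mul]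
    ring
  rw [h2, div_pow, mul_pow, Real.sq_sqrt h1.le, div_le_iff₀ (by positivity)]
  have h3 : C * f x * q ≤ |C| * f x * q :=
    mul_le_mul_of_nonneg_right (mul_le_mul_of_nonneg_right (le_abs_self C) h0) hq
  have h4 : 0 ≤ |C| * q := mul_nonneg (abs_nonneg C) hq
  nlinarith [mul_nonneg h4 h0]

theorem two_le : (2 : WithTop ℕ∞) ≤ ∞ := WithTop.coe_le_coe.2 (le_top : (2 : ℕ∞) ≤ ⊤)

end RALE

theorem rALE (hLEV : StmtLEV) (hMAP : StmtMAP) (hPULL : StmtPULL) (hTR : StmtTR) (hCPL : StmtCPL)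
    (hKRIC : StmtKRIC) (hNF : StmtNF) : StmtALE := by
  intro X _ ι hAt ψ n hA
  have hK := xk_of_rflat hA.flat
  obtain ⟨Γ, R, τ, Θ, G, hR, hτ, hfin, hfree, hcyc, hcard, hI⟩ := hA.inf
  have hO : IsOpen {v : E4 | R < ‖v‖} := isOpen_lt continuous_const continuous_norm
  have hpull : ∀ v, R < ‖v‖ → ∀ a b, pull (kah ι ψ) Θ v a b = G v a b := fun v hv a b => by
    obtain ⟨N, U, T, hN, hT, hd, he, hG⟩ := hI.rep v hv
    rw [hG, (hPULL X ι hAt ψ hK.sm).1 Θ v N U T hN hT hd he]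
  refine ⟨Γ, ⟨(hTR X ι hAt).1 ψ hK, ?_, ?_, fun p a b => ?_, hA.oneEnd, hfin, hfree, R, τ, Θ, hR,
    hτ, fun v hv => ?_, fun v hv a b hab => ?_, hI.fibres, hI.cocompact, hI.proper,
    fun a b k => ?_⟩, hcyc, hcard⟩
  · obtain ⟨C, hC⟩ := hA.grad
    refine hCPL X ι hAt ψ (fun p => √(1 + ψ p)) |C| hK (fun N U hN => ?_) (fun c => ?_)
      fun p hp => ?_
    · exact (contDiffOn_const.add (hK.sm N U hN)).sqrt fun x hx => by
        have := hA.nonneg _ (hN.mem hx)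
        change 1 + ψ (N x) ≠ 0
        linarith
    · by_cases hc : 0 ≤ c
      · have : {p ∈ X | √(1 + ψ p) ≤ c} = {p ∈ X | ψ p ≤ c ^ 2 - 1} := by
          ext p
          simp only [mem_ofPred_eq, Real.sqrt_le_iff, hc, true_and, le_sub_iff_add_le']
        rw [this]
        exact hA.proper _
      · have : {p ∈ X | √(1 + ψ p) ≤ c} = ∅ :=
          eq_empty_of_forall_notMem fun p hp => hc ((Real.sqrt_nonneg _).trans hp.2)
        rw [this]
        exact isCompact_empty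
    · obtain ⟨h1, h2⟩ := RALE.cover ι (⟨p, hp⟩ : X)
      have hN := hAt.par ⟨p, hp⟩
      have hP := hK _ _ hN
      have hc := hP.sm.contDiffAt (hP.opn.mem_nhds h1)
      refine ⟨_, _, _, hN, h1, h2, fun v => ?_⟩
      rw [hLEV.eq _ _ (hc.of_le RALE.two_le)]
      refine RALE.grad (hc.differentiableAt (by simp)) (hA.nonneg _ (hN.mem h1)) ?_
        (hC _ _ hN _ h1 v)
      by_cases hv : v = 0
      · simp [hv, bf]
      · exact (hP.pos _ h1 v hv).le
  · obtain ⟨N, U, hN, x, hx, hc⟩ := hA.curv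
    obtain ⟨a, b, c, d, h⟩ := hNF _ U (hK N U hN) x hx hc
    obtain ⟨A, hA'⟩ := (hTR X ι hAt).2 N U hN x hx ⟨N x, hN.mem hx⟩ rfl
    refine ⟨⟨N x, hN.mem hx⟩, A.symm a, A.symm b, A.symm c, fun h0 => h ?_⟩
    have h1 := (hA' ψ hK).2.1 (A.symm a) (A.symm b) (A.symm c)
    simp only [h0, map_zero, ContinuousLinearEquiv.apply_symm_apply] at h1
    rw [← h1, RALE.lev_zero]
  · obtain ⟨h1, h2⟩ := RALE.cover ι p
    have hN := hAt.par p
    have hP := hK _ _ hN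
    obtain ⟨A, hA'⟩ := (hTR X ι hAt).2 _ _ hN _ h1 p h2
    have h3 := hKRIC _ _ hP _ h1 (A a) (A b)
    have hs := fun α => (hLEV.smo _ _ hP.opn hP.sm α).contDiffAt (hP.opn.mem_nhds h1)
    have h4 : ContDiffAt ℝ ∞ (fun y => Real.log (hdet (lv (ψ ∘ cN ι p) y)))
        (ι (chartAt E4 p p)) :=
      ContDiffAt.log ((((hs 0).mul (hs 1)).sub ((hs 2).pow 2)).sub ((hs 3).pow 2))
        (hLEV.det _ (hP.pos _ h1)).ne'
    rw [hLEV.eq _ _ (h4.of_le RALE.two_le), (hA.flat.2 _ _ hN _ h1).2] at h3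
    rw [(hA' ψ hK).2.2]
    simpa [bf] using h3
  · exact ((hMAP X ι hAt).2 Θ v (hI.smooth.contDiffAt (hO.mem_nhds hv))).contMDiffWithinAt
  · by_contra hne
    refine hI.nondeg v hv (a - b) (sub_ne_zero.2 hne) ?_
    have h1 : dif Θ v (a - b) = 0 :=
      (map_sub (mfderiv 𝓘(ℝ, E4) 𝓘(ℝ, E4) Θ v) a b).trans (sub_eq_zero.2 hab)
    rw [← hpull v hv, pull, h1, kah, map_zero, RALE.lev_zero]
  · obtain ⟨C, hC⟩ := hI.decay a b k
    refine ⟨C, fun v hv => ?_⟩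
    have h1 : (fun w => pull (kah ι ψ) Θ w a b - inner ℝ a b) =ᶠ[𝓝 v]
        fun w => G w a b - inner ℝ a b := by
      filter_upwards [hO.mem_nhds hv] with w hw
      rw [hpull w hw]
    rw [(h1.iteratedFDeriv ℝ k).self_of_nhds]
    exact hC v hv

end Pool.Agent.MP_67f0e4_gt.H
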