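import Pool.Agent.MP_67f0e4_gt.H.Spec

open scoped ContDiff Topology
open Filter Set Metric

namespace Pool.Agent.MP_67f0e4_gt.H

open K

variable {E : Type} [NormedAddCommGroup E] [NormedSpace ℝ E]

theorem RGERM.chr_congr {h h' : E → E → E → ℝ} {u : E} (e : h =ᶠ[𝓝 u] h') (a b : E) :
    chr h u a b = chr h' u a b := by
  have k : ∀ a b : E, fderiv ℝ (fun y => h y a b) u = fderiv ℝ (fun y => h' y a b) u :=
    fun a b => Filter.EventuallyEq.fderiv_eq (e.mono fun y hy => by simp only [hy])
  simp only [chr, k, e.self_of_nhds]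

theorem RGERM.rm_of_chr {h h' : E → E → E → ℝ} {u : E}
    (e : ∀ᶠ y in 𝓝 u, ∀ a b, chr h y a b = chr h' y a b) (a b c : E) :
    rm h u a b c = rm h' u a b c := by
  have k : ∀ a b : E, fderiv ℝ (fun y => chr h y a b) u = fderiv ℝ (fun y => chr h' y a b) u :=
    fun a b => Filter.EventuallyEq.fderiv_eq (e.mono fun y hy => hy a b)
  simp only [rm, k, e.self_of_nhds]

theorem rGERM : StmtGERM := by
  intro E _ _ _ h
  refine ⟨fun h' u e => ?_, fun U r hU hr => ⟨⟨hU.opn, fun y hy a => ?_, fun y hy a b => ?_,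
    fun y hy a ha => mul_pos hr (hU.pos y hy a ha), fun a b => contDiffOn_const.mul (hU.sm a b)⟩,
    fun y hy a b c => ?_⟩⟩
  · have k := RGERM.rm_of_chr (e.eventuallyEq_nhds.mono fun y hy => RGERM.chr_congr hy)
    exact ⟨k, fun b c => by simp only [ric, k]⟩
  · exact ⟨fun b c => by rw [(hU.lin y hy a).map_add]; ring,
      fun s b => by rw [(hU.lin y hy a).map_smul]; simp only [smul_eq_mul]; ring⟩
  · rw [hU.symm y hy]
  · refine RGERM.rm_of_chr ?_ a b c
    filter_upwards [hU.opn.mem_nhds hy] with z hz a b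
    have k : ∀ a b c : E, fderiv ℝ (fun y => r * h y a b) z c = r * fderiv ℝ (fun y => h y a b) z c := by
      intro a b c
      rw [fderiv_const_mul (((hU.sm a b).contDiffAt (hU.opn.mem_nhds hz)).differentiableAt (by simp))]
      simp
    simp only [chr, k]
    refine congrArg _ (funext fun G => propext (forall_congr' fun c => ⟨fun e => ?_, fun e => ?_⟩))
    · apply mul_left_cancel₀ hr.ne'
      linear_combination e
    · linear_combination r * e

end Pool.Agent.MP_67f0e4_gt.H
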