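import Pool.Agent.MP_67f0e4_gt.H.Spec

/-! Slow variation of the scale from a logarithmic Lipschitz bound. -/

open scoped Topology
open Filter Set

namespace Pool.Agent.MP_67f0e4_gt.H

theorem rSLOW : StmtSLOW := by
  intro T C c hT hc hu hl
  have h0 : Tendsto (fun t => T - t) (𝓝[<] T) (𝓝 0) := by
    have : Tendsto (fun t => T - t) (𝓝 T) (𝓝 (T - T)) :=
      (continuous_const.sub continuous_id).tendsto T
    rw [sub_self] at this
    exact this.mono_left nhdsWithin_le_nhds
  have hI : ∀ᶠ t in 𝓝[<] T, t ∈ Ioo (T / 2) T := Ioo_mem_nhdsLT (by linarith)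
  have h1 : Tendsto (fun t => c t / (T - t)) (𝓝[<] T) (𝓝 0) := by
    have h2 := hu.mul h0
    rw [mul_zero] at h2
    refine h2.congr' (hI.mono fun t ht => ?_)
    have : T - t ≠ 0 := by linarith [ht.2] |> ne_of_gt
    field_simp
  refine ⟨h1, fun S ε hε => ?_⟩
  have h2 : ∀ᶠ t in 𝓝[<] T, |S| * (c t / (T - t)) < 1 / 2 :=
    (h1.const_mul |S|).eventually (gt_mem_nhds (by norm_num))
  have h3 : ∀ᶠ t in 𝓝[<] T, 4 * |C| * |S| * (c t / (T - t) ^ 2) < min 1 (ε / 2) :=
    (hu.const_mul (4 * |C| * |S|)).eventually (gt_mem_nhds (by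
      rw [mul_zero]
      exact lt_min one_pos (by linarith)))
  filter_upwards [hI, h2, h3] with t ht h2 h3 s hs
  have ht0 : t ∈ Ioo 0 T := ⟨by linarith [ht.1], ht.2⟩
  have hd : 0 < T - t := by linarith [ht.2]
  have hct := hc t ht0
  have hsS : |s| ≤ |S| := (abs_le.2 hs).trans (le_abs_self S)
  have h4 : |s * c t| ≤ |S| * c t := by
    rw [abs_mul, abs_of_pos hct]
    exact mul_le_mul_of_nonneg_right hsS hct.le
  rw [← mul_div_assoc, div_lt_iff₀ hd] at h2
  have h5 := abs_le.1 h4
  have ht1 : t + s * c t ∈ Ioo 0 T := ⟨by linarith [ht.1, h5.1], by linarith [h5.2]⟩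
  have hCS : ∀ x, 0 ≤ x → x ≤ |S| * c t → C * x ≤ |C| * (|S| * c t) := fun x h h' =>
    (mul_le_mul_of_nonneg_right (le_abs_self C) h).trans
      (mul_le_mul_of_nonneg_left h' (abs_nonneg C))
  have hp : 0 ≤ |C| * (|S| * c t) := by positivity
  have h6 : |Real.log (c (t + s * c t)) - Real.log (c t)| ≤
      4 * |C| * |S| * (c t / (T - t) ^ 2) := by
    have e0 : 4 * |C| * |S| * (c t / (T - t) ^ 2) = |C| * (|S| * c t) / ((T - t) / 2) ^ 2 := by
      field_simp
      ring
    rw [e0]
    rcases le_total 0 (s * c t) with h | h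
    · refine (hl t ht0 _ ht1 (by linarith)).trans ?_
      rw [add_sub_cancel_left]
      refine div_le_div₀ hp (hCS _ h h5.2) (by positivity) ?_
      exact pow_le_pow_left₀ (by positivity) (by linarith [h5.2]) 2
    · rw [abs_sub_comm]
      refine (hl _ ht1 t ht0 (by linarith)).trans ?_
      refine div_le_div₀ hp (hCS _ (by linarith) (by linarith [h5.1])) (by positivity) ?_
      exact pow_le_pow_left₀ (by positivity) (by linarith) 2
  have h7 := (h6.trans h3.le).trans (min_le_left _ _)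
  have h8 := (h6.trans h3.le).trans (min_le_right _ _)
  have h9 := Real.abs_exp_sub_one_le h7
  rw [Real.exp_sub, Real.exp_log (hc _ ht1), Real.exp_log hct, div_sub_one hct.ne', abs_div,
    abs_of_pos hct, div_le_iff₀ hct] at h9
  nlinarith

end Pool.Agent.MP_67f0e4_gt.H
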