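import Pool.Agent.MP_67f0e4_gt.H.Iface

/-! Row statements of block H. -/

open scoped ContDiff Topology Manifold NNReal
open Filter Set Metric

namespace Pool.Agent.MP_67f0e4_gt.H

open K

noncomputable section

section Local
variable {E : Type} [NormedAddCommGroup E] [NormedSpace ℝ E]

/-- A metric in coordinates on the open set `U`. -/
structure MetOn (h : E → E → E → ℝ) (U : Set E) : Prop where
  opn : IsOpen U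
  lin : ∀ y ∈ U, ∀ a, IsLinearMap ℝ (h y a)
  symm : ∀ y ∈ U, ∀ a b, h y a b = h y b a
  pos : ∀ y ∈ U, ∀ a, a ≠ 0 → 0 < h y a a
  sm : ∀ a b, ContDiffOn ℝ ∞ (fun y => h y a b) U

/-- Half of the Koszul expression. -/
def kos (h : E → E → E → ℝ) (y a b c : E) : ℝ :=
  (D a (fun w => h w b c) y + D b (fun w => h w a c) y - D c (fun w => h w a b) y) / 2

structure ChrF (h : E → E → E → ℝ) (U : Set E) : Prop where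
  bund : ∃ (G : E → E →L[ℝ] E →L[ℝ] ℝ) (C : E → E →L[ℝ] E →L[ℝ] E), ContDiffOn ℝ ∞ G U ∧
    ContDiffOn ℝ ∞ C U ∧ ∀ y ∈ U, ∀ a b, h y a b = G y a b ∧ chr h y a b = C y a b
  kosz : ∀ y ∈ U, ∀ a b c, h y (chr h y a b) c = kos h y a b c
  symm : ∀ y ∈ U, ∀ a b, chr h y a b = chr h y b a
  compat : ∀ y ∈ U, ∀ a b c,
    D a (fun w => h w b c) y = h y (chr h y a b) c + h y b (chr h y a c)

structure RmF [FiniteDimensional ℝ E] (h : E → E → E → ℝ) (U : Set E) : Prop where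
  bund : ∀ y ∈ U, ∃ R : E →L[ℝ] E →L[ℝ] E →L[ℝ] E, ∀ a b c, rm h y a b c = R a b c
  anti : ∀ y ∈ U, ∀ a b c, rm h y a b c = -rm h y b a c
  bianchi : ∀ y ∈ U, ∀ a b c, rm h y a b c + rm h y b c a + rm h y c a b = 0
  skew : ∀ y ∈ U, ∀ a b c d, h y (rm h y a b c) d = -h y (rm h y a b d) c
  pair : ∀ y ∈ U, ∀ a b c d, h y (rm h y a b c) d = h y (rm h y c d a) b
  form : ∀ y ∈ U, ∀ a b c d, h y (rm h y a b c) d =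
    D a (fun w => kos h w b c d) y - D b (fun w => kos h w a c d) y
      - h y (chr h y b c) (chr h y a d) + h y (chr h y a c) (chr h y b d)
  trace : ∀ y ∈ U, ∀ b c, ∀ L : E →ₗ[ℝ] E, (∀ a, L a = rm h y a b c) →
    ric h y b c = LinearMap.trace ℝ E L
end Local

def StmtCHR : Prop := ∀ (E : Type) [NormedAddCommGroup E] [NormedSpace ℝ E] [FiniteDimensional ℝ E]
  (h : E → E → E → ℝ) (U : Set E), MetOn h U → ChrF h U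

def StmtRM : Prop := ∀ (E : Type) [NormedAddCommGroup E] [NormedSpace ℝ E] [FiniteDimensional ℝ E]
  (h : E → E → E → ℝ) (U : Set E), MetOn h U → ChrF h U → RmF h U

/-- Curvature depends on the germ only and does not see constant factors. -/
def StmtGERM : Prop := ∀ (E : Type) [NormedAddCommGroup E] [NormedSpace ℝ E] [FiniteDimensional ℝ E]
  (h : E → E → E → ℝ),
  (∀ (h' : E → E → E → ℝ) (u : E), h =ᶠ[𝓝 u] h' →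
    (∀ a b c, rm h u a b c = rm h' u a b c) ∧ ∀ b c, ric h u b c = ric h' u b c) ∧
  ∀ (U : Set E) (r : ℝ), MetOn h U → 0 < r → MetOn (fun y a b => r * h y a b) U ∧
    ∀ y ∈ U, ∀ a b c, rm (fun y a b => r * h y a b) y a b c = rm h y a b c

/-- Curvature is a tensor. -/
def StmtTENS : Prop := ∀ (E E' : Type) [NormedAddCommGroup E] [NormedSpace ℝ E]
  [FiniteDimensional ℝ E] [NormedAddCommGroup E'] [NormedSpace ℝ E'] [FiniteDimensional ℝ E']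
  (h : E → E → E → ℝ) (U : Set E) (h' : E' → E' → E' → ℝ) (U' : Set E') (T : E' → E),
  MetOn h U → IsOpen U' → ContDiffOn ℝ ∞ T U' → MapsTo T U' U →
  (∀ y ∈ U', Function.Bijective (fderiv ℝ T y)) →
  (∀ y ∈ U', ∀ a b, h' y a b = h (T y) (fderiv ℝ T y a) (fderiv ℝ T y b)) →
  MetOn h' U' ∧ ∀ y ∈ U',
    (∀ a b c, fderiv ℝ T y (rm h' y a b c) =
      rm h (T y) (fderiv ℝ T y a) (fderiv ℝ T y b) (fderiv ℝ T y c)) ∧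
    ∀ b c, ric h' y b c = ric h (T y) (fderiv ℝ T y b) (fderiv ℝ T y c)

/-- A Kaehler potential on an open set. -/
structure KP (f : V → ℝ) (U : Set V) : Prop where
  opn : IsOpen U
  sm : ContDiffOn ℝ ∞ f U
  pos : ∀ x ∈ U, Pos (lv f x)

structure LevF : Prop where
  eq : ∀ (f : V → ℝ) (x : V), ContDiffAt ℝ 2 f x → ∀ a b, lev f x a b = bf (lv f x) a b
  herm : ∀ (g : Hm) (a b : V), bf g (Complex.I • a) (Complex.I • b) = bf g a b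
  met : ∀ f U, KP f U → MetOn (lev f) U
  smo : ∀ f U, IsOpen U → ContDiffOn ℝ ∞ f U → ∀ α, ContDiffOn ℝ ∞ (fun y => lv f y α) U
  det : ∀ g : Hm, Pos g → 0 < hdet g
  germ : ∀ (f g : V → ℝ) (x : V), f =ᶠ[𝓝 x] g → lev f =ᶠ[𝓝 x] lev g
  mul : ∀ (r : ℝ) (f : V → ℝ) (x a b : V), lev (fun y => r * f y) x a b = r * lev f x a b
  hol : ∀ (f : V → ℝ) (T : V → V) (x : V), ContDiffAt ℝ 2 f (T x) → ContDiffAt ℂ 2 T x →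
    ∀ a b, lev (f ∘ T) x a b = lev f (T x) (fderiv ℝ T x a) (fderiv ℝ T x b)

def StmtLEV : Prop := LevF

/-- The complex structure is parallel. -/
def StmtKJ : Prop := ∀ f U, KP f U → ∀ x ∈ U, ∀ a b : V,
  chr (lev f) x a (Complex.I • b) = Complex.I • chr (lev f) x a b

/-- Trace of the Christoffel symbols. -/
def StmtKTR : Prop := ∀ f U, KP f U → ∀ x ∈ U, ∀ (b : V) (L : V →ₗ[ℝ] V),
  (∀ a, L a = chr (lev f) x b a) →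
  LinearMap.trace ℝ V L = D b (fun y => Real.log (hdet (lv f y))) x

/-- Ricci tensor of a Kaehler metric. -/
def StmtKRIC : Prop := ∀ f U, KP f U → ∀ x ∈ U, ∀ b c : V,
  -2 * ric (lev f) x b c = lev (fun y => Real.log (hdet (lv f y))) x b c

def StmtNF : Prop := ∀ f U, KP f U → ∀ x ∈ U, CurvData f x →
  ∃ a b c d : V, lev f x (rm (lev f) x a b c) d ≠ 0

/-- Curvature bound from the two-jet of the metric. -/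
def StmtRBD : Prop := ∀ Λ M : ℝ, ∃ C : ℝ, ∀ f U, KP f U → ∀ x ∈ U, EllH Λ (lv f x) →
  LB 2 M f {x} → ∀ a b c d : V, lev f x a a ≤ 1 → lev f x b b ≤ 1 → lev f x c c ≤ 1 →
    lev f x d d ≤ 1 → |lev f x (rm (lev f) x a b c) d| ≤ C

/-- Curvature is continuous in the two-jet of the metric. -/
def StmtRCT : Prop := ∀ (ι : Type) (l : Filter ι) (f : ι → V → ℝ) (g : V → ℝ) (U : Set V),
  (∀ᶠ i in l, KP (f i) U) → KP g U → ∀ x ∈ U,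
  (∀ w : List (Fin 4), w.length ≤ 2 → ∀ α,
    Tendsto (fun i => DL w (fun y => lv (f i) y α) x) l (𝓝 (DL w (fun y => lv g y α) x))) →
  ∀ a b c d : V, Tendsto (fun i => lev (f i) x (rm (lev (f i)) x a b c) d) l
    (𝓝 (lev g x (rm (lev g) x a b c) d))

/-- Uniform convergence and bounds on all derivatives give smooth convergence. -/
def StmtINT : Prop := ∀ (F : Type) [NormedAddCommGroup F] [NormedSpace ℝ F] [FiniteDimensional ℝ F]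
  (ι : Type) (l : Filter ι) (u : ι → F → ℝ) (W : Set F), IsOpen W →
  (∀ᶠ i in l, ContDiffOn ℝ ∞ (u i) W) →
  (∀ ε : ℝ, 0 < ε → ∀ᶠ i in l, ∀ z ∈ W, |u i z| ≤ ε) →
  (∀ k : ℕ, ∃ M : ℝ, ∀ᶠ i in l, ∀ z ∈ W, ‖iteratedFDeriv ℝ k (u i) z‖ ≤ M) →
  ∀ K : Set F, IsCompact K → K ⊆ W → ∀ (k : ℕ) (ε : ℝ), 0 < ε →
    ∀ᶠ i in l, ∀ z ∈ K, ‖iteratedFDeriv ℝ k (u i) z‖ ≤ ε

/-- Words of derivatives and iterated derivatives. -/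
def StmtWD : Prop := ∀ (g : V → ℝ) (U : Set V), IsOpen U → ContDiffOn ℝ ∞ g U → ∀ x ∈ U,
  (∀ (k : ℕ) (M : ℝ), (∀ l : List (Fin 4), l.length = k → |DL l g x| ≤ M) →
    ‖iteratedFDeriv ℝ k g x‖ ≤ 4 ^ k * M) ∧
  (∀ l : List (Fin 4), |DL l g x| ≤ ‖iteratedFDeriv ℝ l.length g x‖) ∧
  ∀ (g' : V → ℝ) (r : ℝ), ContDiffOn ℝ ∞ g' U → ∀ l : List (Fin 4),
    DL l (fun y => r * g y - g' y) x = r * DL l g x - DL l g' x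

/-- The metric flow from the potential flow. -/
def StmtDT : Prop := ∀ (S : Set ℝ) (U : Set V) (φ : ℝ → V → ℝ) (w0 : V → ℝ),
  UniqueDiffOn ℝ S → S ⊆ closure (interior S) → IsOpen U → PFlow S U φ w0 → ∀ a b : V,
  ContDiffOn ℝ ∞ (fun z : ℝ × V => lev (φ z.1) z.2 a b) (S ×ˢ U) ∧
  ∀ t ∈ S, ∀ x ∈ U, HasDerivWithinAt (fun s => lev (φ s) x a b)
    (lev (fun y => Real.log (hdet (lv (φ t) y))) x a b) S t

/-- Space-time bounds from spatial bounds. -/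
def StmtST : Prop := ∀ (ι : Type) (l : Filter ι) (φ : ι → ℝ → V → ℝ) (w : ι → V → ℝ) (J : Set ℝ)
  (U : Set V) (δ : ℝ), IsOpen J → IsOpen U → 0 < δ → (∀ᶠ i in l, PFlow J U (φ i) (w i)) →
  (∀ᶠ i in l, ∀ s ∈ J, ∀ x ∈ U, δ ≤ hdet (lv (φ i s) x)) →
  (∀ k, ∃ M, ∀ᶠ i in l, ∀ s ∈ J, LB k M (φ i s) U) →
  ∀ (α : Fin 4) (k : ℕ), ∃ M : ℝ, ∀ᶠ i in l, ∀ z ∈ J ×ˢ U,
    ‖iteratedFDeriv ℝ k (fun z : ℝ × V => lv (φ i z.1) z.2 α) z‖ ≤ M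

section Mfd
variable {X : Set C3} [ChartedSpace E4 X]

/-- The inverse of the chart at `p`. -/
def cN (ι : E4 ≃L[ℝ] V) (p : X) (y : V) : C3 := ((chartAt E4 p).symm (ι.symm y) : X)

/-- The Kaehler metric with potential `f`. -/
def kah (ι : E4 ≃L[ℝ] V) (f : C3 → ℝ) (p : X) (a b : E4) : ℝ :=
  lev (f ∘ cN ι p) (ι (chartAt E4 p p)) (ι a) (ι b)

variable (X) in
/-- A holomorphic atlas. -/
structure Atl (ι : E4 ≃L[ℝ] V) : Prop where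
  surf : Surf X
  man : IsManifold 𝓘(ℝ, E4) ∞ X
  par : ∀ p : X, Par X (cN ι p) (ι.symm ⁻¹' (chartAt E4 p).target)
end Mfd

/-- Global Kaehler potential. -/
def XK (X : Set C3) (f : C3 → ℝ) : Prop := ∀ N U, Par X N U → KP (f ∘ N) U

def StmtATL : Prop := ∀ (X : Set C3) (ι : E4 ≃L[ℝ] V), Surf X → Fam X →
  ∃ _ : ChartedSpace E4 X, Atl X ι

def StmtMAP : Prop := ∀ (X : Set C3) [ChartedSpace E4 X] (ι : E4 ≃L[ℝ] V), Atl X ι →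
  (ConnectedSpace X → IsSubmfd E4 X) ∧
  ∀ (Θ : E4 → X) (v : E4), ContDiffAt ℝ ∞ (fun w => (Θ w : C3)) v →
    ContMDiffAt 𝓘(ℝ, E4) 𝓘(ℝ, E4) ∞ Θ v

def StmtPULL : Prop := ∀ (X : Set C3) [ChartedSpace E4 X] (ι : E4 ≃L[ℝ] V), Atl X ι →
  ∀ f : C3 → ℝ, XSm0 X f →
  (∀ (Θ : E4 → X) (v : E4) (N : V → C3) (U : Set V) (T : E4 → V), Par X N U → T v ∈ U →
    DifferentiableAt ℝ T v → (∀ᶠ w in 𝓝 v, N (T w) = Θ w) → ∀ a b,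
    pull (kah ι f) Θ v a b = lev (f ∘ N) (T v) (fderiv ℝ T v a) (fderiv ℝ T v b)) ∧
  ∀ (p : X), ∀ u ∈ (chartAt E4 p).target, ∀ a b,
    loc (kah ι f) p u a b = lev (f ∘ cN ι p) (ι u) (ι a) (ι b)

/-- Transfer of metric and curvature to any holomorphic parametrisation. -/
def StmtTR : Prop := ∀ (X : Set C3) [ChartedSpace E4 X] (ι : E4 ≃L[ℝ] V), Atl X ι →
  (∀ f, XK X f → IsMetric (kah ι f : X → E4 → E4 → ℝ)) ∧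
  ∀ N U, Par X N U → ∀ x ∈ U, ∀ p : X, N x = p → ∃ A : E4 ≃L[ℝ] V, ∀ f, XK X f →
    (∀ a b, kah ι f p a b = lev (f ∘ N) x (A a) (A b)) ∧
    (∀ a b c, A (Rm (kah ι f) p a b c) = rm (lev (f ∘ N)) x (A a) (A b) (A c)) ∧
    ∀ b c, Ric (kah ι f) p b c = ric (lev (f ∘ N)) x (A b) (A c)

def StmtCPL : Prop := ∀ (X : Set C3) [ChartedSpace E4 X] (ι : E4 ≃L[ℝ] V), Atl X ι →
  ∀ (f ρ : C3 → ℝ) (C : ℝ), XK X f → XSm0 X ρ → (∀ c, IsCompact {p ∈ X | ρ p ≤ c}) →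
  (∀ p ∈ X, ∃ N U x, Par X N U ∧ x ∈ U ∧ N x = p ∧
    ∀ v, D v (ρ ∘ N) x ^ 2 ≤ C * lev (f ∘ N) x v v) →
  Complete (kah ι f : X → E4 → E4 → ℝ)

def StmtFL1 : Prop := ∀ (X : Set C3) [ChartedSpace E4 X] (ι : E4 ≃L[ℝ] V), Atl X ι →
  ∀ (T : ℝ) (φ : ℝ → C3 → ℝ) (ψ : C3 → ℝ), 0 < T → XFlow X ψ (Ico 0 T) φ →
  (∀ t ∈ Ico 0 T, XK X (φ t)) ∧
  (∀ (p : X) a b, ContDiffOn ℝ ∞ (fun z : ℝ × E4 => loc (kah ι (φ z.1)) p z.2 a b)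
    (Ico 0 T ×ˢ (chartAt E4 p).target)) ∧
  ∀ t ∈ Ico 0 T, ∀ (x : X) a b, HasDerivWithinAt (fun s => kah ι (φ s) x a b)
    (-2 * Ric (kah ι (φ t)) x a b) (Ico 0 T) t

def StmtFL2 : Prop := ∀ (X : Set C3) [ChartedSpace E4 X] (ι : E4 ≃L[ℝ] V), Atl X ι →
  ∀ (F : Fam X) (T : ℝ) (φ : ℝ → C3 → ℝ) (ψ : C3 → ℝ), F.EXH → 0 < T →
  (∀ t ∈ Ico 0 T, XK X (φ t)) → (∀ τ ∈ Ioo 0 T, F.GFlow ψ τ φ) →
  (∀ t ∈ Ico 0 T, Complete (kah ι (φ t) : X → E4 → E4 → ℝ)) ∧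
  ∀ t' < T, ∃ C : ℝ≥0, ∀ t ∈ Icc 0 t', supRm (kah ι (φ t) : X → E4 → E4 → ℝ) ≤ C

/-- The limit data in one chart. -/
structure Loc0 (T : ℝ) (φ : ℝ → V → ℝ) (c : ℝ → ℝ) (ψ : V → ℝ) (B : Set V) : Prop where
  lim : ∀ ε : ℝ, 0 < ε → ∀ᶠ t in 𝓝[<] T, ∀ y ∈ B, ∀ α, |(c t)⁻¹ * lv (φ t) y α - lv ψ y α| ≤ ε
  der : ∀ k : ℕ, ∃ M : ℝ, ∀ᶠ t in 𝓝[<] T, LB k (M * c t) (φ t) B
  bnd : ∀ k : ℕ, ∃ M : ℝ, LB k M ψ B
  low : ∃ δ : ℝ, 0 < δ ∧ ∀ y ∈ B, δ ≤ hdet (lv ψ y)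

def StmtC0 : Prop := ∀ (X : Set C3) (T : ℝ) (φ : ℝ → C3 → ℝ) (c : ℝ → ℝ) (ψ : C3 → ℝ), 0 < T →
  XK X ψ → LimData X T φ c ψ → ∀ N U, Par X N U → ∀ x ∈ U, ∃ r : ℝ, 0 < r ∧ ball x r ⊆ U ∧
    Loc0 T (fun t => φ t ∘ N) c (ψ ∘ N) (ball x r)

def StmtBLOW : Prop := ∀ (X : Set C3) [ChartedSpace E4 X] (ι : E4 ≃L[ℝ] V), Atl X ι →
  ∀ (T : ℝ) (φ : ℝ → C3 → ℝ) (c : ℝ → ℝ) (ψ : C3 → ℝ), 0 < T → (∀ t ∈ Ico 0 T, XK X (φ t)) →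
  XK X ψ → LimData X T φ c ψ → (∃ N U, Par X N U ∧ ∃ x ∈ U, CurvData (ψ ∘ N) x) →
  Tendsto (fun t => supRm (kah ι (φ t) : X → E4 → E4 → ℝ)) (𝓝[<] T) (𝓝 ⊤)

/-- Smooth space-time convergence in one chart. -/
def StmtCV1 : Prop := ∀ (T : ℝ) (φ : ℝ → V → ℝ) (c : ℝ → ℝ) (ψ w0 : V → ℝ) (B : Set V), 0 < T →
  PFlow (Ico 0 T) B φ w0 → KP ψ B → Loc0 T φ c ψ B → (∀ t ∈ Ioo 0 T, 0 < c t) →
  Tendsto (fun t => c t / (T - t)) (𝓝[<] T) (𝓝 0) →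
  (∀ S ε : ℝ, 0 < ε → ∀ᶠ t in 𝓝[<] T, ∀ s ∈ Icc (-S) S, |c (t + s * c t) - c t| ≤ ε * c t) →
  ∀ K : Set (ℝ × V), IsCompact K → K ⊆ univ ×ˢ B → ∀ (a b : V) (k : ℕ) (ε : ℝ), 0 < ε →
    ∀ᶠ t in 𝓝[<] T, ∀ z ∈ K, ‖iteratedFDeriv ℝ k (fun z : ℝ × V =>
      (c t)⁻¹ * lev (φ (t + z.1 * c t)) z.2 a b - lev ψ z.2 a b) z‖ ≤ ε

def StmtCV2 : Prop := ∀ (X : Set C3) [ChartedSpace E4 X] (ι : E4 ≃L[ℝ] V), Atl X ι → Nonempty X →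
  ∀ (T : ℝ) (φ : ℝ → C3 → ℝ) (c : ℝ → ℝ) (ψ : C3 → ℝ), 0 < T → XFlow X ψ (Ico 0 T) φ →
  (∀ t ∈ Ico 0 T, XK X (φ t)) → XK X ψ → LimData X T φ c ψ →
  IsBlowupLimit T (fun t => (kah ι (φ t) : X → E4 → E4 → ℝ)) (kah ι ψ : X → E4 → E4 → ℝ)

def StmtALE : Prop := ∀ (X : Set C3) [ChartedSpace E4 X] (ι : E4 ≃L[ℝ] V), Atl X ι →
  ∀ (ψ : C3 → ℝ) (n : ℕ), AleData X ψ n → ∃ Γ : Subgroup (E4 ≃ₗᵢ[ℝ] E4),
    IsRicciFlatALE (kah ι ψ : X → E4 → E4 → ℝ) Γ ∧ IsCyclic Γ ∧ Nat.card Γ = n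

theorem xk_of_rflat {X : Set C3} {ψ : C3 → ℝ} (h : RFlat X ψ) : XK X ψ :=
  fun N U hN => ⟨hN.op, h.1 N U hN, fun x hx => (h.2 N U hN x hx).1⟩

theorem XK.sm {X : Set C3} {f : C3 → ℝ} (h : XK X f) : XSm0 X f := fun N U hN => (h N U hN).sm

theorem main_of (atl : StmtATL) (map : StmtMAP) (tr : StmtTR) (fl1 : StmtFL1) (fl2 : StmtFL2)
    (blow : StmtBLOW) (cv2 : StmtCV2) (ale : StmtALE) : StmtH := by
  intro X n F T φ c ψ hS hC hE hT hF hG hL hA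
  let ι : E4 ≃L[ℝ] V := ContinuousLinearEquiv.ofFinrankEq (by simp [Complex.finrank_real_complex])
  obtain ⟨cs, hAt⟩ := atl X ι hS F
  obtain ⟨h1, h2, h3⟩ := fl1 X ι hAt T φ ψ hT hF
  obtain ⟨h4, h5⟩ := fl2 X ι hAt F T φ ψ hE hT h1 hG
  obtain ⟨Γ, h6, h7, h8⟩ := ale X ι hAt ψ n hA
  have hK := xk_of_rflat hA.flat
  exact ⟨cs, (map X ι hAt).1 hC, T, fun t => kah ι (φ t), kah ι ψ, Γ,
    ⟨hT, fun t ht => (tr X ι hAt).1 _ (h1 t ht), h2, h3, h4, h5,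
      blow X ι hAt T φ c ψ hT h1 hK hL hA.curv⟩, h6, h7, h8,
    cv2 X ι hAt hC.toNonempty T φ c ψ hT hF h1 hK hL⟩

end

end Pool.Agent.MP_67f0e4_gt.H
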